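import Pool.Agent.Helper19.HV.Defs

/-!
# Project HV (MP_bae8ce_ag): the complexes of the open subsets of the affine line

`PL.Γ K k j` is the term of `Γ(K, k + j) ⊗ ℚ` in degree `j + 1`; `PL.ΓX F X k j` is the term of
the total complex `Γ(X, k + j) ⊗ ℚ` in degree `j + 1` and `PL.dΓX` its differential
`(a, b) ↦ (d a, ∂ a - d b)` (`Pool.Agent.Helper91.PL.Defs`).
-/

set_option autoImplicit false

namespace Pool.Agent.Helper19.HV

noncomputable section

open PL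

variable {F : Type} [Field F]

/-- `c` is the map `Γ(F, n) → Γ(F(t), n)` induced by the inclusion of the constants. -/
structure IsCst (c : ∀ k j : ℕ, Γ F k j →ₗ[ℚ] Γ (RatFunc F) k j) : Prop where
  one : ∀ (j : ℕ) (u : Fin (j + 1) → F),
    c 1 j (pr F (j + 1) fun i => lg (u i)) =
      pr (RatFunc F) (j + 1) fun i => lg (RatFunc.C (u i))
  two : ∀ (q j : ℕ) (x : P1 F) (u : Fin j → F),
    c (q + 2) j (tm q j x (pr F j fun i => lg (u i))) =
      tm q j (Option.map RatFunc.C x) (pr (RatFunc F) j fun i => lg (RatFunc.C (u i)))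

/-- `m a` is the map `y ↦ y ∧ (t - a)` from `Γ(F, n - 1)[-1]` to `Γ(F(t), n)`. -/
structure IsMul (m : ∀ (_ : F) (k j : ℕ), Γ F k j →ₗ[ℚ] Γ (RatFunc F) k (j + 1)) : Prop where
  one : ∀ (a : F) (j : ℕ) (u : Fin (j + 1) → F),
    m a 1 j (pr F (j + 1) fun i => lg (u i)) =
      pr (RatFunc F) (j + 2) (Fin.snoc (α := fun _ => V (RatFunc F))
        (fun i => lg (RatFunc.C (u i))) (lg (RatFunc.X - RatFunc.C a)))
  two : ∀ (a : F) (q j : ℕ) (x : P1 F) (u : Fin j → F),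
    m a (q + 2) j (tm q j x (pr F j fun i => lg (u i))) =
      tm q (j + 1) (Option.map RatFunc.C x) (pr (RatFunc F) (j + 1)
        (Fin.snoc (α := fun _ => V (RatFunc F))
          (fun i => lg (RatFunc.C (u i))) (lg (RatFunc.X - RatFunc.C a))))

/-- The component at the point `a` of `X`. -/
def ev {X : Set (P1 F)} (k j : ℕ) (y : ΓP F X k j) (a : X) : Γ F k j :=
  let z : X →₀ Γ F k j := y
  z a

/-- `u` is a unit at `a` with value `c`. -/
def UnitAt (a : F) (u : RatFunc F) (c : F) : Prop := val a (some u) = some c ∧ c ≠ 0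

/-- `r` is the family of residue maps `∂_a`, `a ∈ X`, of a set `X` of points of the affine
line: with the uniformiser `π = t - a` and units `u_i` at `a`,
`∂_a ({x}_k ⊗ u_1 ∧ … ∧ u_j ∧ π) = {x(a)}_k ⊗ u_1(a) ∧ … ∧ u_j(a)` and
`∂_a ({x}_k ⊗ u_1 ∧ … ∧ u_{j+1}) = 0` (`k ≥ 2`; for `k = 1` without the factor `{x}_k`).
(With `π` in the last place the maps commute with the differentials.) -/
structure IsRes {X : Set (P1 F)} (r : Res F X) : Prop where
  one : ∀ (j : ℕ) (a : F) (ha : some a ∈ X) (u : Fin (j + 1) → RatFunc F)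
    (c : Fin (j + 1) → F), (∀ i, UnitAt a (u i) (c i)) →
    ev 1 j (r 1 j (pr (RatFunc F) (j + 2) (Fin.snoc (α := fun _ => V (RatFunc F))
      (fun i => lg (u i)) (lg (RatFunc.X - RatFunc.C a))))) ⟨some a, ha⟩ =
        pr F (j + 1) fun i => lg (c i)
  one0 : ∀ (j : ℕ) (a : F) (ha : some a ∈ X) (u : Fin (j + 2) → RatFunc F)
    (c : Fin (j + 2) → F), (∀ i, UnitAt a (u i) (c i)) →
    ev 1 j (r 1 j (pr (RatFunc F) (j + 2) fun i => lg (u i))) ⟨some a, ha⟩ = 0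
  two : ∀ (q j : ℕ) (a : F) (ha : some a ∈ X) (x : P1 (RatFunc F)) (u : Fin j → RatFunc F)
    (c : Fin j → F), (∀ i, UnitAt a (u i) (c i)) →
    ev (q + 2) j (r (q + 2) j (tm q (j + 1) x (pr (RatFunc F) (j + 1)
      (Fin.snoc (α := fun _ => V (RatFunc F))
        (fun i => lg (u i)) (lg (RatFunc.X - RatFunc.C a)))))) ⟨some a, ha⟩ =
          tm q j (val a x) (pr F j fun i => lg (c i))
  two0 : ∀ (q j : ℕ) (a : F) (ha : some a ∈ X) (x : P1 (RatFunc F))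
    (u : Fin (j + 1) → RatFunc F) (c : Fin (j + 1) → F), (∀ i, UnitAt a (u i) (c i)) →
    ev (q + 2) j (r (q + 2) j (tm q (j + 1) x (pr (RatFunc F) (j + 1) fun i => lg (u i))))
      ⟨some a, ha⟩ = 0

/-- The points of the affine line which are not in `X`. -/
abbrev Co (X : Set (P1 F)) : Type := {a : F // some a ∉ X}

/-- The terms of the complex `Γ(F, n) ⊕ ⨁_{a ∉ X} Γ(F, n - 1)[-1]`. -/
def ΓS (X : Set (P1 F)) (k j : ℕ) : ModuleCat.{0} ℚ :=
  match j with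
  | 0 => Γ F k 0
  | (j' + 1) => ModuleCat.of ℚ (Γ F k (j' + 1) × (Co X →₀ Γ F k j'))

/-- Its differential `(z, y) ↦ (d z, d y)`. -/
def dS {X : Set (P1 F)} (d' : Dif F) (k j : ℕ) : ΓS X (k + 1) j → ΓS X k (j + 1) :=
  match j with
  | 0 => fun z => (d' k 0 z, 0)
  | (j' + 1) => fun z => (d' k (j' + 1) z.1, Finsupp.mapRange.linearMap (d' k j') z.2)

/-- The map `(z, y) ↦ z + ∑_a y_a ∧ (t - a)` to `Γ(X, n)`. -/
def io {X : Set (P1 F)} (c : ∀ k j : ℕ, Γ F k j →ₗ[ℚ] Γ (RatFunc F) k j)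
    (m : ∀ (_ : F) (k j : ℕ), Γ F k j →ₗ[ℚ] Γ (RatFunc F) k (j + 1)) (k j : ℕ) :
    ΓS X k j → ΓX F X k j :=
  match j with
  | 0 => fun z => c k 0 z
  | 1 => fun z => c k 1 z.1 + z.2.sum fun a y => m a.1 k 0 y
  | (j' + 2) => fun z => (c k (j' + 2) z.1 + z.2.sum fun a y => m a.1 k (j' + 1) y, 0)

/-- Cocycles of `Γ(X, n)`. -/
def Cyc {X : Set (P1 F)} (d : Dif (RatFunc F)) (d' : Dif F) (r : Res F X) (k j : ℕ) :
    ΓX F X k j → Prop :=
  match k with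
  | 0 => fun _ => True
  | (k' + 1) => fun w => dΓX d d' r k' j w = 0

/-- Coboundaries of `Γ(X, n)`. -/
def Bdy {X : Set (P1 F)} (d : Dif (RatFunc F)) (d' : Dif F) (r : Res F X) (k j : ℕ) :
    ΓX F X k j → Prop :=
  match j with
  | 0 => fun w => w = 0
  | (j' + 1) => fun w => ∃ w' : ΓX F X (k + 1) j', dΓX d d' r k j' w' = w

/-- Cocycles of `Γ(F, n) ⊕ ⨁_{a ∉ X} Γ(F, n - 1)[-1]`. -/
def CycS {X : Set (P1 F)} (d' : Dif F) (k j : ℕ) : ΓS X k j → Prop :=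
  match k with
  | 0 => fun _ => True
  | (k' + 1) => fun s => dS d' k' j s = 0

/-- Coboundaries of `Γ(F, n) ⊕ ⨁_{a ∉ X} Γ(F, n - 1)[-1]`. -/
def BdyS {X : Set (P1 F)} (d' : Dif F) (k j : ℕ) : ΓS X k j → Prop :=
  match j with
  | 0 => fun s => s = 0
  | (j' + 1) => fun s => ∃ s' : ΓS X (k + 1) j', dS d' k j' s' = s

/-- `Γ(X, n) ⊗ ℚ` is a complex and `io` is a morphism of complexes (all `n`); it induces
isomorphisms on all cohomology groups for `n = 4`. -/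
structure QIs {X : Set (P1 F)} (d : Dif (RatFunc F)) (d' : Dif F) (r : Res F X)
    (c : ∀ k j : ℕ, Γ F k j →ₗ[ℚ] Γ (RatFunc F) k j)
    (m : ∀ (_ : F) (k j : ℕ), Γ F k j →ₗ[ℚ] Γ (RatFunc F) k (j + 1)) : Prop where
  complex : ∀ (k j : ℕ) (w : ΓX F X (k + 2) j),
    dΓX d d' r k (j + 1) (dΓX d d' r (k + 1) j w) = 0
  morphism : ∀ (k j : ℕ) (s : ΓS X (k + 1) j),
    io c m k (j + 1) (dS d' k j s) = dΓX d d' r k j (io c m (k + 1) j s)
  surj : ∀ k j : ℕ, k + j = 4 → ∀ w : ΓX F X k j, Cyc d d' r k j w →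
    ∃ s : ΓS X k j, CycS d' k j s ∧ Bdy d d' r k j (w - io c m k j s)
  inj : ∀ k j : ℕ, k + j = 4 → ∀ s : ΓS X k j, CycS d' k j s →
    Bdy d d' r k j (io c m k j s) → BdyS d' k j s

end

end Pool.Agent.Helper19.HV
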