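import Pool.Agent.Helper91.PL.Defs2

/-!
# Project HV (MP_bae8ce_ag): homotopy invariance in weight four, auxiliary definitions

`F` is a field, `RatFunc F` is the rational function field.  All functionals are written as
functions on the symbols `{x}`, `x ∈ P1`, see `Kil`.
-/

set_option autoImplicit false

open Polynomial

namespace Pool.Agent.Helper19.HV

noncomputable section

open PL

/-- `{x} ↦ ψ x` defines a linear map on `𝓑_k(F)`. -/
def Kil (k : ℕ) {F : Type} [Field F] {N : Type} [AddCommGroup N] [Module ℚ N]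
    (ψ : P1 F → N) : Prop :=
  ∀ α ∈ R k F, Finsupp.linearCombination ℚ ψ α = 0

/-- The kernels `𝓐_k(F)`, `k ≥ 2`. -/
def AA : ℕ → ∀ (F : Type) [Field F], Submodule ℚ (ZP F)
  | 0, _, _ => ⊤
  | 1, _, _ => ⊤
  | 2, F, _ => LinearMap.ker (δ2 F)
  | (k + 3), F, _ => LinearMap.ker (δ (R (k + 2) F))

variable {F : Type} [Field F]

/-- The constant point of `P1 (F(t))`. -/
def cst (c : P1 F) : P1 (RatFunc F) := Option.map RatFunc.C c

/-- The class of `t - a`. -/
def E (a : F) : V (RatFunc F) := lg (RatFunc.X - RatFunc.C a)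

/-- The decomposition of `F(t)^* ⊗ ℚ` for `F` algebraically closed: `cV` is the inclusion of
the constants, `lc` the leading coefficient and `od` the divisor on the affine line. -/
structure Spl (cV : V F →ₗ[ℚ] V (RatFunc F)) (lc : V (RatFunc F) →ₗ[ℚ] V F)
    (od : V (RatFunc F) →ₗ[ℚ] (F →₀ ℚ)) : Prop where
  cV_lg : ∀ c : F, cV (lg c) = lg (RatFunc.C c)
  lc_C : ∀ c : F, lc (lg (RatFunc.C c)) = lg c
  lc_E : ∀ a : F, lc (E a) = 0
  od_C : ∀ c : F, od (lg (RatFunc.C c)) = 0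
  od_E : ∀ a : F, od (E a) = Finsupp.single a 1
  dec : ∀ v, v = cV (lc v) + Finsupp.linearCombination ℚ E (od v)
  /-- zeros and poles -/
  val : ∀ (a : F) (x : P1 (RatFunc F)), od (cl x) a ≠ 0 →
    val a x = some 0 ∨ val a x = none

/-- The value at infinity. -/
structure Vinf (vi : P1 (RatFunc F) → P1 F) : Prop where
  cst : ∀ c, vi (cst c) = c
  lin : ∀ a c : F, c ≠ 0 → vi (some (RatFunc.C c * (RatFunc.X - RatFunc.C a))) = none
  frac : ∀ a b c : F,
    vi (some (RatFunc.C c * ((RatFunc.X - RatFunc.C a) / (RatFunc.X - RatFunc.C b)))) = some c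
  kil : ∀ (k : ℕ) (α : ZP (RatFunc F)), α ∈ R (k + 2) (RatFunc F) →
    Finsupp.mapDomain vi α ∈ R (k + 2) F

/-- The five-term relation with its usual companions. -/
structure FT5 {G N : Type} [Field G] [AddCommGroup N] [Module ℚ N] (D : G → N) : Prop where
  zero : D 0 = 0
  one_sub : ∀ x, D (1 - x) = - D x
  inv : ∀ x, D x⁻¹ = - D x
  five : ∀ x y, x ≠ 0 → x ≠ 1 → y ≠ 0 → y ≠ 1 → x ≠ y →
    D y + D (x / y) + D ((y - x) / (y - 1)) + D (x * (y - 1) / (y - x)) = D x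

/-- The extension of `D` by `0` at infinity. -/
def ext0 {G N : Type} [Zero N] (D : G → N) : P1 G → N
  | none => 0
  | some x => D x

/-- Forms `φ(w; a, b, c)`, symmetric in `a, b, c`, zero on the diagonal and on constants. -/
structure Frm (φ : V (RatFunc F) →ₗ[ℚ] V (RatFunc F) →ₗ[ℚ] V (RatFunc F) →ₗ[ℚ]
    V (RatFunc F) →ₗ[ℚ] ℚ) : Prop where
  s12 : ∀ w a b c, φ w a b c = φ w b a c
  s23 : ∀ w a b c, φ w a b c = φ w a c b
  diag : ∀ v, φ v v v v = 0
  c0 : ∀ (c : F) (a b d : V (RatFunc F)), φ (lg (RatFunc.C c)) a b d = 0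
  c1 : ∀ (c : F) (w a b : V (RatFunc F)), φ w (lg (RatFunc.C c)) a b = 0

/-- `φ` vanishes on the symbol of `x`. -/
def Sv (φ : V (RatFunc F) →ₗ[ℚ] V (RatFunc F) →ₗ[ℚ] V (RatFunc F) →ₗ[ℚ]
    V (RatFunc F) →ₗ[ℚ] ℚ) (x : RatFunc F) : Prop :=
  φ (lg (1 - x)) (lg x) (lg x) (lg x) = 0

/-- `Y` is a set of coordinates (nonconstant functions, stable under the Möbius transformations
over `F`) and `S` contains all functions of degree at most two of the coordinates. -/
structure Crd (Y S : RatFunc F → Prop) : Prop where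
  nc : ∀ y, Y y → ∀ c : F, y ≠ RatFunc.C c
  mob : ∀ y, Y y → ∀ a b c d : F, a * d - b * c ≠ 0 →
    Y ((RatFunc.C a * y + RatFunc.C b) / (RatFunc.C c * y + RatFunc.C d))
  sy : ∀ y, Y y → ∀ a b c a' b' c' : F,
    S ((RatFunc.C a * y ^ 2 + RatFunc.C b * y + RatFunc.C c) /
      (RatFunc.C a' * y ^ 2 + RatFunc.C b' * y + RatFunc.C c'))

/-- Alternating in two variables. -/
def Al2 {U N : Type} [AddCommGroup U] [Module ℚ U] [AddCommGroup N] [Module ℚ N]
    (A : U →ₗ[ℚ] U →ₗ[ℚ] N) : Prop := ∀ v, A v v = 0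

/-- Alternating in three variables. -/
def Al3 {U N : Type} [AddCommGroup U] [Module ℚ U] [AddCommGroup N] [Module ℚ N]
    (A : U →ₗ[ℚ] U →ₗ[ℚ] U →ₗ[ℚ] N) : Prop := (∀ v w, A v v w = 0) ∧ ∀ v w, A v w w = 0

/-- Alternating in four variables. -/
def Al4 {U N : Type} [AddCommGroup U] [Module ℚ U] [AddCommGroup N] [Module ℚ N]
    (A : U →ₗ[ℚ] U →ₗ[ℚ] U →ₗ[ℚ] U →ₗ[ℚ] N) : Prop :=
  (∀ v w z, A v v w z = 0) ∧ (∀ v w z, A v w w z = 0) ∧ ∀ v w z, A v w z z = 0

/-- The function `{x} ↦ A(1 - x, x)`. -/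
def sy2 {G N : Type} [Field G] [AddCommGroup N] [Module ℚ N] (A : V G →ₗ[ℚ] V G →ₗ[ℚ] N)
    (x : P1 G) : N := A (cl1 x) (cl x)

end

end Pool.Agent.Helper19.HV
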