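import Mathlib

/-!
# Project HV: multilinear functions in curried form
-/

set_option autoImplicit false

namespace Pool.Agent.Helper19.HV

section

variable {U1 U2 U3 U4 N : Type*} [AddCommGroup U1] [Module ℚ U1] [AddCommGroup U2] [Module ℚ U2]
  [AddCommGroup U3] [Module ℚ U3] [AddCommGroup U4] [Module ℚ U4] [AddCommGroup N] [Module ℚ N]

theorem mk2 (f : U1 → U2 → N) (h1 : ∀ b, IsLinearMap ℚ fun a => f a b)
    (h2 : ∀ a, IsLinearMap ℚ fun b => f a b) :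
    ∃ M : U1 →ₗ[ℚ] U2 →ₗ[ℚ] N, ∀ a b, M a b = f a b :=
  ⟨LinearMap.mk₂ ℚ f (fun a a' b => (h1 b).map_add a a') (fun c a b => (h1 b).map_smul c a)
    (fun a b b' => (h2 a).map_add b b') (fun c a b => (h2 a).map_smul c b), fun _ _ => rfl⟩

theorem mk3 (f : U1 → U2 → U3 → N) (h1 : ∀ b c, IsLinearMap ℚ fun a => f a b c)
    (h2 : ∀ a c, IsLinearMap ℚ fun b => f a b c) (h3 : ∀ a b, IsLinearMap ℚ fun c => f a b c) :
    ∃ M : U1 →ₗ[ℚ] U2 →ₗ[ℚ] U3 →ₗ[ℚ] N, ∀ a b c, M a b c = f a b c := by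
  choose g hg using fun a => mk2 (f a) (h2 a) (h3 a)
  have h : IsLinearMap ℚ g := by
    constructor
    · intro a a'
      ext b c
      simp only [LinearMap.add_apply, hg]
      exact (h1 b c).map_add a a'
    · intro r a
      ext b c
      simp only [LinearMap.smul_apply, hg]
      exact (h1 b c).map_smul r a
  exact ⟨h.mk' g, fun a b c => hg a b c⟩

theorem mk4 (f : U1 → U2 → U3 → U4 → N) (h1 : ∀ b c d, IsLinearMap ℚ fun a => f a b c d)
    (h2 : ∀ a c d, IsLinearMap ℚ fun b => f a b c d)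
    (h3 : ∀ a b d, IsLinearMap ℚ fun c => f a b c d)
    (h4 : ∀ a b c, IsLinearMap ℚ fun d => f a b c d) :
    ∃ M : U1 →ₗ[ℚ] U2 →ₗ[ℚ] U3 →ₗ[ℚ] U4 →ₗ[ℚ] N, ∀ a b c d, M a b c d = f a b c d := by
  choose g hg using fun a => mk3 (f a) (h2 a) (h3 a) (h4 a)
  have h : IsLinearMap ℚ g := by
    constructor
    · intro a a'
      ext b c d
      simp only [LinearMap.add_apply, hg]
      exact (h1 b c d).map_add a a'
    · intro r a
      ext b c d
      simp only [LinearMap.smul_apply, hg]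
      exact (h1 b c d).map_smul r a
  exact ⟨h.mk' g, fun a b c d => hg a b c d⟩

end

/-- Example of use: permuting the variables. -/
theorem mk4_perm {U N : Type*} [AddCommGroup U] [Module ℚ U] [AddCommGroup N] [Module ℚ N]
    (A : U →ₗ[ℚ] U →ₗ[ℚ] U →ₗ[ℚ] U →ₗ[ℚ] N) :
    ∃ M : U →ₗ[ℚ] U →ₗ[ℚ] U →ₗ[ℚ] U →ₗ[ℚ] N, ∀ a b c d, M a b c d = A c a d b :=
  mk4 _ (fun _ _ _ => ⟨fun _ _ => by simp, fun _ _ => by simp⟩)
    (fun _ _ _ => ⟨fun _ _ => by simp, fun _ _ => by simp⟩)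
    (fun _ _ _ => ⟨fun _ _ => by simp, fun _ _ => by simp⟩)
    (fun _ _ _ => ⟨fun _ _ => by simp, fun _ _ => by simp⟩)

end Pool.Agent.Helper19.HV
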