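import Pool.Agent.Helper19.HV.Curve
import Pool.Agent.Helper19.HV.Lin

/-!
# Project HV: definitions for part B
-/

set_option autoImplicit false

namespace Pool.Agent.Helper19.HV

noncomputable section

open PL

variable {F : Type} [Field F]

/-- Forms in four variables on `F(t)^* ⊗ ℚ`. -/
abbrev F4 (F : Type) [Field F] : Type :=
  V (RatFunc F) →ₗ[ℚ] V (RatFunc F) →ₗ[ℚ] V (RatFunc F) →ₗ[ℚ] V (RatFunc F) →ₗ[ℚ] ℚ

/-- The class of `y - l`. -/
def e (y : RatFunc F) (l : F) : V (RatFunc F) := lg (y - RatFunc.C l)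

/-- The basic relations for the coordinate `y`. -/
def Cal (φ : F4 F) (y : RatFunc F) : Prop := ∀ l m n : F,
  φ (e y n) (e y l) (e y l) (e y l) = 0 ∧
  φ (e y n) (e y l) (e y l) (e y m) = φ (e y n) (e y l) (e y m) (e y m) ∧
  φ (e y l) (e y l) (e y l) (e y m) = 0

/-- The function `W`. -/
def Wf (φ : F4 F) (y : RatFunc F) (a b c s : F) : ℚ :=
  φ (e y s) (e y a) (e y a) (e y b) - φ (e y s) (e y a) (e y b) (e y c)

/-- The function `D_y`. -/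
def Df (φ : F4 F) (y : RatFunc F) (l : F) : ℚ := φ (e y l) (e y 0) (e y 0) (e y 1)

/-- The five-term expression. -/
def N5 (D : F → ℚ) (x l : F) : ℚ :=
  D l + D (x / l) + D ((l - x) / (l - 1)) + D (x * (l - 1) / (l - x)) - D x

/-- Forms vanishing on constants in every variable. -/
structure Cv4 (M : F4 F) : Prop where
  c1 : ∀ (c : F) (v w z : V (RatFunc F)), M (lg (RatFunc.C c)) v w z = 0
  c2 : ∀ (c : F) (v w z : V (RatFunc F)), M v (lg (RatFunc.C c)) w z = 0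
  c3 : ∀ (c : F) (v w z : V (RatFunc F)), M v w (lg (RatFunc.C c)) z = 0
  c4 : ∀ (c : F) (v w z : V (RatFunc F)), M v w z (lg (RatFunc.C c)) = 0

/-- The function `(t - a) / (p - a)`. -/
def x1 (a p : F) : P1 (RatFunc F) := some (RatFunc.C (p - a)⁻¹ * (RatFunc.X - RatFunc.C a))

/-- The function `c (t - a) / (t - b)`. -/
def x2 (a b c : F) : P1 (RatFunc F) :=
  some (RatFunc.C c * ((RatFunc.X - RatFunc.C a) / (RatFunc.X - RatFunc.C b)))

/-- Functionals on `𝓑_3 ⊗ F(t)^*` which are zero on the image of `𝓑_4` and on `{c} ⊗ k`,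
`c` constant. -/
structure Ps (Ψ : P1 (RatFunc F) → (V (RatFunc F) →ₗ[ℚ] ℚ)) : Prop where
  kil : Kil 3 Ψ
  cl : ∀ x, Ψ x (cl x) = 0
  cst : ∀ c, Ψ (cst c) = 0

/-- Functionals on `𝓑_2 ⊗ Λ² F(t)^*` which are zero on `{c} ⊗ u ∧ k`, `c, u` constant. -/
structure Ls (L : P1 (RatFunc F) → (V (RatFunc F) →ₗ[ℚ] V (RatFunc F) →ₗ[ℚ] ℚ)) : Prop where
  kil : Kil 2 L
  alt : ∀ x, Al2 (L x)
  cst : ∀ (c : P1 F) (u : F) (k : V (RatFunc F)), L (cst c) (lg (RatFunc.C u)) k = 0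

/-- `M` is a form for `Ψ`. -/
structure Fm (Ψ : P1 (RatFunc F) → (V (RatFunc F) →ₗ[ℚ] ℚ)) (M : F4 F) : Prop where
  alt : ∀ v w z, M v v w z = 0
  cv : Cv4 M
  eq : ∀ x k, Ψ x k = M (PL.cl1 x) (PL.cl x) (PL.cl x) k

/-- The formula for `φ(E_p, E_a, E_a, E_b)`. -/
def Fml (φ : F4 F) (Ψ : P1 (RatFunc F) → (V (RatFunc F) →ₗ[ℚ] ℚ)) : Prop :=
  ∀ a b p : F, a ≠ b → p ≠ a → p ≠ b → 3 * φ (E p) (E a) (E a) (E b) =
    Ψ (x1 a p) (E a + E b) + (Ψ (x1 b p) (E a) - Ψ (x2 a b ((p - b) / (p - a))) (E a) +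
      Ψ (x2 a b 1) (E a))

/-- The subcomplex generated by the constants and the `y ∧ (t - a)`. -/
def II (c : ∀ k j : ℕ, Γ F k j →ₗ[ℚ] Γ (RatFunc F) k j)
    (m : ∀ (_ : F) (k j : ℕ), Γ F k j →ₗ[ℚ] Γ (RatFunc F) k (j + 1)) (k j : ℕ) :
    Submodule ℚ (Γ (RatFunc F) k j) :=
  match j with
  | 0 => LinearMap.range (c k 0)
  | (j' + 1) => LinearMap.range (c k (j' + 1)) ⊔ ⨆ a, LinearMap.range (m a k j')

/-- `ρ` is the residue at the point `a` (one point of `IsRes`). -/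
structure IsR1 (a : F) (ρ : ∀ k j : ℕ, Γ (RatFunc F) k (j + 1) →ₗ[ℚ] Γ F k j) : Prop where
  one : ∀ (j : ℕ) (u : Fin (j + 1) → RatFunc F)
    (c : Fin (j + 1) → F), (∀ i, UnitAt a (u i) (c i)) →
    ρ 1 j (pr (RatFunc F) (j + 2) (Fin.snoc (α := fun _ => V (RatFunc F))
      (fun i => lg (u i)) (lg (RatFunc.X - RatFunc.C a)))) = pr F (j + 1) fun i => lg (c i)
  one0 : ∀ (j : ℕ) (u : Fin (j + 2) → RatFunc F)
    (c : Fin (j + 2) → F), (∀ i, UnitAt a (u i) (c i)) →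
    ρ 1 j (pr (RatFunc F) (j + 2) fun i => lg (u i)) = 0
  two : ∀ (q j : ℕ) (x : P1 (RatFunc F)) (u : Fin j → RatFunc F)
    (c : Fin j → F), (∀ i, UnitAt a (u i) (c i)) →
    ρ (q + 2) j (tm q (j + 1) x (pr (RatFunc F) (j + 1)
      (Fin.snoc (α := fun _ => V (RatFunc F))
        (fun i => lg (u i)) (lg (RatFunc.X - RatFunc.C a))))) =
          tm q j (val a x) (pr F j fun i => lg (c i))
  two0 : ∀ (q j : ℕ) (x : P1 (RatFunc F))
    (u : Fin (j + 1) → RatFunc F) (c : Fin (j + 1) → F), (∀ i, UnitAt a (u i) (c i)) →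
    ρ (q + 2) j (tm q (j + 1) x (pr (RatFunc F) (j + 1) fun i => lg (u i))) = 0

end

end Pool.Agent.Helper19.HV
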