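import Pool.Agent.Helper19.HV.XS
import Pool.Agent.Helper91.PL.A7
import Pool.Agent.Helper91.PL.X1

/-!
# Project HV: basic facts on the terms of the complexes
-/

set_option autoImplicit false

open scoped TensorProduct

namespace Pool.Agent.Helper19.HV

noncomputable section

open PL

section

variable {G : Type} [Field G]

/-- `tm` as a linear map. -/
def tmL (q j : ℕ) (x : P1 G) : W G j →ₗ[ℚ] Γ G (q + 2) j :=
  TensorProduct.mk ℚ (B (q + 2) G) (W G j) (sym (q + 2) x)

theorem tmL_apply (q j : ℕ) (x : P1 G) (l : W G j) : tmL q j x l = tm q j x l := rfl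

theorem sym_eq_zero {k : ℕ} {x : P1 G} (h : (Finsupp.single x 1 : ZP G) ∈ R k G) :
    sym k x = 0 := (Submodule.Quotient.mk_eq_zero _).2 h

theorem sym_zero (q : ℕ) : sym (q + 2) (some (0 : G)) = 0 := by
  apply sym_eq_zero
  rcases q with _ | q <;> exact a7_zero_mem _

theorem sym_none (q : ℕ) : sym (q + 2) (none : P1 G) = 0 := by
  apply sym_eq_zero
  rcases q with _ | q <;> exact a7_none_mem _

theorem tm_of_sym {q : ℕ} {x : P1 G} (h : sym (q + 2) x = 0) (j : ℕ) (l : W G j) :
    tm q j x l = 0 := by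
  change (sym (q + 2) x ⊗ₜ[ℚ] l : B (q + 2) G ⊗[ℚ] W G j) = 0
  rw [h, TensorProduct.zero_tmul]

theorem tm_zero (q j : ℕ) (l : W G j) : tm q j (some (0 : G)) l = 0 := tm_of_sym (sym_zero q) j l

theorem tm_none (q j : ℕ) (l : W G j) : tm q j (none : P1 G) l = 0 := tm_of_sym (sym_none q) j l

/-- Two linear maps on `Γ G (q + 2) j` which agree on all `tm q j x l` are equal. -/
theorem gext (q j : ℕ) {N : Type} [AddCommGroup N] [Module ℚ N] (f g : Γ G (q + 2) j →ₗ[ℚ] N)
    (h : ∀ x l, f (tm q j x l) = g (tm q j x l)) : f = g := by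
  have h0 : (show B (q + 2) G ⊗[ℚ] W G j →ₗ[ℚ] N from f) =
      (show B (q + 2) G ⊗[ℚ] W G j →ₗ[ℚ] N from g) := by
    apply TensorProduct.ext
    apply Submodule.linearMap_qext
    apply Finsupp.lhom_ext'
    intro x
    apply LinearMap.ext_ring
    apply LinearMap.ext
    intro l
    exact h x l
  exact h0

/-- Two linear maps on `W G j` which agree on all `pr G j v` are equal. -/
theorem wext (j : ℕ) {N : Type} [AddCommGroup N] [Module ℚ N] (f g : W G j →ₗ[ℚ] N)
    (h : ∀ v, f (pr G j v) = g (pr G j v)) : f = g := by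
  have h0 : (show ⋀[ℚ]^j (V G) →ₗ[ℚ] N from f) = (show ⋀[ℚ]^j (V G) →ₗ[ℚ] N from g) := by
    apply exteriorPower.linearMap_ext
    ext v
    exact h v
  exact h0

theorem wdg_pr (j : ℕ) (v : V G) (w : Fin j → V G) :
    wdg G j v (pr G j w) = pr G (j + 1) (Fin.cons v w) := x1_wedge_apply j v w

theorem wdg_zero (j : ℕ) (l : W G j) : wdg G j 0 l = 0 := by
  have h : wdg G j 0 = 0 := by
    apply wext
    intro v
    rw [wdg_pr, LinearMap.zero_apply]
    exact (pr G (j + 1)).map_coord_zero 0 rfl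
  rw [h, LinearMap.zero_apply]

theorem wdg_add (j : ℕ) (v w : V G) : wdg G j (v + w) = wdg G j v + wdg G j w := by
  apply wext
  intro u
  rw [LinearMap.add_apply, wdg_pr, wdg_pr, wdg_pr]
  have h := (pr G (j + 1)).map_update_add (Fin.cons v u : Fin (j + 1) → V G) 0 v w
  simpa using h

theorem wdg_smul (j : ℕ) (c : ℚ) (v : V G) : wdg G j (c • v) = c • wdg G j v := by
  apply wext
  intro u
  rw [LinearMap.smul_apply, wdg_pr, wdg_pr]
  have h := (pr G (j + 1)).map_update_smul (Fin.cons v u : Fin (j + 1) → V G) 0 c v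
  simpa using h

theorem wdg_wdg (j : ℕ) (v : V G) (l : W G j) : wdg G (j + 1) v (wdg G j v l) = 0 := by
  have h : wdg G (j + 1) v ∘ₗ wdg G j v = 0 := by
    apply wext
    intro u
    rw [LinearMap.comp_apply, wdg_pr, wdg_pr, LinearMap.zero_apply]
    exact (pr G (j + 2)).map_eq_zero_of_eq _ (i := 0) (j := 1) rfl (by simp)
  exact LinearMap.congr_fun h l

theorem wdg_comm (j : ℕ) (v w : V G) (l : W G j) :
    wdg G (j + 1) v (wdg G j w l) = - wdg G (j + 1) w (wdg G j v l) := by
  have h := wdg_wdg j (v + w) l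
  rw [wdg_add, wdg_add, LinearMap.add_apply, LinearMap.add_apply, map_add, map_add, wdg_wdg,
    wdg_wdg, zero_add, add_zero] at h
  exact eq_neg_of_add_eq_zero_left h

end

end

end Pool.Agent.Helper19.HV
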