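import Pool.Agent.Helper19.HV.StC

/-!
# Project HV, module DDZ
-/

set_option autoImplicit false

namespace Pool.Agent.Helper19.HV

noncomputable section

open PL

theorem mDDZ : sDDZ := by
  intro G _ d hd k j w
  match k with
  | 0 => exact Subsingleton.elim (α := PUnit) _ _
  | 1 =>
    have h : (d 1 (j + 1) ∘ₗ d 2 j : Γ G (1 + 2) j →ₗ[ℚ] Γ G 1 (j + 2)) = 0 := by
      refine gext (G := G) 1 j (N := Γ G 1 (j + 2)) _ _ fun x l => ?_
      rw [LinearMap.comp_apply]
      have h1 : d 2 j (tm 1 j x l) = tm 0 (j + 1) x (wdg G j (cl x) l) := hd.three 0 j x l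
      rw [h1, hd.two, wdg_wdg, map_zero]
      rfl
    exact LinearMap.congr_fun h w
  | (q + 2) =>
    have h : (d (q + 2) (j + 1) ∘ₗ d (q + 3) j : Γ G (q + 2 + 2) j →ₗ[ℚ] Γ G (q + 2) (j + 2)) = 0 := by
      refine gext (G := G) (q + 2) j (N := Γ G (q + 2) (j + 2)) _ _ fun x l => ?_
      rw [LinearMap.comp_apply]
      have h1 : d (q + 3) j (tm (q + 2) j x l) = tm (q + 1) (j + 1) x (wdg G j (cl x) l) :=
        hd.three (q + 1) j x l
      rw [h1, hd.three, wdg_wdg, ← tmL_apply, map_zero]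
      rfl
    exact LinearMap.congr_fun h w

end

end Pool.Agent.Helper19.HV
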