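import Pool.Agent.Helper19.HV.StC

/-!
# Project HV, module IIM
-/

set_option autoImplicit false

namespace Pool.Agent.Helper19.HV

noncomputable section

open PL

open Classical in
theorem mIIM : sIIM := by
  intro F _ c m k j w
  change w ∈ LinearMap.range (c k (j + 1)) ⊔ ⨆ a, LinearMap.range (m a k j) ↔ _
  constructor
  · intro h
    obtain ⟨w1, ⟨z, rfl⟩, w2, h2, rfl⟩ := Submodule.mem_sup.1 h
    obtain ⟨f, hf, hs⟩ := (Submodule.mem_iSup_iff_exists_finsupp _ _).1 h2
    choose g hg using hf
    refine ⟨z, Finsupp.onFinset f.support (fun a => if f a = 0 then 0 else g a) ?_, ?_⟩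
    · intro a ha
      rw [Finsupp.mem_support_iff]
      intro h0
      exact ha (if_pos h0)
    · congr 1
      rw [← hs, Finsupp.onFinset_sum _ (fun a => map_zero _)]
      refine Finset.sum_congr rfl fun a ha => ?_
      rw [if_neg (Finsupp.mem_support_iff.1 ha), hg]
  · rintro ⟨z, y, rfl⟩
    refine Submodule.add_mem_sup ⟨z, rfl⟩ ?_
    refine Submodule.sum_mem _ fun a _ => ?_
    exact Submodule.mem_iSup_of_mem a ⟨y a, rfl⟩

end

end Pool.Agent.Helper19.HV
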