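import Pool.Agent.Helper19.HV.Curve
import Pool.Agent.Helper91.PL.A3
import Pool.Agent.Helper91.PL.A4
import Pool.Agent.Helper91.PL.A5
import Pool.Agent.Helper91.PL.A7

/-!
# Project HV, module SPC
-/

set_option autoImplicit false

open scoped TensorProduct

namespace Pool.Agent.Helper19.HV

noncomputable section

open PL

private theorem R_eq (k : ℕ) (F : Type) [Field F] :
    R (k + 2) F = Rgen F (AA (k + 2) (RatFunc F)) := by
  rcases k with _ | k <;> rfl

private theorem spec_single {F : Type} [Field F] (a : F) (x : P1 (RatFunc F)) (r : ℚ) :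
    spec a (Finsupp.single x r) = Finsupp.single (val a x) r := a7_spec_single a x r

private theorem AA_single (k : ℕ) {F : Type} [Field F] {x : P1 F} (h : cl x = 0) :
    (Finsupp.single x 1 : ZP F) ∈ AA (k + 2) F := by
  rcases k with _ | k
  · change (Finsupp.single x 1 : ZP F) ∈ LinearMap.ker (δ2 F)
    rw [LinearMap.mem_ker]
    unfold δ2
    rw [Finsupp.linearCombination_single, one_smul]
    exact (pr F 2).map_coord_zero 1 h
  · change (Finsupp.single x 1 : ZP F) ∈ LinearMap.ker (δ (R (k + 2) F))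
    rw [LinearMap.mem_ker]
    unfold δ
    rw [Finsupp.linearCombination_single, one_smul, h, TensorProduct.tmul_zero]
    rfl

section

variable (k : ℕ)
  (hA : ∀ {F : Type} [Field F] [Infinite F] (a : F) (α : ZP (RatFunc F)),
    α ∈ AA (k + 2) (RatFunc F) → spec a α ∈ AA (k + 2) F)

include hA in
private theorem three {F : Type} [Field F] [Infinite F] : R (k + 2) F ≤ AA (k + 2) F := by
  rw [R_eq]
  refine sup_le (Submodule.span_le.2 ?_) (Submodule.map_le_iff_le_comap.2 ?_)
  · rintro x (rfl | rfl)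
    · exact AA_single k lg_zero
    · exact AA_single k rfl
  · intro α hα
    rw [Submodule.mem_comap, LinearMap.sub_apply]
    exact Submodule.sub_mem _ (hA 0 α hα) (hA 1 α hα)

variable
  (hFUN : ∀ {F G : Type} [Field F] [Field G] (σ : F →+* G) (α : ZP F),
      (α ∈ AA (k + 2) F → mapP σ α ∈ AA (k + 2) G))
    (hAFF : ∀ {F : Type} [Field F] (a b : F), a ≠ b →
      ∃ τ : RatFunc F →+* RatFunc F, (∀ x : P1 (RatFunc F), val 0 (Option.map τ x) = val a x) ∧
        ∀ x : P1 (RatFunc F), val 1 (Option.map τ x) = val b x)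
    (hSWP : ∀ {F : Type} [Field F] [Infinite F],
      ∃ σ : RatFunc (RatFunc F) →+* RatFunc (RatFunc F), ∀ α : ZP (RatFunc (RatFunc F)),
        ∃ S : Finset F, ∀ b ∉ S,
          spec (0 : F) (spec (RatFunc.C b) (mapP σ α)) = spec b (spec (0 : RatFunc F) α) ∧
          spec (1 : F) (spec (RatFunc.C b) (mapP σ α)) = spec b (spec (1 : RatFunc F) α))

private theorem spec_map {F : Type} [Field F] (τ : RatFunc F →+* RatFunc F) (c a : F)
    (h : ∀ x : P1 (RatFunc F), val c (Option.map τ x) = val a x) (ρ : ZP (RatFunc F)) :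
    spec c (mapP τ ρ) = spec a ρ := by
  unfold spec mapP
  rw [Finsupp.lmapDomain_apply, Finsupp.lmapDomain_apply, Finsupp.lmapDomain_apply,
    ← Finsupp.mapDomain_comp]
  congr 1
  funext x
  exact h x

include hFUN hAFF in
private theorem diff {F : Type} [Field F] (a b : F) {ρ : ZP (RatFunc F)}
    (hρ : ρ ∈ AA (k + 2) (RatFunc F)) : spec a ρ - spec b ρ ∈ R (k + 2) F := by
  by_cases hab : a = b
  · rw [hab, sub_self]
    exact Submodule.zero_mem _
  · obtain ⟨τ, h0, h1⟩ := hAFF a b hab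
    have h2 := a7_sub_mem (hFUN τ ρ hρ)
    rw [spec_map τ 0 a h0, spec_map τ 1 b h1, ← R_eq] at h2
    exact h2

include hA hFUN hAFF hSWP in
private theorem two {F : Type} [Field F] [Infinite F] (a : F) {ρ : ZP (RatFunc F)}
    (hρ : ρ ∈ R (k + 2) (RatFunc F)) : spec a ρ ∈ R (k + 2) F := by
  have : Infinite (RatFunc F) := Infinite.of_injective _ (RatFunc.algebraMap_injective F)
  have hρA : ρ ∈ AA (k + 2) (RatFunc F) := three k hA hρ
  have key : ∃ b : F, spec b ρ ∈ R (k + 2) F := by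
    rw [R_eq] at hρ
    obtain ⟨r, hr, y, ⟨α, hα, rfl⟩, rfl⟩ := Submodule.mem_sup.1 hρ
    obtain ⟨σ, hσ⟩ := hSWP (F := F)
    obtain ⟨S, hS⟩ := hσ α
    obtain ⟨b, hb⟩ := Infinite.exists_notMem_finset S
    obtain ⟨h0, h1⟩ := hS b hb
    refine ⟨b, ?_⟩
    rw [map_add]
    refine Submodule.add_mem _ ?_ ?_
    · have h2 : Submodule.span ℚ {Finsupp.single (some 0) 1, Finsupp.single none 1} ≤
          (R (k + 2) F).comap (spec b) := by
        rw [R_eq]
        refine Submodule.span_le.2 ?_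
        rintro x (rfl | rfl)
        · rw [SetLike.mem_coe, Submodule.mem_comap, spec_single]
          have h3 := val_C b (0 : F)
          rw [map_zero] at h3
          rw [h3]
          exact a7_zero_mem _
        · rw [SetLike.mem_coe, Submodule.mem_comap, spec_single]
          exact a7_none_mem _
      exact h2 hr
    · rw [LinearMap.sub_apply, map_sub, ← h0, ← h1]
      have h2 := a7_sub_mem (hA (RatFunc.C b) _ (hFUN σ α hα))
      rw [← R_eq] at h2
      exact h2
  obtain ⟨b, hb⟩ := key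
  have h1 := Submodule.add_mem _ (diff k hFUN hAFF a b hρA) hb
  rwa [sub_add_cancel] at h1

end

private theorem baseA {F : Type} [Field F] (a : F) (α : ZP (RatFunc F))
    (hα : α ∈ AA 2 (RatFunc F)) : spec a α ∈ AA 2 F := by
  change spec a α ∈ LinearMap.ker (δ2 F)
  rw [ker_δ2]
  apply NN_spec
  rw [← ker_δ2]
  exact hα

private theorem stepA (k : ℕ) {F : Type} [Field F] (a : F)
    (hR : ∀ α ∈ R (k + 2) (RatFunc F), spec a α ∈ R (k + 2) F) (α : ZP (RatFunc F))
    (hα : α ∈ AA (k + 3) (RatFunc F)) : spec a α ∈ AA (k + 3) F := by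
  obtain ⟨L, hL⟩ := exists_lc a
  let s : (ZP (RatFunc F) ⧸ R (k + 2) (RatFunc F)) →ₗ[ℚ] (ZP F ⧸ R (k + 2) F) :=
    Submodule.mapQ _ _ (spec a) hR
  let Θ : (ZP (RatFunc F) ⧸ R (k + 2) (RatFunc F)) ⊗[ℚ] V (RatFunc F) →ₗ[ℚ]
      (ZP F ⧸ R (k + 2) F) ⊗[ℚ] V F := TensorProduct.map s L
  have hz : ∀ x : P1 F, cl x = 0 ∨ x = some 0 ∨ x = none ∨ ∃ c, x = some c ∧ c ≠ 0 := by
    intro x
    rcases x with _ | c
    · exact Or.inr (Or.inr (Or.inl rfl))
    · by_cases hc : c = 0
      · exact Or.inr (Or.inl (by rw [hc]))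
      · exact Or.inr (Or.inr (Or.inr ⟨c, rfl, hc⟩))
  have key : Θ ∘ₗ (show ZP (RatFunc F) →ₗ[ℚ] (ZP (RatFunc F) ⧸ R (k + 2) (RatFunc F)) ⊗[ℚ]
      V (RatFunc F) from δ (R (k + 2) (RatFunc F))) =
      (show ZP F →ₗ[ℚ] (ZP F ⧸ R (k + 2) F) ⊗[ℚ] V F from δ (R (k + 2) F)) ∘ₗ spec a := by
    apply Finsupp.lhom_ext'
    intro x
    apply LinearMap.ext_ring
    rw [LinearMap.comp_apply, LinearMap.comp_apply, LinearMap.comp_apply, LinearMap.comp_apply,
      Finsupp.lsingle_apply, spec_single]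
    have h1 : (show ZP (RatFunc F) →ₗ[ℚ] (ZP (RatFunc F) ⧸ R (k + 2) (RatFunc F)) ⊗[ℚ]
        V (RatFunc F) from δ (R (k + 2) (RatFunc F))) (Finsupp.single x 1) =
        (R (k + 2) (RatFunc F)).mkQ (Finsupp.single x 1) ⊗ₜ[ℚ] cl x := by
      change δ (R (k + 2) (RatFunc F)) (Finsupp.single x 1) = _
      unfold δ
      rw [Finsupp.linearCombination_single, one_smul]
    have h2 : (show ZP F →ₗ[ℚ] (ZP F ⧸ R (k + 2) F) ⊗[ℚ] V F from δ (R (k + 2) F))
        (Finsupp.single (val a x) 1) =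
        (R (k + 2) F).mkQ (Finsupp.single (val a x) 1) ⊗ₜ[ℚ] cl (val a x) := by
      change δ (R (k + 2) F) (Finsupp.single (val a x) 1) = _
      unfold δ
      rw [Finsupp.linearCombination_single, one_smul]
    have h3 : s ((R (k + 2) (RatFunc F)).mkQ (Finsupp.single x 1)) =
        (R (k + 2) F).mkQ (Finsupp.single (val a x) 1) := by
      change Submodule.mapQ _ _ (spec a) hR _ = _
      rw [Submodule.mkQ_apply, Submodule.mapQ_apply, spec_single]
      rfl
    rw [h1, h2]
    change TensorProduct.map s L _ = _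
    rw [TensorProduct.map_tmul, h3]
    have h0 : ∀ z : P1 F, z = some 0 ∨ z = none →
        (R (k + 2) F).mkQ (Finsupp.single z 1) = 0 := by
      intro z hz
      rw [Submodule.mkQ_apply, Submodule.Quotient.mk_eq_zero, R_eq]
      rcases hz with rfl | rfl
      · exact a7_zero_mem _
      · exact a7_none_mem _
    rcases hv : val a x with _ | c
    · rw [h0 _ (Or.inr rfl), TensorProduct.zero_tmul, TensorProduct.zero_tmul]
    · by_cases hc : c = 0
      · rw [h0 _ (Or.inl (by rw [hc])), TensorProduct.zero_tmul, TensorProduct.zero_tmul]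
      · rcases x with _ | f
        · cases hv
        · have h5 : L (cl (some f)) = cl (some c) := hL f c hv hc
          rw [h5]
  have h := LinearMap.congr_fun key α
  rw [LinearMap.comp_apply, LinearMap.comp_apply] at h
  have hα' : (show ZP (RatFunc F) →ₗ[ℚ] (ZP (RatFunc F) ⧸ R (k + 2) (RatFunc F)) ⊗[ℚ]
      V (RatFunc F) from δ (R (k + 2) (RatFunc F))) α = 0 := hα
  rw [hα', map_zero] at h
  exact h.symm

theorem mSPC
    (hFUN : ∀ (k : ℕ) {F G : Type} [Field F] [Field G] (σ : F →+* G) (α : ZP F),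
      (α ∈ AA (k + 2) F → mapP σ α ∈ AA (k + 2) G) ∧
        (α ∈ R (k + 2) F → mapP σ α ∈ R (k + 2) G))
    (hAFF : ∀ {F : Type} [Field F] (a b : F), a ≠ b →
      ∃ τ : RatFunc F →+* RatFunc F, (∀ x : P1 (RatFunc F), val 0 (Option.map τ x) = val a x) ∧
        ∀ x : P1 (RatFunc F), val 1 (Option.map τ x) = val b x)
    (hSWP : ∀ {F : Type} [Field F] [Infinite F],
      ∃ σ : RatFunc (RatFunc F) →+* RatFunc (RatFunc F), ∀ α : ZP (RatFunc (RatFunc F)),
        ∃ S : Finset F, ∀ b ∉ S,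
          spec (0 : F) (spec (RatFunc.C b) (mapP σ α)) = spec b (spec (0 : RatFunc F) α) ∧
          spec (1 : F) (spec (RatFunc.C b) (mapP σ α)) = spec b (spec (1 : RatFunc F) α))
    (k : ℕ) : ∀ {F : Type} [Field F] [Infinite F],
      (∀ (a : F) (α : ZP (RatFunc F)), (α ∈ AA (k + 2) (RatFunc F) → spec a α ∈ AA (k + 2) F) ∧
        (α ∈ R (k + 2) (RatFunc F) → spec a α ∈ R (k + 2) F)) ∧
      R (k + 2) F ≤ AA (k + 2) F := by
  induction k with
  | zero =>
    intro F _ _
    have hA : ∀ {F : Type} [Field F] [Infinite F] (a : F) (α : ZP (RatFunc F)),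
        α ∈ AA (0 + 2) (RatFunc F) → spec a α ∈ AA (0 + 2) F := fun a α h => baseA a α h
    exact ⟨fun a α => ⟨hA a α, fun h => two 0 hA (fun σ α => (hFUN 0 σ α).1) hAFF hSWP a h⟩,
      three 0 hA⟩
  | succ k ih =>
    intro F _ _
    have hA : ∀ {F : Type} [Field F] [Infinite F] (a : F) (α : ZP (RatFunc F)),
        α ∈ AA (k + 1 + 2) (RatFunc F) → spec a α ∈ AA (k + 1 + 2) F :=
      fun a α h => stepA k a (fun α h => ((ih.1) a α).2 h) α h
    exact ⟨fun a α => ⟨hA a α,
      fun h => two (k + 1) hA (fun σ α => (hFUN (k + 1) σ α).1) hAFF hSWP a h⟩,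
      three (k + 1) hA⟩

end

end Pool.Agent.Helper19.HV
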