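import Pool.Agent.Helper19.HV.XS
import Pool.Agent.Helper91.PL.A6
import Pool.Agent.Helper91.PL.A2

/-!
# Project HV, module VIN
-/

set_option autoImplicit false

open Polynomial

namespace Pool.Agent.Helper19.HV

noncomputable section

open PL

variable {F : Type} [Field F]

private theorem hX : (RatFunc.X : RatFunc F) ≠ 0 := by
  have h := X_sub_ne (0 : F)
  rwa [map_zero, sub_zero] at h

private def φ0 (F : Type) [Field F] : F[X] →+* RatFunc F :=
  Polynomial.eval₂RingHom (RatFunc.C : F →+* RatFunc F) (RatFunc.X)⁻¹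

private theorem φ0_inj {P : F[X]} (hP : φ0 F P = 0) : P = 0 := by
  by_contra h0
  have h1 : (Polynomial.eval₂ (RatFunc.C : F →+* RatFunc F) (RatFunc.X)⁻¹ P) *
      (RatFunc.X : RatFunc F) ^ P.natDegree = algebraMap F[X] (RatFunc F) P.reverse := by
    have hi : Invertible (RatFunc.X : RatFunc F)⁻¹ := invertibleOfNonzero (inv_ne_zero hX)
    have h2 := Polynomial.eval₂_reverse_mul_pow (RatFunc.C : F →+* RatFunc F)
      ((RatFunc.X : RatFunc F)⁻¹) P
    rw [← h2]
    have h3 : (⅟ ((RatFunc.X : RatFunc F)⁻¹)) = RatFunc.X := by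
      rw [invOf_eq_inv, inv_inv]
    rw [h3, mul_assoc, ← mul_pow, inv_mul_cancel₀ hX, one_pow, mul_one]
    have h4 := Polynomial.hom_eval₂ P.reverse Polynomial.C (algebraMap F[X] (RatFunc F))
      Polynomial.X
    rw [Polynomial.eval₂_C_X, RatFunc.algebraMap_X] at h4
    rw [h4]
    have h5 : (algebraMap F[X] (RatFunc F)).comp Polynomial.C = RatFunc.C :=
      RingHom.ext fun c => RatFunc.algebraMap_C c
    rw [h5]
  have h2 : φ0 F P = Polynomial.eval₂ (RatFunc.C : F →+* RatFunc F) (RatFunc.X)⁻¹ P := rfl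
  rw [← h2, hP, zero_mul] at h1
  have h3 := (map_eq_zero_iff _ (RatFunc.algebraMap_injective F)).1 h1.symm
  exact h0 (Polynomial.reverse_eq_zero.1 h3)

theorem mVIN
    (hF : ∀ (k : ℕ) (σ : RatFunc F →+* RatFunc F) (α : ZP (RatFunc F)),
      α ∈ R (k + 2) (RatFunc F) → mapP σ α ∈ R (k + 2) (RatFunc F))
    (hS : ∀ (k : ℕ) (α : ZP (RatFunc F)), α ∈ R (k + 2) (RatFunc F) →
      spec (0 : F) α ∈ R (k + 2) F) :
    ∃ vi : P1 (RatFunc F) → P1 F, Vinf vi := by
  have hφ : nonZeroDivisors F[X] ≤ (nonZeroDivisors (RatFunc F)).comap (φ0 F) := by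
    intro P hP
    rw [Submonoid.mem_comap, mem_nonZeroDivisors_iff_ne_zero]
    intro h
    exact (mem_nonZeroDivisors_iff_ne_zero.1 hP) (φ0_inj h)
  let τ : RatFunc F →+* RatFunc F := RatFunc.liftRingHom (φ0 F) hφ
  have hτC : ∀ c, τ (RatFunc.C c) = RatFunc.C c := by
    intro c
    rw [← RatFunc.algebraMap_C]
    have h := RatFunc.liftRingHom_apply_div (φ0 F) hφ (Polynomial.C c) 1
    rw [map_one, div_one, map_one, div_one] at h
    rw [RatFunc.algebraMap_C] at h ⊢
    rw [h]
    simp [φ0]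
  have hτX : τ RatFunc.X = (RatFunc.X)⁻¹ := by
    rw [← RatFunc.algebraMap_X]
    have h := RatFunc.liftRingHom_apply_div (φ0 F) hφ (Polynomial.X) 1
    rw [map_one, div_one, map_one, div_one] at h
    rw [RatFunc.algebraMap_X] at h ⊢
    rw [h]
    simp [φ0]
  have hlin : ∀ a : F, val 0 (some (1 - RatFunc.C a * RatFunc.X)) = some 1 := by
    intro a
    have h1 := val_C (0 : F) (1 : F)
    have h2 := val_mul (val_C (0 : F) (-a)) (val_X (0 : F))
    have h3 := val_add h1 h2
    rw [map_one, map_neg, neg_mul, ← sub_eq_add_neg] at h3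
    rw [h3]
    simp
  have hne : ∀ a : F, (1 - RatFunc.C a * RatFunc.X : RatFunc F) ≠ 0 := by
    intro a h
    have h1 := hlin a
    rw [h] at h1
    have h2 := val_C (0 : F) (0 : F)
    rw [map_zero] at h2
    rw [h2] at h1
    exact zero_ne_one (Option.some.inj h1)
  refine ⟨fun x => val 0 (Option.map τ x), ?_, ?_, ?_, ?_⟩
  · intro c
    rcases c with _ | c
    · rfl
    · change val 0 (some (τ (RatFunc.C c))) = some c
      rw [hτC, val_C]
  · intro a c hc
    change val 0 (some (τ (RatFunc.C c * (RatFunc.X - RatFunc.C a)))) = none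
    rw [map_mul, map_sub, hτC, hτX, hτC]
    have h0 : (RatFunc.C c * ((RatFunc.X)⁻¹ - RatFunc.C a) : RatFunc F) =
        RatFunc.C c * (1 - RatFunc.C a * RatFunc.X) * (RatFunc.X)⁻¹ := by
      have := hX (F := F)
      field_simp
    rw [h0]
    apply val_eq_none
    · exact mul_ne_zero (mul_ne_zero (C_ne hc) (hne a)) (inv_ne_zero hX)
    · rw [mul_inv, inv_inv, mul_inv]
      have h1 := val_inv (val_C (0 : F) c) hc
      have h2 := val_inv (hlin a) one_ne_zero
      have h3 := val_mul (val_mul h1 h2) (val_X (0 : F))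
      rw [h3, mul_zero]
  · intro a b c
    change val 0 (some (τ (RatFunc.C c * ((RatFunc.X - RatFunc.C a) /
      (RatFunc.X - RatFunc.C b))))) = some c
    rw [map_mul, map_div₀, map_sub, map_sub, hτC, hτX, hτC, hτC]
    have h0 : (RatFunc.C c * (((RatFunc.X)⁻¹ - RatFunc.C a) / ((RatFunc.X)⁻¹ - RatFunc.C b)) :
        RatFunc F) = RatFunc.C c * ((1 - RatFunc.C a * RatFunc.X) *
          (1 - RatFunc.C b * RatFunc.X)⁻¹) := by
      have h1 := hX (F := F)
      have h2 : ((RatFunc.X)⁻¹ - RatFunc.C a : RatFunc F) =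
          (1 - RatFunc.C a * RatFunc.X) * (RatFunc.X)⁻¹ := by field_simp
      have h3 : ((RatFunc.X)⁻¹ - RatFunc.C b : RatFunc F) =
          (1 - RatFunc.C b * RatFunc.X) * (RatFunc.X)⁻¹ := by field_simp
      rw [h2, h3, mul_div_mul_right _ _ (inv_ne_zero h1), div_eq_mul_inv]
    rw [h0]
    have h2 := val_inv (hlin b) one_ne_zero
    have h3 := val_mul (val_C (0 : F) c) (val_mul (hlin a) h2)
    rw [h3]
    simp
  · intro k α hα
    have h1 := hS k _ (hF k τ α hα)
    have h2 : spec (0 : F) (mapP τ α) = Finsupp.mapDomain (fun x => val 0 (Option.map τ x)) α := by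
      unfold spec mapP
      rw [Finsupp.lmapDomain_apply, Finsupp.lmapDomain_apply, ← Finsupp.mapDomain_comp]
      rfl
    rw [← h2]
    exact h1

end

end Pool.Agent.Helper19.HV
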