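import Pool.Agent.Helper19.HV.StC
import Pool.Agent.Helper11.HV.M_FUN
import Pool.Agent.Helper44.HV.M_AFF
import Pool.Agent.Helper64.HV.M_SWP
import Pool.Agent.Helper19.HV.M_SPC
import Pool.Agent.Helper19.HV.M_VIN
import Pool.Agent.Helper16.HV.M_SPL
import Pool.Agent.Helper18.HV.M_BET
import Pool.Agent.Helper39.HV.M_F2
import Pool.Agent.Helper28.HV.M_F2K
import Pool.Agent.Helper38.HV.M_FS
import Pool.Agent.Helper89.HV.M_FTR
import Pool.Agent.Helper98.HV.M_VL5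
import Pool.Agent.Helper78.HV.M_DSR
import Pool.Agent.Helper8.HV.M_EXF
import Pool.Agent.Helper40.HV.M_EX2
import Pool.Agent.Helper29.HV.M_ROG
import Pool.Agent.Helper82.HV.M_SCL
import Pool.Agent.Helper32.HV.M_TEN
import Pool.Agent.Helper42.HV.M_RES
import Pool.Agent.Helper69.HV.M_RIG
import Pool.Agent.Helper52.HV.M_EXS
import Pool.Agent.Helper33.HV.M_EX3
import Pool.Agent.Helper79.HV.M_CA1
import Pool.Agent.Helper84.HV.M_CA2
import Pool.Agent.Helper37.HV.M_CA3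
import Pool.Agent.Helper94.HV.M_CA4
import Pool.Agent.Helper6.HV.M_CA5
import Pool.Agent.Helper72.HV.M_CRD
import Pool.Agent.Helper98.HV.M_Z1
import Pool.Agent.Helper76.HV.M_Z2
import Pool.Agent.Helper6.HV.M_SPN
import Pool.Agent.Helper39.HV.M_SYM
import Pool.Agent.Helper39.HV.M_CON
import Pool.Agent.Helper29.HV.M_PSL
import Pool.Agent.Helper39.HV.M_LAF
import Pool.Agent.Helper40.HV.M_Y2A
import Pool.Agent.Helper33.HV.M_MPS
import Pool.Agent.Helper11.HV.M_PHI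
import Pool.Agent.Helper39.HV.M_L1C
import Pool.Agent.Helper72.HV.M_VAN
import Pool.Agent.Helper58.HV.M_Y2
import Pool.Agent.Helper24.HV.M_Y3A
import Pool.Agent.Helper10.HV.M_Y3B
import Pool.Agent.Helper58.HV.M_Y3C
import Pool.Agent.Helper11.HV.M_Y3D
import Pool.Agent.Helper32.HV.M_Y3
import Pool.Agent.Helper11.HV.M_Y4
import Pool.Agent.Helper73.HV.M_GNR
import Pool.Agent.Helper80.HV.M_GNA
import Pool.Agent.Helper16.HV.M_DEX
import Pool.Agent.Helper29.HV.M_CEX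
import Pool.Agent.Helper89.HV.M_WED
import Pool.Agent.Helper30.HV.M_MWC
import Pool.Agent.Helper40.HV.M_KAP
import Pool.Agent.Helper7.HV.M_RHO
import Pool.Agent.Helper79.HV.M_REX
import Pool.Agent.Helper78.HV.M_RRD
import Pool.Agent.Helper41.HV.M_RCM
import Pool.Agent.Helper37.HV.M_DCM
import Pool.Agent.Helper19.HV.M_DDZ
import Pool.Agent.Helper38.HV.M_PRS
import Pool.Agent.Helper9.HV.M_BLD
import Pool.Agent.Helper36.HV.M_KLF
import Pool.Agent.Helper7.HV.M_ALT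
import Pool.Agent.Helper25.HV.M_E4
import Pool.Agent.Helper47.HV.M_E3
import Pool.Agent.Helper67.HV.M_E2
import Pool.Agent.Helper83.HV.M_E1
import Pool.Agent.Helper83.HV.M_REL
import Pool.Agent.Helper19.HV.M_IIM
import Pool.Agent.Helper78.HV.M_QSU
import Pool.Agent.Helper32.HV.M_QIN
import Pool.Agent.Helper95.HV.M_QCM

/-!
# Project HV: assembly
-/

set_option autoImplicit false

namespace Pool.Agent.Helper19.HV

noncomputable section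

open PL

theorem inf_rat (G : Type) [Field G] : Infinite (RatFunc G) :=
  Infinite.of_injective _ (RatFunc.algebraMap_injective G)

theorem aR (k : ℕ) {G G' : Type} [Field G] [Field G'] (σ : G →+* G') :
    ∀ α ∈ R (k + 2) G, mapP σ α ∈ R (k + 2) G' := fun α h => (mFUN k σ α).2 h

theorem aSPC (k : ℕ) {G : Type} [Field G] [Infinite G] :
    (∀ (a : G) (α : ZP (RatFunc G)), (α ∈ AA (k + 2) (RatFunc G) → spec a α ∈ AA (k + 2) G) ∧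
        (α ∈ R (k + 2) (RatFunc G) → spec a α ∈ R (k + 2) G)) ∧
      R (k + 2) G ≤ AA (k + 2) G :=
  mSPC (fun k {_ _} _ _ σ α => mFUN k σ α) (fun {_} _ a b h => mAFF a b h) (fun {_} _ _ => mSWP) k

theorem aRA (k : ℕ) (G : Type) [Field G] [Infinite G] : R (k + 2) G ≤ AA (k + 2) G :=
  (aSPC k).2

theorem aS (k : ℕ) {G : Type} [Field G] [Infinite G] (a : G) :
    ∀ α ∈ R (k + 2) (RatFunc G), spec a α ∈ R (k + 2) G := fun α h => ((aSPC k).1 a α).2 h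

section

variable {F : Type} [Field F] [IsAlgClosed F] {cV : V F →ₗ[ℚ] V (RatFunc F)}
  {lc : V (RatFunc F) →ₗ[ℚ] V F} {od : V (RatFunc F) →ₗ[ℚ] (F →₀ ℚ)}

theorem aEXF (hs : Spl cV lc od) {N : Type} [AddCommGroup N] [Module ℚ N]
    (ψ : RatFunc F → N) (h : FT5 ψ) (hc : ∀ c : F, ψ (RatFunc.C c) = 0) :
    ∃ A : V (RatFunc F) →ₗ[ℚ] V (RatFunc F) →ₗ[ℚ] N, Al2 A ∧
      (∀ (c : F) v, A (lg (RatFunc.C c)) v = 0) ∧ ∀ x, ψ x = A (lg (1 - x)) (lg x) :=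
  mEXF (fun {_ _} _ _ _ A hA => mBET A hA) (fun {_ _} _ _ _ _ Δ h1 h2 h3 => mDSR Δ h1 h2 h3) hs ψ h hc

theorem aEX2 (hs : Spl cV lc od) {N : Type} [AddCommGroup N] [Module ℚ N]
    (ψ : P1 (RatFunc F) → N) (h : Kil 2 ψ) (hc : ∀ c, ψ (cst c) = 0) :
    ∃ A : V (RatFunc F) →ₗ[ℚ] V (RatFunc F) →ₗ[ℚ] N, Al2 A ∧
      (∀ (c : F) v, A (lg (RatFunc.C c)) v = 0) ∧ ∀ x, ψ x = A (cl1 x) (cl x) :=
  mEX2 (fun {_ _} _ _ _ ψ h => mFTR (fun {_ _} _ _ _ A hA => mBET A hA)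
    (fun {_} _ α h => mF2K α h) ψ h) (aEXF hs) ψ h hc

theorem aFTR {G N : Type} [Field G] [AddCommGroup N] [Module ℚ N] (ψ : P1 G → N)
    (h : Kil 2 ψ) : FT5 (fun x : G => ψ (some x)) ∧ ψ none = 0 :=
  mFTR (fun {_ _} _ _ _ A hA => mBET A hA) (fun {_} _ α h => mF2K α h) ψ h

theorem aROG (hs : Spl cV lc od) (D : F → ℚ) (h : FT5 D) : Kil 2 (ext0 D) :=
  mROG (fun D h a => mVL5 D h a) (aEXF hs) D h

theorem aRIG (hs : Spl cV lc od) (k : ℕ) (α : ZP (RatFunc F))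
    (h : ∀ l : V (RatFunc F) →ₗ[ℚ] ℚ,
      Finsupp.linearCombination ℚ
        (fun x => l (cl x) • (Finsupp.single x 1 : ZP (RatFunc F))) α ∈
          R (k + 2) (RatFunc F) ⊔ LinearMap.range (mapP (RatFunc.C : F →+* RatFunc F))) :
    α ∈ R (k + 3) (RatFunc F) ⊔ LinearMap.range (mapP (RatFunc.C : F →+* RatFunc F)) :=
  mRIG k hs (mSCL F) (fun {_} _ S α => mTEN S α) (fun {_ _} _ _ σ => aR k σ) α h
    (fun a => mRES k hs (aR k _) (fun a => aS k a) α h a)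

theorem aEXS (hs : Spl cV lc od) (k : ℕ) {N : Type} [AddCommGroup N] [Module ℚ N]
    (ψ : P1 (RatFunc F) → N) (h : Kil (k + 3) ψ) (hc : ∀ c, ψ (cst c) = 0) :
    ∃ B : P1 (RatFunc F) → (V (RatFunc F) →ₗ[ℚ] N), Kil (k + 2) B ∧
      (∀ c, B (cst c) = 0) ∧ ∀ x, ψ x = B x (cl x) :=
  mEXS k (fun {_} _ S α => mTEN S α) (aRIG hs k) ψ h hc

theorem aEX3 (hs : Spl cV lc od) {N : Type} [AddCommGroup N] [Module ℚ N]
    (ψ : P1 (RatFunc F) → N) (h : Kil 3 ψ) (hc : ∀ c, ψ (cst c) = 0) :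
    ∃ M : V (RatFunc F) →ₗ[ℚ] V (RatFunc F) →ₗ[ℚ] V (RatFunc F) →ₗ[ℚ] N,
      (∀ v w, M v v w = 0) ∧ (∀ (c : F) v w, M (lg (RatFunc.C c)) v w = 0) ∧
      (∀ (c : F) v w, M v w (lg (RatFunc.C c)) = 0) ∧ ∀ x, ψ x = M (cl1 x) (cl x) (cl x) :=
  mEX3 hs (fun {_ _} _ _ _ A hA => mF2 A hA) (aEX2 hs) (aEXS hs 0) ψ h hc

theorem aVIN : ∃ vi : P1 (RatFunc F) → P1 F, Vinf vi :=
  mVIN (fun k σ => aR k σ) (fun k α h => aS k 0 α h)

theorem aLAF (L4 : F4 F) (h1 : ∀ v k l, L4 v v k l = 0) (h2 : ∀ v w k, L4 v w k k = 0)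
    (h3 : ∀ (c d u : F) k, L4 (lg (RatFunc.C c)) (lg (RatFunc.C d)) (lg (RatFunc.C u)) k = 0) :
    Ls fun x => L4 (cl1 x) (cl x) := mLAF (fun {_ _} _ _ _ A hA => mF2 A hA) L4 h1 h2 h3

theorem aFS (B : P1 (RatFunc F) → (V (RatFunc F) →ₗ[ℚ] (V (RatFunc F) →ₗ[ℚ] ℚ)))
    (hB : Kil 2 B) : Kil 3 fun x => B x (cl x) := by
  have := inf_rat F
  exact mFS 0 (aRA 1 (RatFunc F)) B hB

/-- The hypotheses on the form give all relations of the functional equation part. -/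
theorem aCal {φ : F4 F} (hφ : Frm φ) (hS : ∀ x, Sv φ x) {y : RatFunc F}
    (hy : ∀ c : F, y ≠ RatFunc.C c) : Cal φ y :=
  mCA1 hφ mCRD (fun x _ => hS x) hy

theorem aCA2 {φ : F4 F} (hφ : Frm φ) (hS : ∀ x, Sv φ x) {y : RatFunc F}
    (hy : ∀ c : F, y ≠ RatFunc.C c) (a b c p : F) (hab : a ≠ b) (hac : a ≠ c) (hbc : b ≠ c)
    (hp : p ≠ c) :
    Wf φ y a b c p + Wf φ y a b c (c + (a - c) * (b - c) / (p - c)) = Wf φ y a b c c :=
  mCA2 hφ mCRD (fun x _ => hS x) hy (aCal hφ hS hy) hab hac hbc hp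

theorem aFT {φ : F4 F} (hφ : Frm φ) (hS : ∀ x, Sv φ x) {y : RatFunc F}
    (hy : ∀ c : F, y ≠ RatFunc.C c) : FT5 (Df φ y) := by
  have h3 : ∀ y : RatFunc F, (∀ c : F, y ≠ RatFunc.C c) → _ := fun y hy =>
    mCA3 hφ mCRD (fun x _ => hS x) hy (aCal hφ hS hy)
  exact mCA5 mCRD (Df φ) (fun y hy => (h3 y hy).1) (fun y hy => (h3 y hy).2.2.1)
    (fun y hy => (h3 y hy).2.2.2)
    (fun y hy x l h0 h1 h2 h3 h4 => mCA4 hφ hy (aCal hφ hS hy) (aCA2 hφ hS hy) h0 h1 h2 h3 h4) hy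

theorem X_nc : ∀ c : F, (RatFunc.X : RatFunc F) ≠ RatFunc.C c := fun c h =>
  X_sub_ne c (sub_eq_zero.2 h)

theorem aZ1 {φ : F4 F} (hφ : Frm φ) (hS : ∀ x, Sv φ x) (a b : F) (hab : a ≠ b) :
    FT5 fun c : F => φ (E (a + c * (b - a))) (E a) (E a) (E b) := by
  apply mZ1 hφ hab
  apply aFT hφ hS
  intro c h
  have h0 : (RatFunc.C (b - a) : RatFunc F) ≠ 0 := C_ne (sub_ne_zero.2 hab.symm)
  rw [div_eq_iff h0, ← map_mul, sub_eq_iff_eq_add, ← map_add] at h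
  exact X_nc _ h

theorem aZ2 (hs : Spl cV lc od) {φ : F4 F} (hφ : Frm φ) (hS : ∀ x, Sv φ x)
    (h0 : ∀ p a b, φ (E p) (E a) (E a) (E b) = 0) : φ = 0 :=
  mZ2 hs hφ (aCal hφ hS X_nc) (aCA2 hφ hS X_nc) h0

theorem aY2 (hs : Spl cV lc od) : sY2 F := by
  intro Ψ hΨ
  refine mY2 (fun {Ψ} h => mY2A hs (aEX3 hs) aLAF h) (fun {Ψ} h {L} hL => mPSL aFS h hL)
    (fun {Ψ} h hu => mMPS hs (aEX3 hs) h hu) mSYM (fun {Ψ M φ} hM h3 => mPHI hM h3)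
    (fun φ hφ hS => aCal hφ hS X_nc) (fun φ hφ hS => aZ1 hφ hS) ?_
    (fun {vi} hvi {Ψ0 Ψ1 L} hL hLc {φ0 φ1} hD hLE h01 f0 f1 hφ1 hcal p a b =>
      mVAN hvi hL hLc hD hLE h01 f0 f1 hφ1 hcal p a b)
    (fun φ hφ hS h0 => aZ2 hs hφ hS h0) mCON aLAF hΨ
  intro D hD hsym
  obtain ⟨vi, hvi⟩ := aVIN (F := F)
  obtain ⟨L, h1, h2, h3⟩ := mL1C hs hvi (aROG hs) D hD hsym
  exact ⟨L, h1, h2, vi, hvi, h3⟩

theorem aY3 (hs : Spl cV lc od) : sY3 F := by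
  intro L hL hcl
  obtain ⟨vi, hvi⟩ := aVIN (F := F)
  exact mY3 aLAF (fun {L} hL => mY3A hs (aEX2 hs) hL)
    (fun {L} hL hcl huu => mY3B hs (aEX2 hs) (mSPN hs) hL hcl huu)
    (fun {L} hL hcl hu => mY3C hs hvi (aR 0 _) (fun {_ _} _ _ _ ψ h => aFTR ψ h) (aEX2 hs) hL hcl hu)
    (fun {L} hL hcl hu hc => mY3D hs (aEX2 hs) (mSPN hs) hL hcl hu hc) hL hcl

theorem aY4 (hs : Spl cV lc od) : sY4 F := fun χ h4 h3 hx => mY4 hs χ h4 h3 hx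

theorem aX4 (hs : Spl cV lc od) : sX4 F := fun ψ h hc => aEXS hs 1 ψ h hc

end

theorem main (F : Type) [Field F] [IsAlgClosed F] (X : Set (P1 F)) (hX : none ∉ X) :
    (∃! d, IsDif (RatFunc F) d) ∧ (∃! d', IsDif F d') ∧ (∃ c, IsCst (F := F) c) ∧
      (∃ m, IsMul (F := F) m) ∧ (∃ r : Res F X, IsRes r) ∧
      ∀ d d' c m, ∀ r : Res F X, IsDif (RatFunc F) d → IsDif F d' → IsCst c → IsMul m → IsRes r →
        QIs d d' r c m := by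
  have := inf_rat F
  have hMWC : sMWC := mMWC mGNR mWED
  have hREX : sREX := mREX
  have hREL : sREL := mREL mDDZ (mDCM mGNR) mREX (mRRD mGNA) (mRCM mGNR)
    (mPRS (mRCM mGNR) hMWC)
  obtain ⟨cV, lc, od, hs⟩ := mSPL (F := F)
  have hc := mCEX F (fun q => aR q _)
  have hρ := mRHO mKAP F cV lc od hs (fun q a => aS q a)
  have hρ1 : ∀ a : F, ∃ ρ, IsR1 a ρ := by
    obtain ⟨ρ, h1, _⟩ := hρ
    exact fun a => ⟨ρ a, h1 a⟩
  obtain ⟨c0, hc0⟩ := hc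
  refine ⟨mDEX (RatFunc F) (fun k => aRA k _), mDEX F (fun k => aRA k _), ⟨c0, hc0⟩,
    (hMWC F c0 hc0).1, (hREX F X hX).1 hρ, ?_⟩
  intro d d' c m r hd hd' hc hm hr
  have hrel : Rel d d' r c m := hREL F X hX hρ1 d d' r c m hd hd' hr hc hm
  have hex : Ex4 d c m :=
    ⟨mE4 mGNR mBLD mKLF mALT F (aX4 hs) d c m hd hc hm,
      mE3 mGNR mBLD mKLF mALT F cV lc od hs (aY2 hs) d c m hd hc hm,
      mE2 mGNR mKLF mALT F cV lc od hs (aY3 hs) d c m hd hc hm,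
      mE1 mALT F cV lc od hs (aY4 hs) d c m hd hc hm⟩
  exact ⟨(mQCM F X hX d d' r c m hrel).1, (mQCM F X hX d d' r c m hrel).2,
    mQSU mIIM F X hX d d' r c m hrel hex, mQIN mIIM F X hX d d' r c m hrel hex⟩

end

end Pool.Agent.Helper19.HV
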