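import Pool.Agent.Helper19.HV.Curve

/-!
# Project HV: statements, part A (fields, specialisation, five-term relation)

Every theorem is one module.  Needed facts of other modules are hypotheses.
-/

set_option autoImplicit false

open Polynomial

namespace Pool.Agent.Helper19.HV

noncomputable section

open PL

/-! ## A. Fields and specialisation -/

/-- FUN.  Functoriality of `R` and `AA`.
PROOF.  Induction on `k`.  `AA 2 F = NN 0 F` (`PL.ker_δ2x` in `Pool.Agent.Helper91.PL.A5`, `ker_δ2`),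
and `PL.NN_map` (`PL.A4`) gives the case `AA 2`.  From `AA (k+2)` (for all fields) to `R (k+2)`:
`R (k+2) F = Rgen F (AA (k+2) (RatFunc F))` (rfl after `match`): the generators `{0}`, `{∞}` go to
`{0}`, `{∞}`; for `α ∈ AA (k+2) (RatFunc F)` take `τ` of `PL.exists_base σ` (`PL.A6`):
`mapP σ (spec 0 α) = spec 0 (mapP τ α)`, same for `1` (pointwise, `mapP`, `spec` are `lmapDomain`s; see
`PL.a7_map_Rgen` in `PL.A7` for exactly this computation).  From `R (k+2)` to `AA (k+3)`: with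
`L` of `PL.exists_map σ` (`PL.A1`) the linear map `(mapQ _ _ (mapP σ) _) ⊗ L` sends `δ (R (k+2) F) α` to
`δ (R (k+2) G) (mapP σ α)` (check on `Finsupp.single x 1`: `L (cl x) = cl (Option.map σ x)`). -/
theorem pFUN (k : ℕ) : ∀ {F G : Type} [Field F] [Field G] (σ : F →+* G) (α : ZP F),
    (α ∈ AA (k + 2) F → mapP σ α ∈ AA (k + 2) G) ∧
      (α ∈ R (k + 2) F → mapP σ α ∈ R (k + 2) G) := by
  sorry

/-- AFF.  Affine substitutions.  PROOF.  `t ↦ a + (b - a) t`: `φ = Polynomial.compRingHom (C a + C (b-a) * X)`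
(injective because `b ≠ a`: `natDegree` of a composition), `τ = RatFunc.mapRingHom φ _`, and use
`PL.a6_map` (`PL.A6`) with `ρ = RingHom.id` twice (`Option.map id = id`). -/
theorem pAFF {F : Type} [Field F] (a b : F) (hab : a ≠ b) :
    ∃ τ : RatFunc F →+* RatFunc F, (∀ x : P1 (RatFunc F), val 0 (Option.map τ x) = val a x) ∧
      ∀ x : P1 (RatFunc F), val 1 (Option.map τ x) = val b x := by
  sorry

/-- SWP.  Exchange of the two variables.  PROOF.  `σ` : `F(t)(s) → F(t)(s)` exchanges `t = C X` and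
`s = X`.  It suffices to show for one `f` and one constant `c` (here `c = 0, 1`): for all but finitely many
`b`: `val c (val (C b) (some (σ f))) = val b (val (C c) (some f))` (take the union of the exceptional sets over
the support of `α`).  Write `f = P / Q`, `P, Q ∈ F[t][s]` (clear denominators), `P, Q ≠ 0` (for `f = 0` both
sides are `some 0`); `P = (s-c)^i P₁`, `Q = (s-c)^j Q₁` with `P₁(t,c), Q₁(t,c) ≠ 0` in `F[t]`.  Then
`val (C c) f` is `0`, `P₁(t,c)/Q₁(t,c)` or `∞` for `i > j`, `i = j`, `i < j`.  For `b` with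
`P₁(b,c) ≠ 0 ≠ Q₁(b,c)`: `σ f = P(s,t)/Q(s,t)` and its value at `s = b` is `P(b,t)/Q(b,t) =
(t-c)^(i-j) P₁(b,t)/Q₁(b,t)`, whose value at `t = c` is the same as before.  (Tools: `PL.a6_val_some`,
`PL.a6_val_none`; a good way to build `σ`: `RatFunc.liftRingHom`/`IsFractionRing.lift` of
`Polynomial.eval₂RingHom`.) -/
theorem pSWP {F : Type} [Field F] [Infinite F] :
    ∃ σ : RatFunc (RatFunc F) →+* RatFunc (RatFunc F), ∀ α : ZP (RatFunc (RatFunc F)),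
      ∃ S : Finset F, ∀ b ∉ S,
        spec (0 : F) (spec (RatFunc.C b) (mapP σ α)) = spec b (spec (0 : RatFunc F) α) ∧
        spec (1 : F) (spec (RatFunc.C b) (mapP σ α)) = spec b (spec (1 : RatFunc F) α) := by
  sorry

/-- SPC.  Specialisation.  PROOF.  Induction on `k`, all infinite fields at once.
(1) `AA`: for `k = 0` it is `PL.NN_spec` (`PL.A4`) and `ker_δ2`.  For `k + 1`: `α ∈ ker δ (R (k+2) K)`,
`K = RatFunc F`.  Let `L` be the map of `PL.exists_lc a` (`PL.A3`) and `s : ZP K ⧸ R (k+2) K → ZP F ⧸ R (k+2) F` the map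
induced by `spec a` (induction hypothesis).  Then `(s ⊗ L) (δ α) = δ (spec a α)`: on `{x}`, if `val a x = some c`,
`c ≠ 0`, then `L (cl x) = cl (val a x)`; otherwise `val a x ∈ {0, ∞}` and both sides are `0`, because
`{0}, {∞} ∈ R`.
(3) `R ≤ AA`: `R (k+2) F = Rgen F (AA (k+2) K)`: `{0}, {∞} ∈ AA` (`cl = 0`), and (1) for `a = 0, 1`.
(2) `R`: let `ρ ∈ R (k+2) K`, `ρ = r + (spec 0 α - spec 1 α)`, `r` in the span of `{0}, {∞}`,
`α ∈ AA (k+2) (RatFunc K)`.  (i) `ρ ∈ AA (k+2) K` by (3) for `K` (`Infinite K`), so `spec a ρ - spec b ρ ∈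
R (k+2) F` for all `a ≠ b`: apply `pAFF a b`: `mapP τ ρ ∈ AA` (`hFUN`) and `spec 0 (mapP τ ρ) = spec a ρ` etc.
(ii) Take `σ` of `hSWP`: `mapP σ α ∈ AA (k+2) (RatFunc K)` (`hFUN`), by (1) for the field `K`:
`β = spec (C b) (mapP σ α) ∈ AA (k+2) K`, so `spec 0 β - spec 1 β ∈ R (k+2) F`; for `b ∉ S` this is
`spec b (spec 0 α - spec 1 α)`; so `spec b ρ ∈ R (k+2) F` (`spec b {0} = {0}`, `spec b {∞} = {∞}`).  Choose
`b ∉ S ∪ {a}` (`Infinite F`) and use (i). -/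
theorem pSPC
    (hFUN : ∀ (k : ℕ) {F G : Type} [Field F] [Field G] (σ : F →+* G) (α : ZP F),
      (α ∈ AA (k + 2) F → mapP σ α ∈ AA (k + 2) G) ∧
        (α ∈ R (k + 2) F → mapP σ α ∈ R (k + 2) G))
    (hAFF : ∀ {F : Type} [Field F] (a b : F), a ≠ b →
      ∃ τ : RatFunc F →+* RatFunc F, (∀ x : P1 (RatFunc F), val 0 (Option.map τ x) = val a x) ∧
        ∀ x : P1 (RatFunc F), val 1 (Option.map τ x) = val b x)
    (hSWP : ∀ {F : Type} [Field F] [Infinite F],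
      ∃ σ : RatFunc (RatFunc F) →+* RatFunc (RatFunc F), ∀ α : ZP (RatFunc (RatFunc F)),
        ∃ S : Finset F, ∀ b ∉ S,
          spec (0 : F) (spec (RatFunc.C b) (mapP σ α)) = spec b (spec (0 : RatFunc F) α) ∧
          spec (1 : F) (spec (RatFunc.C b) (mapP σ α)) = spec b (spec (1 : RatFunc F) α))
    (k : ℕ) : ∀ {F : Type} [Field F] [Infinite F],
      (∀ (a : F) (α : ZP (RatFunc F)), (α ∈ AA (k + 2) (RatFunc F) → spec a α ∈ AA (k + 2) F) ∧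
        (α ∈ R (k + 2) (RatFunc F) → spec a α ∈ R (k + 2) F)) ∧
      R (k + 2) F ≤ AA (k + 2) F := by
  sorry

/-- VIN.  The value at infinity.  PROOF.  `τ : F(t) → F(t)`, `t ↦ 1/t`
(`RatFunc.liftRingHom`/`IsFractionRing.lift` of `aeval (X⁻¹)`, injective because `X⁻¹` is transcendental, e.g.
`aeval X⁻¹ P * X^n = reverse`-type identity, or compose twice), `vi x = val 0 (Option.map τ x)`.
`kil`: `mapDomain vi α = spec 0 (mapP τ α)` and `hF`, `hS`.  Values: `τ (c (t - a)) = c (1 - a t) / t` has a pole at `0`;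
`τ (c (t-a)/(t-b)) = c (1 - a t)/(1 - b t)` has the value `c`. -/
theorem pVIN {F : Type} [Field F]
    (hF : ∀ (k : ℕ) (σ : RatFunc F →+* RatFunc F) (α : ZP (RatFunc F)),
      α ∈ R (k + 2) (RatFunc F) → mapP σ α ∈ R (k + 2) (RatFunc F))
    (hS : ∀ (k : ℕ) (α : ZP (RatFunc F)), α ∈ R (k + 2) (RatFunc F) →
      spec (0 : F) α ∈ R (k + 2) F) :
    ∃ vi : P1 (RatFunc F) → P1 F, Vinf vi := by
  sorry

/-- SPL.  The decomposition of `F(t)^* ⊗ ℚ`.  PROOF.  `cV` from `PL.exists_map RatFunc.C` (`PL.A1`); `lc` and `od` from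
`PL.exists_lift`: `lc (lg f) = lg (leadingCoeff num) - lg (leadingCoeff denom)`, `od (lg f) =
∑ (rootMultiplicity a num - rootMultiplicity a denom) [a]` (as `F →₀ ℚ`, e.g. via `Polynomial.roots`
and `Multiset.toFinsupp`, or as the difference `(num.roots.map single).sum - (denom.roots.map single).sum`;
additivity: `RatFunc.num_denom_mul`).  `dec`: both sides are linear; by `PL.span_lg` it suffices to take `v = lg f`, and
`f = c ∏ (t - a)^(m_a)` because polynomials over `F` split.  `val`: if `od (lg f) a ≠ 0` then `num` or `denom`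
vanishes at `a` (and not both, they are coprime). -/
theorem pSPL {F : Type} [Field F] [IsAlgClosed F] :
    ∃ (cV : V F →ₗ[ℚ] V (RatFunc F)) (lc : V (RatFunc F) →ₗ[ℚ] V F)
      (od : V (RatFunc F) →ₗ[ℚ] (F →₀ ℚ)), Spl cV lc od := by
  sorry

/-! ## B. Functions killing `R` -/

/-- BET.  Symbols satisfy the five-term relation.  PROOF.  `lg (x*y) = lg x + lg y`, `lg x⁻¹ = - lg x`, `lg (-x) = lg x`
(`PL.A1`).  Five: with `u = lg (1-x)`, `v = lg (1-y)`, `w = lg (y-x)`, `X = lg x`, `Y = lg y` (`lg (y-1) = v` etc.) the four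
terms are `A v Y`, `A (w-Y) (X-Y)`, `A (u-v) (w-v)` (since `1 - (y-x)/(y-1) = (x-1)/(y-1)`), `A (Y+u-w) (X+v-w)`
(since `1 - x(y-1)/(y-x) = y(1-x)/(y-x)`) and the sum is `A u X`: expand, use `A a b = - A b a`. -/
theorem pBET {G N : Type} [Field G] [AddCommGroup N] [Module ℚ N]
    (A : V G →ₗ[ℚ] V G →ₗ[ℚ] N) (hA : Al2 A) : FT5 fun x : G => A (lg (1 - x)) (lg x) := by
  sorry

/-- F2.  Symbols kill `R 2` (any field).  PROOF.  `R 2 G = Rgen G (ker δ2)`.  `{0}`: `cl = 0`; `{∞}`: `cl = 0`.  For `α` in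
`ker (δ2 (RatFunc G)) = NN 0` (`PL.ker_δ2`), `spec a α ∈ NN 0 G` (`PL.NN_spec`), and `NN 0` is killed by `sy2 A` (`N`-valued:
compose with all functionals `N → ℚ`, which separate the points of `N`; `Sy φ x = 2 A (cl1 x) (cl x)` for the
bilinear form `φ` of `A`). -/
theorem pF2 {G N : Type} [Field G] [AddCommGroup N] [Module ℚ N]
    (A : V G →ₗ[ℚ] V G →ₗ[ℚ] N) (hA : Al2 A) : Kil 2 (sy2 A) := by
  sorry

/-- F2K.  Converse criterion: an element of `ℚ[P1 G]` killed by all symbols `sy2 A` is in `AA 2 G`.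
PROOF.  `PL.ker_δ2`: `AA 2 G = NN 0 G`; for a bilinear form `φ` (multilinear in `Fin 2`) take
`A a b = φ ![a, b] - φ ![b, a]`, alternating, `sy2 A x = Sy φ x`. -/
theorem pF2K {G : Type} [Field G] (α : ZP G)
    (h : ∀ A : V G →ₗ[ℚ] V G →ₗ[ℚ] ℚ, Al2 A → Finsupp.linearCombination ℚ (sy2 A) α = 0) :
    α ∈ AA 2 G := by
  sorry

/-- FS.  PROOF.  `B` gives a linear map `(ZP G ⧸ R (k+2) G) ⊗ V G → N` (`TensorProduct.lift` of
`Submodule.liftQ`), whose composition with `δ (R (k+2) G)` is `{x} ↦ B x (cl x)`; `R (k+3) G ≤ ker δ`. -/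
theorem pFS {G N : Type} [Field G] [AddCommGroup N] [Module ℚ N] (k : ℕ)
    (hRA : R (k + 3) G ≤ AA (k + 3) G) (B : P1 G → (V G →ₗ[ℚ] N)) (hB : Kil (k + 2) B) :
    Kil (k + 3) fun x => B x (cl x) := by
  sorry

/-- FTR.  Functions killing `R 2` satisfy the five-term relation (any field `G`).  PROOF.  `K = RatFunc G`, variable `s`.
`ψ ∞ = ψ 0 = 0` (generators of `R 2`).  If `α ∈ AA 2 K` then `ψ(spec 0 α) = ψ(spec 1 α)`; `α ∈ AA 2 K` is checked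
with `hF2K` and `hBET`.
`α = {s} + {s⁻¹}`: `ψ 0 + ψ ∞ = 2 ψ 1`, so `ψ 1 = 0`.  `α = {x s} + {(x s)⁻¹}`: `inv`.  `α = {x s} + {1 - x s}`: `one_sub`.
`five`: `Y = 1 + s (y - 1)`, `α = {Y} + {x/Y} + {(Y-x)/(Y-1)} + {x(Y-1)/(Y-x)} - {x}` (constants `C x`); at `s = 1` it is
the relation for `x, y`; at `s = 0` it is `{1} + {x} + {∞} + {0} - {x}`.  (Values by `PL.val_add`, `PL.val_mul`,
`PL.val_inv`, `PL.val_C`, `PL.val_X`, `PL.val_eq_none` in `PL.A2`.) -/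
theorem pFTR
    (hBET : ∀ {G N : Type} [Field G] [AddCommGroup N] [Module ℚ N]
      (A : V G →ₗ[ℚ] V G →ₗ[ℚ] N), Al2 A → FT5 fun x : G => A (lg (1 - x)) (lg x))
    (hF2K : ∀ {G : Type} [Field G] (α : ZP G),
      (∀ A : V G →ₗ[ℚ] V G →ₗ[ℚ] ℚ, Al2 A → Finsupp.linearCombination ℚ (sy2 A) α = 0) →
        α ∈ AA 2 G)
    {G N : Type} [Field G] [AddCommGroup N] [Module ℚ N] (ψ : P1 G → N) (h : Kil 2 ψ) :
    FT5 (fun x : G => ψ (some x)) ∧ ψ none = 0 := by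
  sorry

/-- VL5.  The five-term relation specialises.  PROOF.  `zero`, `one_sub`, `inv`: cases on `val a x` (`∞`, `0`, other).
`five` for `X ≠ Y` in `F(t) ∖ {0, 1}`, with `x₀ = val a X`, `y₀ = val a Y ∈ P1 F`; write `D̃ = ext0 D`.  CASES
(values of the four terms `Y`, `X/Y`, `(Y-X)/(Y-1)`, `X(Y-1)/(Y-X)`):
1. `x₀, y₀` finite, `∉ {0,1}`, different: `h.five`.  2. `x₀ = y₀ ∉ {0,1,∞}`: `y₀, 1, 0, ∞`.
3. `x₀ = 0`, `y₀ = y ∉ {0,1,∞}`: `y, 0, y/(y-1), 0` and `D (y/(y-1)) = - D y`.  4. `x₀ = 1`: `y, 1/y, 1, 1`.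
5. `x₀ = ∞`: `y, ∞, ∞, 1-y`.  6. `y₀ = 0`, `x₀ = x ∉ {0,1,∞}`: `0, ∞, x, 1`.  7. `y₀ = 1`: `1, x, ∞, 0`.
8. `y₀ = ∞`: `∞, 0, 1, x`.  9. `{x₀, y₀}` two different points of `{0,1,∞}`: all values in `{0,1,∞}`.
10. `x₀ = y₀ = 0`: `r = val a (X/Y)`: `0, r, 0, r/(r-1)` (`r = ∞`: last `1`; `r = 1`: last `∞`).
11. `x₀ = y₀ = 1`: `r = val a ((Y-X)/(Y-1))`: `1, 1, r, 1/r`.  12. `x₀ = y₀ = ∞`: `r = val a (X/Y)`: `∞, r, 1-r, ∞`.
(`D 1 = 0` from `zero` and `one_sub`.)  Hint: prove a few lemmas first, e.g. `val a f = some u`, `val a g = some v`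
implies the values of `f ± g`, `f g`, `f / g` (`v ≠ 0`), `val a f = none ↔ val a f⁻¹ = some 0` for `f ≠ 0`
(`PL.A2`). -/
theorem pVL5 {F N : Type} [Field F] [AddCommGroup N] [Module ℚ N] (D : F → N) (h : FT5 D)
    (a : F) : FT5 fun x : RatFunc F => ext0 D (val a (some x)) := by
  sorry

/-- DSR.  Degree reduction (Dupont-Sah).  PROOF.  Claim(d): for nonzero polynomials `g + k = h` of degree `≤ d`,
`Δ(g/h) = 0`.  Induction on `d`; `d = 0`: constants.  Let `d ≥ 1`.  If a common linear factor divides two (hence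
all) of `g, k, h`: divide, Claim(d-1).
L1: for distinct `α, β, γ` and `Y = (t-α)(β-γ)/((t-γ)(β-α))`: `Δ Y = 0`: `five` with `x₀ = (γ-α)/(β-α)` constant
and `y = (t-α)/(β-α)`: `Δ y = 0`, `x₀/y = ((t-α)/(γ-α))⁻¹`, `(y-x₀)/(y-1) = (t-γ)/(t-β) = 1 - ((t-β)/(γ-β))⁻¹`, and
`x₀(y-1)/(y-x₀) = 1 - Y`.
Case A: one of `g, k, h` has degree `< d`; by `Δ(1/X) = -Δ X`, `Δ(1/(1-X)) = Δ X` (`1/X = h/g`, `h + (-k) = g`;
`1/(1-X) = h/k`, `h + (-g) = k`) we may assume `deg h < d`.  If also `deg g < d` or `deg k < d` then all are `< d`: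
Claim(d-1).  Otherwise roots `α` of `g`, `β` of `k`, `α ≠ β`, `g = (t-α)g'`, `k = (t-β)k'`, `Y = (t-α)/(β-α)`, `Δ Y = 0`.  If
`X = g/h = Y` done; otherwise `five` (`x = X, y = Y`): `X/Y = (β-α)g'/h`; `(Y-X)/(Y-1) = 1 - Z`, `Z = (1-X)/(1-Y) =
-(β-α)k'/h`; `X(Y-1)/(Y-X) = 1/(1-R)`, `R = -k'/g'`.  Each of `X/Y`, `Z`, `R` is a quotient of nonzero polynomials of
degree `≤ d-1` and is `≠ 1` (as `X ≠ Y`): Claim(d-1).
Case B: all three have degree exactly `d`: roots `α, β, γ` of `g, k, h`, distinct; `Y` as in L1,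
`1 - Y = (t-β)(α-γ)/((t-γ)(α-β))`; the same computation with `h = (t-γ)h'`.
Finally every `X ∈ F(t)`, `X ≠ 0, 1`, is such a `g/h`; `Δ 0 = Δ 1 = 0`. -/
theorem pDSR {F N : Type} [Field F] [IsAlgClosed F] [AddCommGroup N] [Module ℚ N]
    (Δ : RatFunc F → N) (h : FT5 Δ) (hc : ∀ c : F, Δ (RatFunc.C c) = 0)
    (hl : ∀ a b : F, a ≠ b → Δ ((RatFunc.X - RatFunc.C a) / RatFunc.C (b - a)) = 0) :
    ∀ x, Δ x = 0 := by
  sorry

/-- EXF.  PROOF.  For `a ≠ b` put `ψ a b = ψ((t-a)/(b-a))`; `ψ b a = - ψ a b` by `one_sub`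
(`(t-b)/(a-b) = 1 - (t-a)/(b-a)`).  `A v w = ∑_{a ≠ b} od(v)_b od(w)_a ψ a b` (bilinear, alternating, zero on constants by
`od_C`).  `Δ x = ψ x - A (lg (1-x)) (lg x)` satisfies `FT5` (`hBET`), is zero on constants and on `(t-a)/(b-a)`
(`1 - (t-a)/(b-a) = (b-t)/(b-a)`, so `A (E b) (E a) = ψ a b`, constants vanish).  `hDSR`. -/
theorem pEXF
    (hBET : ∀ {G N : Type} [Field G] [AddCommGroup N] [Module ℚ N]
      (A : V G →ₗ[ℚ] V G →ₗ[ℚ] N), Al2 A → FT5 fun x : G => A (lg (1 - x)) (lg x))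
    (hDSR : ∀ {F N : Type} [Field F] [IsAlgClosed F] [AddCommGroup N] [Module ℚ N]
      (Δ : RatFunc F → N), FT5 Δ → (∀ c : F, Δ (RatFunc.C c) = 0) →
      (∀ a b : F, a ≠ b → Δ ((RatFunc.X - RatFunc.C a) / RatFunc.C (b - a)) = 0) →
      ∀ x, Δ x = 0)
    {F N : Type} [Field F] [IsAlgClosed F] [AddCommGroup N] [Module ℚ N]
    {cV : V F →ₗ[ℚ] V (RatFunc F)} {lc : V (RatFunc F) →ₗ[ℚ] V F}
    {od : V (RatFunc F) →ₗ[ℚ] (F →₀ ℚ)} (hs : Spl cV lc od)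
    (ψ : RatFunc F → N) (h : FT5 ψ) (hc : ∀ c : F, ψ (RatFunc.C c) = 0) :
    ∃ A : V (RatFunc F) →ₗ[ℚ] V (RatFunc F) →ₗ[ℚ] N, Al2 A ∧
      (∀ (c : F) v, A (lg (RatFunc.C c)) v = 0) ∧ ∀ x, ψ x = A (lg (1 - x)) (lg x) := by
  sorry

/-- EX2.  PROOF.  `hFTR` and `hEXF` applied to `x ↦ ψ (some x)`; at `∞` both sides are `0`. -/
theorem pEX2
    (hFTR : ∀ {G N : Type} [Field G] [AddCommGroup N] [Module ℚ N] (ψ : P1 G → N), Kil 2 ψ →
      FT5 (fun x : G => ψ (some x)) ∧ ψ none = 0)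
    {F N : Type} [Field F] [AddCommGroup N] [Module ℚ N]
    (hEXF : ∀ ψ : RatFunc F → N, FT5 ψ → (∀ c : F, ψ (RatFunc.C c) = 0) →
      ∃ A : V (RatFunc F) →ₗ[ℚ] V (RatFunc F) →ₗ[ℚ] N, Al2 A ∧
        (∀ (c : F) v, A (lg (RatFunc.C c)) v = 0) ∧ ∀ x, ψ x = A (lg (1 - x)) (lg x))
    (ψ : P1 (RatFunc F) → N) (h : Kil 2 ψ) (hc : ∀ c, ψ (cst c) = 0) :
    ∃ A : V (RatFunc F) →ₗ[ℚ] V (RatFunc F) →ₗ[ℚ] N, Al2 A ∧
      (∀ (c : F) v, A (lg (RatFunc.C c)) v = 0) ∧ ∀ x, ψ x = A (cl1 x) (cl x) := by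
  sorry

/-- ROG.  Five-term functions kill `R 2 F`, `F` algebraically closed.  PROOF.  `R 2 F = Rgen F (AA 2 (RatFunc F))`;
`{0}`, `{∞}`: `D 0 = 0`, `ext0 D ∞ = 0`.  `T x = ext0 D (val 0 (some x)) - ext0 D (val 1 (some x))` is `FT5` by
`hVL5` and `T (C c) = 0`; `hEXF` gives `A`.  For `α ∈ AA 2 (RatFunc F)`:
`lin (ext0 D) (spec 0 α) - lin (ext0 D) (spec 1 α) = lin (sy2 A) α = 0` (`AA 2 = ker δ2`; `N`-valued alternating
forms kill it: `exteriorPower` universal property, or `PL.ker_δ2` and functionals on `N`; at `∞` both are `0`). -/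
theorem pROG {F N : Type} [Field F] [AddCommGroup N] [Module ℚ N]
    (hVL5 : ∀ (D : F → N), FT5 D → ∀ a : F, FT5 fun x : RatFunc F => ext0 D (val a (some x)))
    (hEXF : ∀ ψ : RatFunc F → N, FT5 ψ → (∀ c : F, ψ (RatFunc.C c) = 0) →
      ∃ A : V (RatFunc F) →ₗ[ℚ] V (RatFunc F) →ₗ[ℚ] N, Al2 A ∧
        (∀ (c : F) v, A (lg (RatFunc.C c)) v = 0) ∧ ∀ x, ψ x = A (lg (1 - x)) (lg x))
    (D : F → N) (h : FT5 D) : Kil 2 (ext0 D) := by
  sorry

/-- SCL.  The scaling path with its value on constants.  PROOF.  As `PL.exists_scale` in `PL.A6` (`t ↦ s t`), the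
same `σ = RatFunc.mapRingHom φ _`, plus `σ (C c) = C (C c)`. -/
theorem pSCL (F : Type) [Field F] : ∃ σ : RatFunc F →+* RatFunc (RatFunc F),
    (∀ x : P1 (RatFunc F), val (1 : RatFunc F) (Option.map σ x) = x) ∧
    (∀ x : P1 (RatFunc F), val (0 : RatFunc F) (Option.map σ x) = cst (val (0 : F) x)) ∧
    ∀ c : F, σ (RatFunc.C c) = RatFunc.C (RatFunc.C c) := by
  sorry

/-- TEN.  PROOF.  `δ S α = ∑ c_i [x_i] ⊗ cl x_i` in `(ZP G ⧸ S) ⊗ V G`; an element of `Q ⊗ V` is zero iff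
`(id ⊗ λ)` of it is zero for all functionals `λ` (`PL.a5_sep` in `PL.A5`, or a basis of `V`). -/
theorem pTEN {G : Type} [Field G] (S : Submodule ℚ (ZP G)) (α : ZP G) :
    α ∈ LinearMap.ker (δ S) ↔ ∀ l : V G →ₗ[ℚ] ℚ,
      Finsupp.linearCombination ℚ (fun x => l (cl x) • (Finsupp.single x 1 : ZP G)) α ∈ S := by
  sorry

/-- RES.  PROOF.  Put `ρ = lin (od (cl x) a • {x}) α = r + mapP C β` with `r ∈ R (k+2) K` (hypothesis `h` for
`l = Finsupp.lapply a ∘ₗ od`).  Apply `spec a`: `spec a ρ = ∑ c_i od(cl x_i)_a {val a x_i}` is a combination of `{0}` and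
`{∞}` (`hs.val`), so in `R (k+2) F` (generators of `Rgen`); `spec a r ∈ R (k+2) F` (`hS`); `spec a (mapP C β) = β`
(`PL.val_C`).  So `β ∈ R (k+2) F` and `mapP C β ∈ R (k+2) K` (`hF`). -/
theorem pRES {F : Type} [Field F] (k : ℕ)
    {cV : V F →ₗ[ℚ] V (RatFunc F)} {lc : V (RatFunc F) →ₗ[ℚ] V F}
    {od : V (RatFunc F) →ₗ[ℚ] (F →₀ ℚ)} (hs : Spl cV lc od)
    (hF : ∀ α ∈ R (k + 2) F, mapP RatFunc.C α ∈ R (k + 2) (RatFunc F))
    (hS : ∀ (a : F), ∀ α ∈ R (k + 2) (RatFunc F), spec a α ∈ R (k + 2) F)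
    (α : ZP (RatFunc F))
    (h : ∀ l : V (RatFunc F) →ₗ[ℚ] ℚ,
      Finsupp.linearCombination ℚ
        (fun x => l (cl x) • (Finsupp.single x 1 : ZP (RatFunc F))) α ∈
          R (k + 2) (RatFunc F) ⊔ LinearMap.range (mapP (RatFunc.C : F →+* RatFunc F)))
    (a : F) :
    Finsupp.linearCombination ℚ
      (fun x => od (cl x) a • (Finsupp.single x 1 : ZP (RatFunc F))) α ∈
        R (k + 2) (RatFunc F) := by
  sorry

/-- RIG.  Rigidity by the path `t ↦ s t`.  PROOF.  `K = RatFunc F`, `σ` of `hSCL`, `C' = RatFunc.C : K → K(s)`,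
`γ = mapP σ α - mapP C' α`.  Then `spec 0 γ - spec 1 γ = mapP C (spec 0 α) - α` (`spec 1 (mapP σ α) = α`,
`spec 0 (mapP σ α) = mapP C (spec 0 α)`, `spec a (mapP C' α) = α`), so it suffices that `γ ∈ AA (k+3) (RatFunc K) =
ker δ (R (k+2) (RatFunc K))`.  By `hTEN`: for `l : V (K(s)) → ℚ`: `lin (l (cl x) • {x}) γ = mapP σ (lin (l₁ (cl x) • {x}) α) -
mapP C' (lin (l₂ (cl x) • {x}) α)`, `l₁ = l ∘ V(σ)`, `l₂ = l ∘ V(C')` (`PL.exists_map`).  By `hs.dec`, `l_i v = l_i (cV (lc v)) +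
∑_a od(v)_a l_i (E a)`; the `od_a`-parts of `α` are in `R (k+2) K` by `hRES` (finitely many `a`), their images are in
`R` (`hF`).  `l₁ ∘ cV = l₂ ∘ cV =: m` (`σ ∘ C = C' ∘ C`).  `ξ = lin (m (lc (cl x)) • {x}) α = r + mapP C β` by `h`, and
`mapP σ (mapP C β) = mapP C' (mapP C β)`, `mapP σ r, mapP C' r ∈ R` (`hF`). -/
theorem pRIG {F : Type} [Field F] (k : ℕ)
    {cV : V F →ₗ[ℚ] V (RatFunc F)} {lc : V (RatFunc F) →ₗ[ℚ] V F}
    {od : V (RatFunc F) →ₗ[ℚ] (F →₀ ℚ)} (hs : Spl cV lc od)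
    (hSCL : ∃ σ : RatFunc F →+* RatFunc (RatFunc F),
      (∀ x : P1 (RatFunc F), val (1 : RatFunc F) (Option.map σ x) = x) ∧
      (∀ x : P1 (RatFunc F), val (0 : RatFunc F) (Option.map σ x) = cst (val (0 : F) x)) ∧
      ∀ c : F, σ (RatFunc.C c) = RatFunc.C (RatFunc.C c))
    (hTEN : ∀ {G : Type} [Field G] (S : Submodule ℚ (ZP G)) (α : ZP G),
      α ∈ LinearMap.ker (δ S) ↔ ∀ l : V G →ₗ[ℚ] ℚ,
        Finsupp.linearCombination ℚ (fun x => l (cl x) • (Finsupp.single x 1 : ZP G)) α ∈ S)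
    (hF : ∀ {G G' : Type} [Field G] [Field G'] (σ : G →+* G'), ∀ α ∈ R (k + 2) G,
      mapP σ α ∈ R (k + 2) G')
    (α : ZP (RatFunc F))
    (h : ∀ l : V (RatFunc F) →ₗ[ℚ] ℚ,
      Finsupp.linearCombination ℚ
        (fun x => l (cl x) • (Finsupp.single x 1 : ZP (RatFunc F))) α ∈
          R (k + 2) (RatFunc F) ⊔ LinearMap.range (mapP (RatFunc.C : F →+* RatFunc F)))
    (hRES : ∀ a : F, Finsupp.linearCombination ℚ
      (fun x => od (cl x) a • (Finsupp.single x 1 : ZP (RatFunc F))) α ∈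
        R (k + 2) (RatFunc F)) :
    α ∈ R (k + 3) (RatFunc F) ⊔ LinearMap.range (mapP (RatFunc.C : F →+* RatFunc F)) := by
  sorry

/-- EXS.  PROOF.  `Q = ZP K ⧸ (R (k+2) K ⊔ range (mapP C))`, `T : ZP K → Q ⊗ V K`, `{x} ↦ [x] ⊗ cl x` (this is `PL.δ` of
that submodule).  By `hTEN` and `hRIG`, `ker T ≤ R (k+3) K ⊔ range (mapP C)`, on which `lin ψ` vanishes (`h`, `hc`:
`mapP C {c} = {cst c}`).  So `lin ψ = g ∘ T` with `g : Q ⊗ V K → N` linear (factor through the range of `T`, extend by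
`LinearMap.exists_extend`).  `B x v = g ([x] ⊗ v)`. -/
theorem pEXS {F N : Type} [Field F] [AddCommGroup N] [Module ℚ N] (k : ℕ)
    (hTEN : ∀ {G : Type} [Field G] (S : Submodule ℚ (ZP G)) (α : ZP G),
      α ∈ LinearMap.ker (δ S) ↔ ∀ l : V G →ₗ[ℚ] ℚ,
        Finsupp.linearCombination ℚ (fun x => l (cl x) • (Finsupp.single x 1 : ZP G)) α ∈ S)
    (hRIG : ∀ α : ZP (RatFunc F), (∀ l : V (RatFunc F) →ₗ[ℚ] ℚ,
      Finsupp.linearCombination ℚ
        (fun x => l (cl x) • (Finsupp.single x 1 : ZP (RatFunc F))) α ∈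
          R (k + 2) (RatFunc F) ⊔ LinearMap.range (mapP (RatFunc.C : F →+* RatFunc F))) →
      α ∈ R (k + 3) (RatFunc F) ⊔ LinearMap.range (mapP (RatFunc.C : F →+* RatFunc F)))
    (ψ : P1 (RatFunc F) → N) (h : Kil (k + 3) ψ) (hc : ∀ c, ψ (cst c) = 0) :
    ∃ B : P1 (RatFunc F) → (V (RatFunc F) →ₗ[ℚ] N), Kil (k + 2) B ∧
      (∀ c, B (cst c) = 0) ∧ ∀ x, ψ x = B x (cl x) := by
  sorry

/-- EX3.  PROOF.  `B` from `hEXS`; `hEX2` for `B` (with `N := V K → N`) gives `A` alternating in the first two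
variables, zero on constants in the first (and second), `B x k = A (cl1 x) (cl x) k`.  Let `κ v = cV (lc v)` and
`χ a b c = A a b (κ c) + A b c (κ a) + A c a (κ b)`, `B' x k = A (cl1 x) (cl x) k - χ (cl1 x) (cl x) k`.  `B'` is
`sy2` of the alternating `(a, b) ↦ (k ↦ A a b k - χ a b k)`, so `Kil 2` (`hF2`); `B' (cst c) = 0` (all terms have a constant
in a place of `A` among the first two, or `A` of two constants); `B' x (κ u) = A(1-x,x)(κu) - A(1-x,x)(κu) = 0`;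
`χ (cl1 x) (cl x) (cl x) = 0`, so `B' x (cl x) = ψ x`.  `hEX2` for `x ↦ B' x ∘ Eo : (F →₀ ℚ) → N`, `Eo = linearCombination ℚ E`,
gives `A'`; `M a b c = A' a b (od c)`; `cl x = κ (cl x) + Eo (od (cl x))`. -/
theorem pEX3 {F N : Type} [Field F] [AddCommGroup N] [Module ℚ N]
    {cV : V F →ₗ[ℚ] V (RatFunc F)} {lc : V (RatFunc F) →ₗ[ℚ] V F}
    {od : V (RatFunc F) →ₗ[ℚ] (F →₀ ℚ)} (hs : Spl cV lc od)
    (hF2 : ∀ {G N : Type} [Field G] [AddCommGroup N] [Module ℚ N]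
      (A : V G →ₗ[ℚ] V G →ₗ[ℚ] N), Al2 A → Kil 2 (sy2 A))
    (hEX2 : ∀ {N : Type} [AddCommGroup N] [Module ℚ N] (ψ : P1 (RatFunc F) → N), Kil 2 ψ →
      (∀ c, ψ (cst c) = 0) → ∃ A : V (RatFunc F) →ₗ[ℚ] V (RatFunc F) →ₗ[ℚ] N, Al2 A ∧
        (∀ (c : F) v, A (lg (RatFunc.C c)) v = 0) ∧ ∀ x, ψ x = A (cl1 x) (cl x))
    (hEXS : ∀ ψ : P1 (RatFunc F) → N, Kil 3 ψ → (∀ c, ψ (cst c) = 0) →
      ∃ B : P1 (RatFunc F) → (V (RatFunc F) →ₗ[ℚ] N), Kil 2 B ∧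
        (∀ c, B (cst c) = 0) ∧ ∀ x, ψ x = B x (cl x))
    (ψ : P1 (RatFunc F) → N) (h : Kil 3 ψ) (hc : ∀ c, ψ (cst c) = 0) :
    ∃ M : V (RatFunc F) →ₗ[ℚ] V (RatFunc F) →ₗ[ℚ] V (RatFunc F) →ₗ[ℚ] N,
      (∀ v w, M v v w = 0) ∧ (∀ (c : F) v w, M (lg (RatFunc.C c)) v w = 0) ∧
      (∀ (c : F) v w, M v w (lg (RatFunc.C c)) = 0) ∧ ∀ x, ψ x = M (cl1 x) (cl x) (cl x) := by
  sorry

end

end Pool.Agent.Helper19.HV
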