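import Pool.Agent.Helper19.HV.XS

/-!
# Project HV: statements, part B (the functional equations of the forms, curried functionals)

Every theorem is one module.  Needed facts of other modules are hypotheses.  Multilinear maps
with given values: `mk2`, `mk3`, `mk4` of `Lin.lean`; symbols of `x1 a p`, `x2 a b c`: `XS.lean`.
`K = RatFunc F`, `VK = V K`, `κ v = cV (lc v)`, `Eo = Finsupp.linearCombination ℚ E`.
-/

set_option autoImplicit false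

open Polynomial

namespace Pool.Agent.Helper19.HV

noncomputable section

open PL

/-! ## C. The functional equations -/

/-- CA1.  `e_l = e y l = lg (y - C l)`; `y - C l ≠ 0` (`hC.nc`).  Constants vanish in every variable of `φ`
(`c0`, `c1`, `s12`, `s23`).  PROOF.  (i) `x = (y - l)/(n - l)`, `n ≠ l`: `lg (1-x) = e_n - const`, `lg x = e_l - const`, so
`φ e_n e_l e_l e_l = 0` (`S x` by `hC.sy` with numerator `0 y² + 1 y - l`, denominator `n - l`, after rewriting);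
`n = l`: `diag`.
(ii) `f n = φ e_n (e_l-e_m) (e_l-e_m) (e_l-e_m)` is `0` for all `n` (`l ≠ m`): for `n ≠ l, m` take
`x = c (y-l)/(y-m)`, `c = (n-m)/(n-l)`: `1 - x = (1-c)(y-n)/(y-m)`, `c ≠ 0, 1`: `φ (e_n - e_m)(e_l-e_m)³ = 0`; and
`x = (y-l)/(y-m)`: `1 - x = (l-m)/(y-m)`: `φ (-e_m) (e_l-e_m)³ = 0`; by symmetry (`l ↔ m`) `φ e_l (e_m - e_l)³ = 0`.
Expand with (i) and `s23`, `s12`: `-3 lλλμ + 3 lμμ`-terms: `-3 φ(n;l,l,m) + 3 φ(n;l,m,m) = 0`.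
(iii) `diag` for `e_m + s e_l`, or polarised: `diag` at `e_l + e_m`, `e_l - e_m`, `e_l + 2 e_m`, ... gives
`φ(e_m; l,l,l) + 3 φ(e_l; l,l,m) = 0` (the part of degree three in `e_l`), and the first term is `0` by (i). -/
theorem pCA1 {F : Type} [Field F] {φ : F4 F} (hφ : Frm φ) {Y S : RatFunc F → Prop}
    (hC : Crd Y S) (hS : ∀ x, S x → Sv φ x) {y : RatFunc F} (hy : Y y) : Cal φ y := by
  sorry

/-- CA2.  PROOF.  Put `v = e_a + e_b - e_c`.  For all `s`: `φ e_s v v v = 6 Wf φ y a b c s` (expand, `s12`, `s23`, `h1`: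
cubes are `0`, `aab = abb`, so `-3aac + 3acc = 0`, `-3bbc + 3bcc = 0`, `3aab + 3abb = 6aab`).  With
`q = c + (a-c)(b-c)/(p-c)` the claim is `φ (e_p + e_q - e_c) v v v = 0`.  If `p = a` then `q = b`, if `p = b` then `q = a`:
it is `diag`.  Otherwise `k = (p-a)(p-b)/(p-c) ≠ 0`, `X = (y-a)(y-b)/(k(y-c))`, `1 - X = -(y-p)(y-q)/(k(y-c))`
(as `p + q = k + a + b`, `p q = k c + a b`), `lg X = v - const`, `lg (1-X) = e_p + e_q - e_c - const`; `S X`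
(numerator `y² - (a+b) y + ab`, denominator `k y - kc`). -/
theorem pCA2 {F : Type} [Field F] {φ : F4 F} (hφ : Frm φ) {Y S : RatFunc F → Prop}
    (hC : Crd Y S) (hS : ∀ x, S x → Sv φ x) {y : RatFunc F} (hy : Y y) (h1 : Cal φ y)
    {a b c p : F} (hab : a ≠ b) (hac : a ≠ c) (hbc : b ≠ c) (hp : p ≠ c) :
    Wf φ y a b c p + Wf φ y a b c (c + (a - c) * (b - c) / (p - c)) = Wf φ y a b c c := by
  sorry

/-- CA3.  PROOF.  `Df φ y l = φ e_l e_0 e_0 e_1`, `e_0 = lg y`, `e_1 = lg (y - 1)`.  `D 0 = 0` is `h1` (third part);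
`D 1 = φ e_1 e_0 e_0 e_1 = φ e_1 e_0 e_1 e_1 = φ e_1 e_1 e_1 e_0 = 0`.
`D (1-l) = - D l` (`l ≠ 0, 1`; else by the values `0`): `X = y(y-1)/(l(l-1))`, `1 - X = -(y-l)(y-(1-l))/(l(l-1))`:
`φ (e_l + e_{1-l}) (e_0+e_1)³ = 0` and `φ e_s (e_0+e_1)³ = 6 D s`.
`D l⁻¹ = - D l` (`l ≠ 0, 1`): `k = (l-1)²/l`, `X = (y-1)²/(k y)`, `1 - X = -(y-l)(y-l⁻¹)/(k y)`, `lg X = 2 e_1 - e_0 - const`:
`φ (e_l + e_{l⁻¹} - e_0) (2e_1 - e_0)³ = 0` and `φ e_s (2e_1-e_0)³ = -12 φ(s;1,1,0) + 6 φ(s;1,0,0) = -6 D s`. -/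
theorem pCA3 {F : Type} [Field F] {φ : F4 F} (hφ : Frm φ) {Y S : RatFunc F → Prop}
    (hC : Crd Y S) (hS : ∀ x, S x → Sv φ x) {y : RatFunc F} (hy : Y y) (h1 : Cal φ y) :
    Df φ y 0 = 0 ∧ Df φ y 1 = 0 ∧ (∀ l, Df φ y (1 - l) = - Df φ y l) ∧
      ∀ l, Df φ y l⁻¹ = - Df φ y l := by
  sorry

/-- CA4.  PROOF.  Write `e_s = e y s`, `y' = C (1-x) y/(y - C x)`, `G s = φ e_s e_0 e_1 e_x`, `F_{ab} s = φ e_s e_a e_a e_b`
(`= φ e_s e_a e_b e_b`).  For `p ≠ x`: `lg (y' - C (p(1-x)/(p-x))) = e_p - e_x + const` (`y' - y'(p) =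
(1-x) x (p - y)/((y-x)(p-x))`), `lg y' = e_0 - e_x + const`, `lg (y' - 1) = e_1 - e_x + const`
(`y' - 1 = x(1-y)/(y-x)`), so `Df φ y' (p(1-x)/(p-x)) = φ (e_p-e_x) (e_0-e_x)(e_0-e_x)(e_1-e_x) = H p - H x`,
`H = F_{01} + F_{0x} + F_{1x} - 2 G` (expand; cubes `0`); and `lg (y' - C (1-x)) = - e_x + const`
(`y' - (1-x) = (1-x)x/(y-x)`), so `Df φ y' (1-x) = - H x`.
The four arguments of `N5 (Df φ y') (1-x) (l(1-x)/(l-x))` are `p(1-x)/(p-x)` for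
`p = l, (l-x)/(l-1), x/l, x(l-1)/(l-x)` in some order (`field_simp; ring`), all `≠ x`.  So the right side is
`∑_p H p - 3 H x`, the left side is `∑_p F_{01} p - F_{01} x`, and `H x = F_{01} x - 2 G x` (`h1`: third part with `s23`).
So one needs `∑_p (F_{0x} + F_{1x} - 2G) p = 2 F_{01} x - 6 G x`.
`h2` with `(a,b,c) = (0,x,1)`: `Wf = F_{0x} - G`, `p ↦ (p-x)/(p-1)`; with `(1,x,0)`: `Wf = F_{1x} - G`, `p ↦ x/p`.
Use the first for `p = l` and `p = x/l` (images `(l-x)/(l-1)`, `x(l-1)/(l-x)`), the second for `p = l` and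
`p = (l-x)/(l-1)`: the left side is `2(F_{0x} 1 - G 1) + 2 (F_{1x} 0 - G 0)`.
Polarised `diag` for `e_0, e_1, e_x` (coefficients `α²βγ`, `αβ²γ`, `αβγ²`): `6 G 0 + 3 F_{0x} 1 + 3 F_{01} x = 0`,
`6 G 1 + 3 F_{1x} 0 + 3 F_{01} x = 0`, `6 G x + 3 F_{1x} 0 + 3 F_{0x} 1 = 0`.  Linear arithmetic. -/
theorem pCA4 {F : Type} [Field F] {φ : F4 F} (hφ : Frm φ) {y : RatFunc F}
    (hy : ∀ c : F, y ≠ RatFunc.C c) (h1 : Cal φ y)
    (h2 : ∀ a b c p : F, a ≠ b → a ≠ c → b ≠ c → p ≠ c →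
      Wf φ y a b c p + Wf φ y a b c (c + (a - c) * (b - c) / (p - c)) = Wf φ y a b c c)
    {x l : F} (hx0 : x ≠ 0) (hx1 : x ≠ 1) (hl0 : l ≠ 0) (hl1 : l ≠ 1) (hlx : l ≠ x) :
    N5 (Df φ y) x l =
      N5 (Df φ (RatFunc.C (1 - x) * y / (y - RatFunc.C x))) (1 - x) (l * (1 - x) / (l - x)) := by
  sorry

/-- CA5.  PROOF.  `zero`, `one_sub`, `inv` are hypotheses; `five` is `N5 (D y) x l = 0` for `x, l ≠ 0, 1`, `x ≠ l`.
(A) `N5 (D y) x l = - N5 (D y) l x`: in the sum of both, `D(x/l) + D(l/x) = 0` (`hi`); with `u = (l-x)/(l-1)`,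
`v = (x-l)/(x-1)`: `1 - 1/v = 1/u`, so `D v = - D (1/v) = D (1 - 1/v) = D (1/u) = - D u`; and
`x(l-1)/(l-x) + l(x-1)/(x-l) = 1`, so these two cancel (`hs`).
(I) is `hI`.  Put `y₁ = C (1-l) y/(y - C l)`, `s = x(1-l)/(x-l)`.  `N(y;x,l) = - N(y;l,x) = - N(y₁;1-l,s) = N(y₁;s,1-l)`
(A, I, A).  On the other hand with `y₂ = C (1-x) y/(y - C x)`, `r = l(1-x)/(l-x)`: `N(y;x,l) = N(y₂;1-x,r) =
- N(y₂;r,1-x) = - N(y₃;1-r, (1-x)(1-r)/((1-x)-r))` (I, A, I) with `y₃ = C (1-r) y₂/(y₂ - C r)`; `1 - r = s`,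
`(1-x)(1-r)/((1-x)-r) = 1 - l`, `y₃ = y₁`.  So `N = - N`, `N = 0`.  (All side conditions follow from `x, l ≠ 0, 1`,
`x ≠ l`; `y - C c ≠ 0`, `Y y₁`, `Y y₂` by `hC.nc`, `hC.mob`.) -/
theorem pCA5 {F : Type} [Field F] {Y S : RatFunc F → Prop} (hC : Crd Y S)
    (D : RatFunc F → F → ℚ) (h0 : ∀ y, Y y → D y 0 = 0)
    (hs : ∀ y, Y y → ∀ l, D y (1 - l) = - D y l) (hi : ∀ y, Y y → ∀ l, D y l⁻¹ = - D y l)
    (hI : ∀ y, Y y → ∀ x l : F, x ≠ 0 → x ≠ 1 → l ≠ 0 → l ≠ 1 → l ≠ x →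
      N5 (D y) x l =
        N5 (D (RatFunc.C (1 - x) * y / (y - RatFunc.C x))) (1 - x) (l * (1 - x) / (l - x)))
    {y : RatFunc F} (hy : Y y) : FT5 (D y) := by
  sorry

/-- CRD.  PROOF.  `mob`: if `(a y + b)/(c y + d) = C e` (the denominator is not `0`: `y` is not constant,
`(c,d) ≠ 0`) then `(a - e c) y = C (e d - b)`, so `a = e c`, `b = e d`, `ad - bc = 0`. -/
theorem pCRD {F : Type} [Field F] :
    Crd (fun y : RatFunc F => ∀ c : F, y ≠ RatFunc.C c) (fun _ => True) := by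
  sorry

/-- Z1.  PROOF.  `y = (X - C a)/C(b-a)`: `y - C c = (X - C (a + c(b-a)))/C(b-a)`, so `e y c = E (a + c(b-a)) - const`; constants
vanish in all variables of `φ`.  So the two functions are equal. -/
theorem pZ1 {F : Type} [Field F] {φ : F4 F} (hφ : Frm φ) {a b : F} (hab : a ≠ b)
    (h : FT5 (Df φ ((RatFunc.X - RatFunc.C a) / RatFunc.C (b - a)))) :
    FT5 fun c : F => φ (E (a + c * (b - a))) (E a) (E a) (E b) := by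
  sorry

/-- Z2.  PROOF.  `e X l = E l` (rfl).  For distinct `a, b, c` put `G s = φ (E s) (E a) (E b) (E c)` (symmetric in `a,b,c`).
`Wf φ X a b c s = - G s` by `h0`.  Polarised `diag` for `E a, E b, E c` (coefficient of `α²βγ`):
`6 G a + 3 φ(b;a,a,c) + 3 φ(c;a,a,b) = 0`, so `G a = G b = G c = 0`.  `h2` for the three orders: `G p + G (σ_c p) = 0`
for `p ≠ c`, `σ_c p = c + (a-c)(b-c)/(p-c)`, and similarly `σ_a, σ_b`.  For `p ∉ {a,b,c}` also `σ_c p ∉ {a,b,c}` etc. and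
`σ_a (σ_b (σ_c p)) = p` (`field_simp; ring`), so `G p = - G p`.  So `φ (E p) (E a) (E b) (E c) = 0` in all cases
(two of `a,b,c` equal: `h0`, `s12`, `s23`, `h1`).  Now all four variables: `hs.dec`, constants vanish, `φ` is zero on
`κ`-parts and on `E`'s (linearity: `LinearMap.ext`, `Finsupp.linearCombination`). -/
theorem pZ2 {F : Type} [Field F] {cV : V F →ₗ[ℚ] V (RatFunc F)}
    {lc : V (RatFunc F) →ₗ[ℚ] V F} {od : V (RatFunc F) →ₗ[ℚ] (F →₀ ℚ)} (hs : Spl cV lc od)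
    {φ : F4 F} (hφ : Frm φ) (h1 : Cal φ RatFunc.X)
    (h2 : ∀ a b c p : F, a ≠ b → a ≠ c → b ≠ c → p ≠ c →
      Wf φ RatFunc.X a b c p + Wf φ RatFunc.X a b c (c + (a - c) * (b - c) / (p - c)) =
        Wf φ RatFunc.X a b c c)
    (h0 : ∀ p a b, φ (E p) (E a) (E a) (E b) = 0) : φ = 0 := by
  sorry

/-! ## D. Forms and functionals -/

/-- SPN.  PROOF.  `T` is alternating in the first two and vanishes on constants in the first and third, hence in all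
variables.  For all `p, a, b`: `T (E p) (E a) (E b) + T (E p) (E b) (E a) = 0`:
`hx (x1 a p)`: `T (E p) (E a) (E a) = 0` (`p ≠ a`; trivial for `p = a`).
`hx (x2 a b 1)`: `T (-E b) (E a - E b) (E a - E b) = 0`, so `T (E b) (E a) (E b) = 0` (using the first).
`hx (x2 a b ((p-b)/(p-a)))`: `T (E p - E b) (E a - E b) (E a - E b) = 0`; expand: `- T p a b - T p b a = 0`.
So `T w v v = 0` for all `w, v`: `(w, v, v') ↦ T w v v' + T w v' v` is trilinear, zero on constants and on the `E`'s, so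
it is zero (`hs.dec`). -/
theorem pSPN {F N : Type} [Field F] [AddCommGroup N] [Module ℚ N]
    {cV : V F →ₗ[ℚ] V (RatFunc F)} {lc : V (RatFunc F) →ₗ[ℚ] V F}
    {od : V (RatFunc F) →ₗ[ℚ] (F →₀ ℚ)} (hs : Spl cV lc od)
    (T : V (RatFunc F) →ₗ[ℚ] V (RatFunc F) →ₗ[ℚ] V (RatFunc F) →ₗ[ℚ] N)
    (h2 : ∀ v w, T v v w = 0) (hc1 : ∀ (c : F) v w, T (lg (RatFunc.C c)) v w = 0)
    (hc3 : ∀ (c : F) v w, T v w (lg (RatFunc.C c)) = 0)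
    (hx : ∀ x : P1 (RatFunc F), T (cl1 x) (cl x) (cl x) = 0) : Al3 T := by
  sorry

/-- SYM.  PROOF.  `φ w a b c = (1/6) ∑` of `M w` over the six orders of `a, b, c` (`mk4`). -/
theorem pSYM {F : Type} [Field F] (M : F4 F) (hM : ∀ v w z, M v v w z = 0) (hc : Cv4 M) :
    ∃ φ : F4 F, Frm φ ∧ (∀ w v, φ w v v v = M w v v v) ∧
      ∀ w a b, 3 * φ w a a b = M w a a b + M w a b a + M w b a a := by
  sorry

/-- CON.  PROOF.  `S(w;a,b;k) = (M w a b k + M w b a k)/2`,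
`P(x,y;k,l) = S(x;y,k;l) - S(x;y,l;k) - S(y;x,k;l) + S(y;x,l;k)`,
`Q(x,y;k,l) = S(k;x,l;y) - S(l;x,k;y) - S(k;y,l;x) + S(l;y,k;x)`, `L = (5/12) P - (1/12) Q` (`mk4`).  The alternating
properties are clear (by antisymmetry: `L y x = - L x y`), `Cv4` too.  `L x y y k = M x y y k`: both sides are combinations
of the 12 values of `M` at the orders of `x, y, y, k`; relations: `M a b c d = - M b a c d` and
`∑_{orders of (b,c,d)} M a b c d = 0` (polarisation of `h`), for the orders of `x,y,y,k`.  `linarith` finds it. -/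
theorem pCON {F : Type} [Field F] (M : F4 F) (hM : ∀ v w z, M v v w z = 0) (hc : Cv4 M)
    (h : ∀ w v, M w v v v = 0) :
    ∃ L : F4 F, Cv4 L ∧ (∀ v k l, L v v k l = 0) ∧ (∀ v w k, L v w k k = 0) ∧
      ∀ x y k, L x y y k = M x y y k := by
  sorry

/-- PSL.  PROOF.  `kil`: `hFS` for `B = L`, and `Kil` is closed under differences.  `cl`: `L x (cl x) (cl x) = 0`.
`cst`: `cl (cst c)` is `lg (C c')` or `0`, `L (cst c) (lg (C c')) k = 0`. -/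
theorem pPSL {F : Type} [Field F]
    (hFS : ∀ B : P1 (RatFunc F) → (V (RatFunc F) →ₗ[ℚ] (V (RatFunc F) →ₗ[ℚ] ℚ)), Kil 2 B →
      Kil 3 fun x => B x (cl x))
    {Ψ : P1 (RatFunc F) → (V (RatFunc F) →ₗ[ℚ] ℚ)} (hΨ : Ps Ψ)
    {L : P1 (RatFunc F) → (V (RatFunc F) →ₗ[ℚ] V (RatFunc F) →ₗ[ℚ] ℚ)} (hL : Ls L) :
    Ps fun x => Ψ x - L x (cl x) := by
  sorry

/-- LAF.  Forms give functionals.  PROOF.  `kil`: `hF2` with `A a b = L4 a b` (`N = VK → VK → ℚ`), `sy2 A x = L4 (cl1 x) (cl x)`.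
`cst`: `cl1 (cst c) = lg (C (1 - c'))` or `0`, `cl (cst c) = lg (C c')` or `0`. -/
theorem pLAF {F : Type} [Field F]
    (hF2 : ∀ {G N : Type} [Field G] [AddCommGroup N] [Module ℚ N]
      (A : V G →ₗ[ℚ] V G →ₗ[ℚ] N), Al2 A → Kil 2 (sy2 A))
    (L4 : F4 F) (h1 : ∀ v k l, L4 v v k l = 0) (h2 : ∀ v w k, L4 v w k k = 0)
    (h3 : ∀ (c d u : F) k, L4 (lg (RatFunc.C c)) (lg (RatFunc.C d)) (lg (RatFunc.C u)) k = 0) :
    Ls fun x => L4 (cl1 x) (cl x) := by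
  sorry

/-- Y2A.  PROOF.  `x ↦ Ψ x ∘ cV : V F → ℚ` is `Kil 3` and `0` on constants; `hEX3` (`N = V F →ₗ ℚ`) gives `M`,
`Ψ x (cV u) = M (cl1 x) (cl x) (cl x) u`.  `L4 a b k l = M a b k (lc l) - M a b l (lc k)` (`mk4`), `L = L4 (cl1 x) (cl x)`; `Ls` by
`hLAF`.  `L x (cl x) (lg (C u)) = M (cl1 x) (cl x) (cl x) (lg u) - M (cl1 x) (cl x) (lg (C u)) (lc (cl x)) = Ψ x (lg (C u)) - 0`
(`lc_C`, `cV_lg`). -/
theorem pY2A {F : Type} [Field F] {cV : V F →ₗ[ℚ] V (RatFunc F)}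
    {lc : V (RatFunc F) →ₗ[ℚ] V F} {od : V (RatFunc F) →ₗ[ℚ] (F →₀ ℚ)} (hs : Spl cV lc od)
    (hEX3 : ∀ {N : Type} [AddCommGroup N] [Module ℚ N] (ψ : P1 (RatFunc F) → N), Kil 3 ψ →
      (∀ c, ψ (cst c) = 0) →
      ∃ M : V (RatFunc F) →ₗ[ℚ] V (RatFunc F) →ₗ[ℚ] V (RatFunc F) →ₗ[ℚ] N,
        (∀ v w, M v v w = 0) ∧ (∀ (c : F) v w, M (lg (RatFunc.C c)) v w = 0) ∧
        (∀ (c : F) v w, M v w (lg (RatFunc.C c)) = 0) ∧ ∀ x, ψ x = M (cl1 x) (cl x) (cl x))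
    (hLAF : ∀ L4 : F4 F, (∀ v k l, L4 v v k l = 0) → (∀ v w k, L4 v w k k = 0) →
      (∀ (c d u : F) k, L4 (lg (RatFunc.C c)) (lg (RatFunc.C d)) (lg (RatFunc.C u)) k = 0) →
      Ls fun x => L4 (cl1 x) (cl x))
    {Ψ : P1 (RatFunc F) → (V (RatFunc F) →ₗ[ℚ] ℚ)} (hΨ : Ps Ψ) :
    ∃ L, Ls L ∧ ∀ (x : P1 (RatFunc F)) (u : F),
      L x (cl x) (lg (RatFunc.C u)) = Ψ x (lg (RatFunc.C u)) := by
  sorry

/-- MPS.  PROOF.  `hEX3` with `N = VK →ₗ ℚ` gives `M`, `Ψ x k = M (cl1 x) (cl x) (cl x) k`.  `M' a b c k = M a b c (Eo (od k))`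
(`mk4`): constants vanish in the first (so in the second, `M` is alternating in the first two), third and fourth variable,
and `Ψ x k = Ψ x (κ k) + Ψ x (Eo (od k)) = Ψ x (Eo (od k))` (`hs.dec`, `hu`, `span_lg`). -/
theorem pMPS {F : Type} [Field F] {cV : V F →ₗ[ℚ] V (RatFunc F)}
    {lc : V (RatFunc F) →ₗ[ℚ] V F} {od : V (RatFunc F) →ₗ[ℚ] (F →₀ ℚ)} (hs : Spl cV lc od)
    (hEX3 : ∀ {N : Type} [AddCommGroup N] [Module ℚ N] (ψ : P1 (RatFunc F) → N), Kil 3 ψ →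
      (∀ c, ψ (cst c) = 0) →
      ∃ M : V (RatFunc F) →ₗ[ℚ] V (RatFunc F) →ₗ[ℚ] V (RatFunc F) →ₗ[ℚ] N,
        (∀ v w, M v v w = 0) ∧ (∀ (c : F) v w, M (lg (RatFunc.C c)) v w = 0) ∧
        (∀ (c : F) v w, M v w (lg (RatFunc.C c)) = 0) ∧ ∀ x, ψ x = M (cl1 x) (cl x) (cl x))
    {Ψ : P1 (RatFunc F) → (V (RatFunc F) →ₗ[ℚ] ℚ)} (hΨ : Ps Ψ)
    (hu : ∀ x (u : F), Ψ x (lg (RatFunc.C u)) = 0) : ∃ M : F4 F, Fm Ψ M := by
  sorry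

/-- PHI.  PROOF.  `M` vanishes on constants.  By `hM.eq` and `XS.lean`: `Ψ (x1 a p) k = M (E p) (E a) (E a) k`,
`Ψ (x1 b p) k = M (E p) (E b) (E b) k`, `Ψ (x2 a b 1) k = - M (E b) (E a - E b) (E a - E b) k`,
`Ψ (x2 a b ((p-b)/(p-a))) k = M (E p - E b) (E a - E b) (E a - E b) k`; so with `k = E a`
`M p a b a + M p b a a = Ψ (x1 a p) (E a) + Ψ (x1 b p) (E a) - Ψ (x2 a b _) (E a) + Ψ (x2 a b 1) (E a)`, and
`M p a a b = Ψ (x1 a p) (E b)`.  `h3`. -/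
theorem pPHI {F : Type} [Field F] {Ψ : P1 (RatFunc F) → (V (RatFunc F) →ₗ[ℚ] ℚ)} {M φ : F4 F}
    (hM : Fm Ψ M) (h3 : ∀ w a b, 3 * φ w a a b = M w a a b + M w a b a + M w b a a) :
    Fml φ Ψ := by
  sorry

/-- L1C.  PROOF.  `D' a b c = if a = b then 0 else ext0 (D a b) c`.  `L x k l = -3 ∑_a ∑_b od(k)_a od(l)_b D' a b (vi x)`
(a finite double sum; bilinear in `k, l`: e.g. `Finsupp.linearCombination ℚ (fun a => Finsupp.linearCombination ℚ fun b => _)`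
composed with `od`).  `D' b a = - D' a b` (`hsym` and `one_sub`).  `kil`: for `α ∈ R 2 K`, `mapDomain vi α ∈ R 2 F` (`hvi.kil` with
`k = 0`) is killed by `ext0 (D a b)` (`hROG`).  `alt`: antisymmetry.  `cst` and the second claim: `od (lg (C u)) = 0`. -/
theorem pL1C {F : Type} [Field F] {cV : V F →ₗ[ℚ] V (RatFunc F)}
    {lc : V (RatFunc F) →ₗ[ℚ] V F} {od : V (RatFunc F) →ₗ[ℚ] (F →₀ ℚ)} (hs : Spl cV lc od)
    {vi : P1 (RatFunc F) → P1 F} (hvi : Vinf vi)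
    (hROG : ∀ D : F → ℚ, FT5 D → Kil 2 (ext0 D)) (D : F → F → F → ℚ)
    (hD : ∀ a b, a ≠ b → FT5 (D a b)) (hsym : ∀ a b, a ≠ b → ∀ c, D b a c = D a b (1 - c)) :
    ∃ L, Ls L ∧ (∀ x (u : F) k, L x (lg (RatFunc.C u)) k = 0) ∧
      ∀ x a b, a ≠ b → L x (E a) (E b) = -3 * ext0 (D a b) (vi x) := by
  sorry

/-- VAN.  `D_{ab} c = φ₀ (E (a + c(b-a))) (E a) (E a) (E b)`.  PROOF.  `a = b`: `hcal` (first part; `e X l = E l`).  `p = a`: third part.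
`p = b`: `φ₁ (E b) (E a) (E a) (E b) = φ₁ (E b) (E a) (E b) (E b)` (second part) `= φ₁ (E b) (E b) (E b) (E a) = 0` (`s12`, `s23`, third
part).  Otherwise subtract `f0` from `f1`: `3 φ₁(..) - 3 φ₀(..) = - L (x1 a p) (cl _) (E a + E b) - L (x1 b p) (cl _) (E a) +
L (x2 a b c) (cl _) (E a) - L (x2 a b 1) (cl _) (E a)`, `c = (p-b)/(p-a)`.  `vi (x1 a p) = none` (`hvi.lin`), so
`L (x1 a p) = 0` on `E`'s (`ext0 _ none = 0`; `L (E a) (E a) = 0` as `L x` is alternating, constants vanish in both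
variables); `vi (x2 a b 1) = some 1`, `D_{ab} 1 = 0`; `vi (x2 a b c) = some c` (`hvi.frac`):
`L (x2 a b c) (E a - E b) (E a) = L (x2 a b c) (E a) (E b) = -3 D_{ab} c`.  And `D_{ab} c = φ₀ (E p) (E a) (E a) (E b)`: with
`l = (p-a)/(b-a)`, `c = 1 - l⁻¹`, `D c = - D l⁻¹ = D l`, `a + l(b-a) = p`. -/
theorem pVAN {F : Type} [Field F] {vi : P1 (RatFunc F) → P1 F} (hvi : Vinf vi)
    {Ψ0 Ψ1 : P1 (RatFunc F) → (V (RatFunc F) →ₗ[ℚ] ℚ)}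
    {L : P1 (RatFunc F) → (V (RatFunc F) →ₗ[ℚ] V (RatFunc F) →ₗ[ℚ] ℚ)} (hL : Ls L)
    (hLc : ∀ x (u : F) k, L x (lg (RatFunc.C u)) k = 0) {φ0 φ1 : F4 F}
    (hD : ∀ a b : F, a ≠ b → FT5 fun c : F => φ0 (E (a + c * (b - a))) (E a) (E a) (E b))
    (hLE : ∀ x a b, a ≠ b → L x (E a) (E b) =
      -3 * ext0 (fun c : F => φ0 (E (a + c * (b - a))) (E a) (E a) (E b)) (vi x))
    (h01 : ∀ x k, Ψ1 x k = Ψ0 x k - L x (cl x) k) (f0 : Fml φ0 Ψ0) (f1 : Fml φ1 Ψ1)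
    (hφ1 : Frm φ1) (hcal : Cal φ1 RatFunc.X) (p a b : F) :
    φ1 (E p) (E a) (E a) (E b) = 0 := by
  sorry

/-- Y2.  PROOF.  (1) `hY2A` gives `L0`; `Ψ0 x = Ψ x - L0 x (cl x)` is `Ps` (`hPSL`) and `Ψ0 x (lg (C u)) = 0`.
(2) `hMPS`, `hSYM`: `M0`, `φ0` for `Ψ0`; `Sv φ0 x` for all `x`: `φ0 (cl1 x) (cl x)³ = M0 (..) = Ψ0 x (cl x) = 0`.  `Fml φ0 Ψ0` (`hPHI`).
`hFT`: `D_{ab}` is `FT5`.  (3) `hL1C` for `D a b c = φ0 (E (a + c(b-a))) (E a) (E a) (E b)` gives `L1`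
(`hsym`: `b + c(a-b) = a + (1-c)(b-a)` and `φ(p;b,b,a) = φ(p;a,a,b)` by `Cal φ0 X`, `s12`, `s23`); `Ψ1 x = Ψ0 x - L1 x (cl x)` is `Ps`, zero
on constants.  (4) `M1`, `φ1` for `Ψ1`; `hVAN` and `hZ2`: `φ1 = 0`, so `M1 w v v v = 0`.  (5) `hCON`: `L4`; `hLAF`:
`L2 x = L4 (cl1 x) (cl x)` is `Ls`, `L2 x (cl x) k = M1 (cl1 x) (cl x) (cl x) k = Ψ1 x k`.  (6) `L = L0 + L1 + L2` (`Ls` is closed
under sums). -/
theorem pY2 {F : Type} [Field F]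
    (hY2A : ∀ {Ψ : P1 (RatFunc F) → (V (RatFunc F) →ₗ[ℚ] ℚ)}, Ps Ψ →
      ∃ L, Ls L ∧ ∀ (x : P1 (RatFunc F)) (u : F),
        L x (cl x) (lg (RatFunc.C u)) = Ψ x (lg (RatFunc.C u)))
    (hPSL : ∀ {Ψ : P1 (RatFunc F) → (V (RatFunc F) →ₗ[ℚ] ℚ)}, Ps Ψ →
      ∀ {L : P1 (RatFunc F) → (V (RatFunc F) →ₗ[ℚ] V (RatFunc F) →ₗ[ℚ] ℚ)}, Ls L →
        Ps fun x => Ψ x - L x (cl x))
    (hMPS : ∀ {Ψ : P1 (RatFunc F) → (V (RatFunc F) →ₗ[ℚ] ℚ)}, Ps Ψ →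
      (∀ x (u : F), Ψ x (lg (RatFunc.C u)) = 0) → ∃ M : F4 F, Fm Ψ M)
    (hSYM : ∀ M : F4 F, (∀ v w z, M v v w z = 0) → Cv4 M →
      ∃ φ : F4 F, Frm φ ∧ (∀ w v, φ w v v v = M w v v v) ∧
        ∀ w a b, 3 * φ w a a b = M w a a b + M w a b a + M w b a a)
    (hPHI : ∀ {Ψ : P1 (RatFunc F) → (V (RatFunc F) →ₗ[ℚ] ℚ)} {M φ : F4 F}, Fm Ψ M →
      (∀ w a b, 3 * φ w a a b = M w a a b + M w a b a + M w b a a) → Fml φ Ψ)
    (hCal : ∀ φ : F4 F, Frm φ → (∀ x, Sv φ x) → Cal φ RatFunc.X)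
    (hFT : ∀ φ : F4 F, Frm φ → (∀ x, Sv φ x) → ∀ a b : F, a ≠ b →
      FT5 fun c : F => φ (E (a + c * (b - a))) (E a) (E a) (E b))
    (hL1C : ∀ D : F → F → F → ℚ, (∀ a b, a ≠ b → FT5 (D a b)) →
      (∀ a b, a ≠ b → ∀ c, D b a c = D a b (1 - c)) →
      ∃ L, Ls L ∧ (∀ x (u : F) k, L x (lg (RatFunc.C u)) k = 0) ∧
        ∃ vi : P1 (RatFunc F) → P1 F, Vinf vi ∧
          ∀ x a b, a ≠ b → L x (E a) (E b) = -3 * ext0 (D a b) (vi x))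
    (hVAN : ∀ {vi : P1 (RatFunc F) → P1 F}, Vinf vi →
      ∀ {Ψ0 Ψ1 : P1 (RatFunc F) → (V (RatFunc F) →ₗ[ℚ] ℚ)}
        {L : P1 (RatFunc F) → (V (RatFunc F) →ₗ[ℚ] V (RatFunc F) →ₗ[ℚ] ℚ)}, Ls L →
      (∀ x (u : F) k, L x (lg (RatFunc.C u)) k = 0) → ∀ {φ0 φ1 : F4 F},
      (∀ a b : F, a ≠ b → FT5 fun c : F => φ0 (E (a + c * (b - a))) (E a) (E a) (E b)) →
      (∀ x a b, a ≠ b → L x (E a) (E b) =
        -3 * ext0 (fun c : F => φ0 (E (a + c * (b - a))) (E a) (E a) (E b)) (vi x)) →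
      (∀ x k, Ψ1 x k = Ψ0 x k - L x (cl x) k) → Fml φ0 Ψ0 → Fml φ1 Ψ1 → Frm φ1 →
      Cal φ1 RatFunc.X → ∀ p a b : F, φ1 (E p) (E a) (E a) (E b) = 0)
    (hZ2 : ∀ φ : F4 F, Frm φ → (∀ x, Sv φ x) →
      (∀ p a b, φ (E p) (E a) (E a) (E b) = 0) → φ = 0)
    (hCON : ∀ M : F4 F, (∀ v w z, M v v w z = 0) → Cv4 M → (∀ w v, M w v v v = 0) →
      ∃ L : F4 F, Cv4 L ∧ (∀ v k l, L v v k l = 0) ∧ (∀ v w k, L v w k k = 0) ∧
        ∀ x y k, L x y y k = M x y y k)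
    (hLAF : ∀ L4 : F4 F, (∀ v k l, L4 v v k l = 0) → (∀ v w k, L4 v w k k = 0) →
      (∀ (c d u : F) k, L4 (lg (RatFunc.C c)) (lg (RatFunc.C d)) (lg (RatFunc.C u)) k = 0) →
      Ls fun x => L4 (cl1 x) (cl x))
    {Ψ : P1 (RatFunc F) → (V (RatFunc F) →ₗ[ℚ] ℚ)} (hΨ : Ps Ψ) :
    ∃ L, Ls L ∧ ∀ (x : P1 (RatFunc F)) k, Ψ x k = L x (cl x) k := by
  sorry

/-- Y3A.  PROOF.  `x ↦ (u, w ↦ L x (cV u) (cV w))` (`N = V F →ₗ V F →ₗ ℚ`) is `Kil 2`, zero on constants; `hEX2`: `A`.  Replace `A` by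
`A' a b u w = (A a b u w - A a b w u)/2` (same values on symbols, as `L x` is antisymmetric), alternating in `u, w`.
`χ v₁ v₂ v₃ v₄ = ∑` over the six ways to choose `i < j` and the complement `k < l`, with the sign of the permutation `(i,j,k,l)`, of
`A' v_i v_j (lc v_k) (lc v_l)`: signs `12|34 +`, `13|24 -`, `14|23 +`, `23|14 +`, `24|13 -`, `34|12 +` (`mk4`).  `A'` vanishes on
constants in the first two variables (`A (lg (C c)) v = 0`, `Al2 A`).  If three of the variables are constants every term is zero.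
`χ (cl1 x) (cl x) (lg (C u)) (lg (C w))`: only `12|34` survives: `A' (cl1 x) (cl x) (lg u) (lg w)`. -/
theorem pY3A {F : Type} [Field F] {cV : V F →ₗ[ℚ] V (RatFunc F)}
    {lc : V (RatFunc F) →ₗ[ℚ] V F} {od : V (RatFunc F) →ₗ[ℚ] (F →₀ ℚ)} (hs : Spl cV lc od)
    (hEX2 : ∀ {N : Type} [AddCommGroup N] [Module ℚ N] (ψ : P1 (RatFunc F) → N), Kil 2 ψ →
      (∀ c, ψ (cst c) = 0) → ∃ A : V (RatFunc F) →ₗ[ℚ] V (RatFunc F) →ₗ[ℚ] N, Al2 A ∧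
        (∀ (c : F) v, A (lg (RatFunc.C c)) v = 0) ∧ ∀ x, ψ x = A (cl1 x) (cl x))
    {L : P1 (RatFunc F) → (V (RatFunc F) →ₗ[ℚ] V (RatFunc F) →ₗ[ℚ] ℚ)} (hL : Ls L) :
    ∃ χ : F4 F, Al4 χ ∧
      (∀ (a b c : F) k, χ (lg (RatFunc.C a)) (lg (RatFunc.C b)) (lg (RatFunc.C c)) k = 0) ∧
      ∀ x (u w : F), L x (lg (RatFunc.C u)) (lg (RatFunc.C w)) =
        χ (cl1 x) (cl x) (lg (RatFunc.C u)) (lg (RatFunc.C w)) := by
  sorry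

/-- Y3B.  PROOF.  `x ↦ (k, u ↦ L x k (cV u))` (`N = VK →ₗ V F →ₗ ℚ`) is `Kil 2`, zero on constants (`L (cst c) k (cV u) =
- L (cst c) (cV u) k = 0`); `hEX2`: `A`.  `T a b k u = A a b (Eo (od k)) u`: still `L x k (cV u) = T (cl1 x) (cl x) k u`, as
`L x (κ k) (cV u) = 0` (`huu`).  For fixed `u`, `T _ _ _ u` satisfies the hypotheses of `hSPN`: `T (cl1 x) (cl x) (cl x) u =
L x (cl x) (cV u) = 0`.  So it is `Al3` and vanishes on constants in all variables.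
`χ v₁ v₂ v₃ v₄ = T v₁ v₂ v₃ (lc v₄) - T v₁ v₂ v₄ (lc v₃) + T v₁ v₃ v₄ (lc v₂) - T v₂ v₃ v₄ (lc v₁)` (`mk4`) is `Al4`, zero if three
variables are constants, and `χ (cl1 x) (cl x) k (lg (C u)) = T (cl1 x) (cl x) k (lg u)`. -/
theorem pY3B {F : Type} [Field F] {cV : V F →ₗ[ℚ] V (RatFunc F)}
    {lc : V (RatFunc F) →ₗ[ℚ] V F} {od : V (RatFunc F) →ₗ[ℚ] (F →₀ ℚ)} (hs : Spl cV lc od)
    (hEX2 : ∀ {N : Type} [AddCommGroup N] [Module ℚ N] (ψ : P1 (RatFunc F) → N), Kil 2 ψ →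
      (∀ c, ψ (cst c) = 0) → ∃ A : V (RatFunc F) →ₗ[ℚ] V (RatFunc F) →ₗ[ℚ] N, Al2 A ∧
        (∀ (c : F) v, A (lg (RatFunc.C c)) v = 0) ∧ ∀ x, ψ x = A (cl1 x) (cl x))
    (hSPN : ∀ T : V (RatFunc F) →ₗ[ℚ] V (RatFunc F) →ₗ[ℚ] V (RatFunc F) →ₗ[ℚ] ℚ,
      (∀ v w, T v v w = 0) → (∀ (c : F) v w, T (lg (RatFunc.C c)) v w = 0) →
      (∀ (c : F) v w, T v w (lg (RatFunc.C c)) = 0) →
      (∀ x : P1 (RatFunc F), T (cl1 x) (cl x) (cl x) = 0) → Al3 T)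
    {L : P1 (RatFunc F) → (V (RatFunc F) →ₗ[ℚ] V (RatFunc F) →ₗ[ℚ] ℚ)} (hL : Ls L)
    (hcl : ∀ x k, L x (cl x) k = 0)
    (huu : ∀ x (u w : F), L x (lg (RatFunc.C u)) (lg (RatFunc.C w)) = 0) :
    ∃ χ : F4 F, Al4 χ ∧
      (∀ (a b c : F) k, χ (lg (RatFunc.C a)) (lg (RatFunc.C b)) (lg (RatFunc.C c)) k = 0) ∧
      ∀ x k (u : F), L x k (lg (RatFunc.C u)) = χ (cl1 x) (cl x) k (lg (RatFunc.C u)) := by
  sorry

/-- Y3C.  PROOF.  `L' x = L x - L (cst (vi x))` is `Kil 2` (`α ∈ R 2 K`, `mapDomain vi α ∈ R 2 F` by `hvi.kil`,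
`mapP C (..) ∈ R 2 K` by `hF`; `cst = Option.map C`) and zero on constants (`hvi.cst`).  `hEX2` (`N = VK →ₗ VK →ₗ ℚ`): `A`; replace by
`A' a b k l = (A a b k l - A a b l k)/2`.  So `L x k l = A' (cl1 x) (cl x) k l + L (cst (vi x)) k l`.  `L (cst none) = 0` and
`L (cst (some 1)) = 0 = L (cst (some 0))` (`hFTR` for `L`; `D 1 = - D 0`, `one_sub`).  Constants vanish in `L x` in both variables.
`x1 a p`: `vi = none`: `0 = L (x1 a p) (cl _) k = A' (E p) (E a) (E a) k` (`p ≠ a`; `p = a` is trivial).  `x2 a b 1`: `vi = some 1`: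
`0 = - A' (E b) (E a - E b) (E a - E b) k`, so `A' (E b) (E a) (E b) k = 0`.  `x2 a b c`, `c = (p-b)/(p-a)`, `k = E a`:
`0 = A' (E p - E b) (E a - E b) (E a - E b) (E a) + L (cst c) (E a - E b) (E a)`; the first term is `0` by the two facts and
`A' _ _ k k = 0`; so `L (cst (some c)) (E b) (E a) = 0`.  Every `c ≠ 0, 1` is such a quotient for given `a ≠ b`:
`p = (b - c a)/(1 - c)`.  So `L (cst c)` is zero on pairs of `E`'s and on constants, hence zero (`hs.dec`). -/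
theorem pY3C {F : Type} [Field F] {cV : V F →ₗ[ℚ] V (RatFunc F)}
    {lc : V (RatFunc F) →ₗ[ℚ] V F} {od : V (RatFunc F) →ₗ[ℚ] (F →₀ ℚ)} (hs : Spl cV lc od)
    {vi : P1 (RatFunc F) → P1 F} (hvi : Vinf vi)
    (hF : ∀ α ∈ R 2 F, mapP (RatFunc.C : F →+* RatFunc F) α ∈ R 2 (RatFunc F))
    (hFTR : ∀ {G N : Type} [Field G] [AddCommGroup N] [Module ℚ N] (ψ : P1 G → N), Kil 2 ψ →
      FT5 (fun x : G => ψ (some x)) ∧ ψ none = 0)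
    (hEX2 : ∀ {N : Type} [AddCommGroup N] [Module ℚ N] (ψ : P1 (RatFunc F) → N), Kil 2 ψ →
      (∀ c, ψ (cst c) = 0) → ∃ A : V (RatFunc F) →ₗ[ℚ] V (RatFunc F) →ₗ[ℚ] N, Al2 A ∧
        (∀ (c : F) v, A (lg (RatFunc.C c)) v = 0) ∧ ∀ x, ψ x = A (cl1 x) (cl x))
    {L : P1 (RatFunc F) → (V (RatFunc F) →ₗ[ℚ] V (RatFunc F) →ₗ[ℚ] ℚ)} (hL : Ls L)
    (hcl : ∀ x k, L x (cl x) k = 0) (hu : ∀ x (u : F) k, L x (lg (RatFunc.C u)) k = 0) :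
    ∀ c, L (cst c) = 0 := by
  sorry

/-- Y3D.  PROOF.  `hEX2` for `L` (`N = VK →ₗ VK →ₗ ℚ`): `A`.  `A' a b k l = (A a b (Eo (od k)) (Eo (od l)) - A a b (Eo (od l)) (Eo (od k)))/2`
(`mk4`): `L x k l = A' (cl1 x) (cl x) k l` (constants vanish in `L x`, `L x` antisymmetric), constants vanish in all variables,
`A' a a = 0`, `A' a b k k = 0`.  For fixed `l`: `hSPN` for `T a b k = A' a b k l`: `T (cl1 x) (cl x) (cl x) = L x (cl x) l = 0`.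
So `A' a b b l = 0` and `A'` is `Al4`. -/
theorem pY3D {F : Type} [Field F] {cV : V F →ₗ[ℚ] V (RatFunc F)}
    {lc : V (RatFunc F) →ₗ[ℚ] V F} {od : V (RatFunc F) →ₗ[ℚ] (F →₀ ℚ)} (hs : Spl cV lc od)
    (hEX2 : ∀ {N : Type} [AddCommGroup N] [Module ℚ N] (ψ : P1 (RatFunc F) → N), Kil 2 ψ →
      (∀ c, ψ (cst c) = 0) → ∃ A : V (RatFunc F) →ₗ[ℚ] V (RatFunc F) →ₗ[ℚ] N, Al2 A ∧
        (∀ (c : F) v, A (lg (RatFunc.C c)) v = 0) ∧ ∀ x, ψ x = A (cl1 x) (cl x))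
    (hSPN : ∀ T : V (RatFunc F) →ₗ[ℚ] V (RatFunc F) →ₗ[ℚ] V (RatFunc F) →ₗ[ℚ] ℚ,
      (∀ v w, T v v w = 0) → (∀ (c : F) v w, T (lg (RatFunc.C c)) v w = 0) →
      (∀ (c : F) v w, T v w (lg (RatFunc.C c)) = 0) →
      (∀ x : P1 (RatFunc F), T (cl1 x) (cl x) (cl x) = 0) → Al3 T)
    {L : P1 (RatFunc F) → (V (RatFunc F) →ₗ[ℚ] V (RatFunc F) →ₗ[ℚ] ℚ)} (hL : Ls L)
    (hcl : ∀ x k, L x (cl x) k = 0) (hu : ∀ x (u : F) k, L x (lg (RatFunc.C u)) k = 0)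
    (hc : ∀ c, L (cst c) = 0) :
    ∃ χ : F4 F, Al4 χ ∧
      (∀ (a b c : F) k, χ (lg (RatFunc.C a)) (lg (RatFunc.C b)) (lg (RatFunc.C c)) k = 0) ∧
      ∀ x k l, L x k l = χ (cl1 x) (cl x) k l := by
  sorry

/-- Y3.  PROOF.  `hA` gives `χ₂`, `L' x = L x - χ₂ (cl1 x) (cl x)` is `Ls` (`hLAF` and differences), `L' x (cl x) k = 0` (`Al4`),
`L' x u w = 0` on constants.  `hB`: `χ₃`, `L'' = L' - χ₃ (cl1 x) (cl x)`: `L'' x k u = 0` for constants `u`, so `L'' x u k = 0`.  `hCc`: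
`L'' (cst c) = 0`.  `hD`: `χ₄`.  `χ = χ₂ + χ₃ + χ₄`. -/
theorem pY3 {F : Type} [Field F]
    (hLAF : ∀ L4 : F4 F, (∀ v k l, L4 v v k l = 0) → (∀ v w k, L4 v w k k = 0) →
      (∀ (c d u : F) k, L4 (lg (RatFunc.C c)) (lg (RatFunc.C d)) (lg (RatFunc.C u)) k = 0) →
      Ls fun x => L4 (cl1 x) (cl x))
    (hA : ∀ {L : P1 (RatFunc F) → (V (RatFunc F) →ₗ[ℚ] V (RatFunc F) →ₗ[ℚ] ℚ)}, Ls L →
      ∃ χ : F4 F, Al4 χ ∧
        (∀ (a b c : F) k, χ (lg (RatFunc.C a)) (lg (RatFunc.C b)) (lg (RatFunc.C c)) k = 0) ∧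
        ∀ x (u w : F), L x (lg (RatFunc.C u)) (lg (RatFunc.C w)) =
          χ (cl1 x) (cl x) (lg (RatFunc.C u)) (lg (RatFunc.C w)))
    (hB : ∀ {L : P1 (RatFunc F) → (V (RatFunc F) →ₗ[ℚ] V (RatFunc F) →ₗ[ℚ] ℚ)}, Ls L →
      (∀ x k, L x (cl x) k = 0) →
      (∀ x (u w : F), L x (lg (RatFunc.C u)) (lg (RatFunc.C w)) = 0) →
      ∃ χ : F4 F, Al4 χ ∧
        (∀ (a b c : F) k, χ (lg (RatFunc.C a)) (lg (RatFunc.C b)) (lg (RatFunc.C c)) k = 0) ∧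
        ∀ x k (u : F), L x k (lg (RatFunc.C u)) = χ (cl1 x) (cl x) k (lg (RatFunc.C u)))
    (hCc : ∀ {L : P1 (RatFunc F) → (V (RatFunc F) →ₗ[ℚ] V (RatFunc F) →ₗ[ℚ] ℚ)}, Ls L →
      (∀ x k, L x (cl x) k = 0) → (∀ x (u : F) k, L x (lg (RatFunc.C u)) k = 0) →
      ∀ c, L (cst c) = 0)
    (hD : ∀ {L : P1 (RatFunc F) → (V (RatFunc F) →ₗ[ℚ] V (RatFunc F) →ₗ[ℚ] ℚ)}, Ls L →
      (∀ x k, L x (cl x) k = 0) → (∀ x (u : F) k, L x (lg (RatFunc.C u)) k = 0) →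
      (∀ c, L (cst c) = 0) →
      ∃ χ : F4 F, Al4 χ ∧
        (∀ (a b c : F) k, χ (lg (RatFunc.C a)) (lg (RatFunc.C b)) (lg (RatFunc.C c)) k = 0) ∧
        ∀ x k l, L x k l = χ (cl1 x) (cl x) k l)
    {L : P1 (RatFunc F) → (V (RatFunc F) →ₗ[ℚ] V (RatFunc F) →ₗ[ℚ] ℚ)} (hL : Ls L)
    (hcl : ∀ x k, L x (cl x) k = 0) :
    ∃ χ : F4 F, Al4 χ ∧
      (∀ (a b c : F) k, χ (lg (RatFunc.C a)) (lg (RatFunc.C b)) (lg (RatFunc.C c)) k = 0) ∧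
      ∀ x k l, L x k l = χ (cl1 x) (cl x) k l := by
  sorry

/-- Y4.  PROOF.  `x1 a p` (`p ≠ a`): `χ (E p - g) (E a - g) k l = 0`, `g = lg (C (p-a))`, so
`χ (E p) (E a) k l = χ g (E a) k l + χ (E p) g k l`.  `χ` is zero if three variables are constants (`h3`, `Al4`).  Taking `k, l`
constants, then one constant, then none (and using the alternating property to move variables): `χ` is zero on all
quadruples of constants and `E`'s (also for `p = a`), so `χ = 0` by `hs.dec`. -/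
theorem pY4 {F : Type} [Field F] {cV : V F →ₗ[ℚ] V (RatFunc F)}
    {lc : V (RatFunc F) →ₗ[ℚ] V F} {od : V (RatFunc F) →ₗ[ℚ] (F →₀ ℚ)} (hs : Spl cV lc od)
    (χ : F4 F) (h4 : Al4 χ)
    (h3 : ∀ (a b c : F) k, χ (lg (RatFunc.C a)) (lg (RatFunc.C b)) (lg (RatFunc.C c)) k = 0)
    (hx : ∀ x k l, χ (cl1 x) (cl x) k l = 0) : χ = 0 := by
  sorry

end

end Pool.Agent.Helper19.HV
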