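import Pool.Agent.Helper19.HV.Gam

/-!
# Project HV: statements, part C (the complexes)

Every `def sX : Prop` is one module: prove `theorem mX : sX` (or `theorem mX : sY → sZ → sX`, see the list of
needed facts at the end of the docstring).  `K = RatFunc F`; basic facts are in `Gam.lean`.
-/

set_option autoImplicit false

open scoped TensorProduct

namespace Pool.Agent.Helper19.HV

noncomputable section

open PL

/-- GNR.  Generators of `W G j`.  PROOF.  By `wext` it suffices to compare on `pr G j v`, `v : Fin j → V G`; the two sides are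
multilinear in `v` and agree if all `v i` are in the range of `lg`, which spans `V G` (`PL.span_lg`).  General lemma (by
induction on the number of places which are not in `S`, `Submodule.span_induction` in one place): a multilinear map which is
zero on all families with values in `S`, `span S = ⊤`, is zero.
`theorem mGNR : sGNR`. -/
def sGNR : Prop := ∀ (G N : Type) [Field G] [AddCommGroup N] [Module ℚ N] (j : ℕ)
    (f g : W G j →ₗ[ℚ] N),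
    (∀ u : Fin j → G, f (pr G j fun i => lg (u i)) = g (pr G j fun i => lg (u i))) → f = g

/-- GNA.  Generators of `W K (j + 1)` at the point `a`.  PROOF.  `S = {lg u : u a unit at a} ∪ {E a}` spans `V K`: every `f ≠ 0` is
`(t - a)^n g` with `g` a unit at `a` (`n ∈ ℤ`; multiplicities of the root `a` in numerator and denominator).  `f - g` gives
an alternating map `A` on `Fin (j+1)`; by the general lemma of GNR it suffices that `A v = 0` if all `v i ∈ S`: no place is `E a`: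
`h0`; two places are `E a`: alternating; exactly one place `i`: exchange it with the last place (`AlternatingMap.map_swap`): `h1`.
`theorem mGNA : sGNA`. -/
def sGNA : Prop := ∀ (F N : Type) [Field F] [AddCommGroup N] [Module ℚ N] (a : F) (j : ℕ)
    (f g : W (RatFunc F) (j + 1) →ₗ[ℚ] N),
    (∀ (u : Fin (j + 1) → RatFunc F) (c : Fin (j + 1) → F), (∀ i, UnitAt a (u i) (c i)) →
      f (pr (RatFunc F) (j + 1) fun i => lg (u i)) =
        g (pr (RatFunc F) (j + 1) fun i => lg (u i))) →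
    (∀ (u : Fin j → RatFunc F) (c : Fin j → F), (∀ i, UnitAt a (u i) (c i)) →
      f (pr (RatFunc F) (j + 1) (Fin.snoc (α := fun _ => V (RatFunc F))
        (fun i => lg (u i)) (lg (RatFunc.X - RatFunc.C a)))) =
      g (pr (RatFunc F) (j + 1) (Fin.snoc (α := fun _ => V (RatFunc F))
        (fun i => lg (u i)) (lg (RatFunc.X - RatFunc.C a))))) → f = g

/-- DEX.  Existence and uniqueness of the differential.  PROOF.  As `PL.x4_isDif`, `PL.x4_unique` (`PL.X4`), where the hypotheses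
`hR` were only used through `wd2`, `wd3` (`PL.X1`): `R 2 G ≤ ker δ2 = ker δ2o` and `pre2 = x1_lin ∘ δ2o`; `R (q+3) G ≤ ker (δ (R (q+2) G))`
and `pre3 = x1_ten ∘ δo`.  Uniqueness: `gext`; for `k = 0` the target is `PUnit`.
`theorem mDEX : sDEX`. -/
def sDEX : Prop := ∀ (G : Type) [Field G], (∀ k, R (k + 2) G ≤ AA (k + 2) G) → ∃! d, IsDif G d

/-- CEX.  PROOF.  `L` of `PL.exists_map RatFunc.C`; `c 0 j = 0`, `c 1 j = Λ^(j+1) L`, `c (q+2) j = (Submodule.mapQ _ _ (mapP C) _) ⊗ Λ^j L`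
(`exteriorPower.map`; or `exteriorPower.alternatingMapLinearEquiv` of `(pr K j).compLinearMap L`).
`theorem mCEX : sCEX`. -/
def sCEX : Prop := ∀ (F : Type) [Field F],
    (∀ q, ∀ α ∈ R (q + 2) F, mapP (RatFunc.C : F →+* RatFunc F) α ∈ R (q + 2) (RatFunc F)) →
      ∃ c, IsCst (F := F) c

/-- `w` is the map `y ↦ y ∧ (t - a)`. -/
structure IsW {F : Type} [Field F] (a : F)
    (w : ∀ k j : ℕ, Γ (RatFunc F) k j →ₗ[ℚ] Γ (RatFunc F) k (j + 1)) : Prop where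
  one : ∀ (j : ℕ) (v : Fin (j + 1) → V (RatFunc F)),
    w 1 j (pr (RatFunc F) (j + 1) v) =
      pr (RatFunc F) (j + 2) (Fin.snoc (α := fun _ => V (RatFunc F)) v (E a))
  two : ∀ (q j : ℕ) (x : P1 (RatFunc F)) (v : Fin j → V (RatFunc F)),
    w (q + 2) j (tm q j x (pr (RatFunc F) j v)) =
      tm q (j + 1) x (pr (RatFunc F) (j + 1) (Fin.snoc (α := fun _ => V (RatFunc F)) v (E a)))

/-- WED.  PROOF.  `ω j = (-1)^j • wdg K j (E a) : W K j → W K (j+1)` sends `pr v` to `pr (snoc v (E a))`: `wdg_pr`,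
`Fin.snoc_eq_cons_rotate`, `AlternatingMap.map_perm`, `sign_finRotate`.  `w 0 j = 0`, `w 1 j = ω (j+1)`, `w (q+2) j = id ⊗ ω j`
(`LinearMap.lTensor`).
`theorem mWED : sWED`. -/
def sWED : Prop := ∀ (F : Type) [Field F] (a : F), ∃ w, IsW a w

/-- MWC.  PROOF.  (1) `m a k j = w k j ∘ c k j` satisfies `IsMul`: on the generators.  (2) For `IsMul m`: both sides agree on the
generators `pr F _ (lg ∘ u)`, `tm q j x (pr F j (lg ∘ u))` (`sGNR`; for `tm` also `gext` and `tmL`).  `k = 0`: `PUnit`.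
`theorem mMWC : sGNR → sWED → sMWC`. -/
def sMWC : Prop := ∀ (F : Type) [Field F] (c : ∀ k j : ℕ, Γ F k j →ₗ[ℚ] Γ (RatFunc F) k j),
    IsCst c → (∃ m, IsMul (F := F) m) ∧ ∀ m, IsMul (F := F) m → ∀ a : F, ∃ w, IsW a w ∧
      ∀ k j y, m a k j y = w k j (c k j y)

/-- KAP.  Contraction.  PROOF.  `f : V G → (V G [⋀^Fin j]→ₗ W H j)`, `f v = o v • (pr H j).compLinearMap l`;
`A = (-1)^j • AlternatingMap.alternatizeUncurryFin f`, i.e. `A v = (-1)^j ∑_i (-1)^i o (v i) • pr H j (l ∘ removeNth i v)`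
(`AlternatingMap.alternatizeUncurryFin_apply`), `κ` the linear map with `κ (pr v) = A v`
(`exteriorPower.alternatingMapLinearEquiv`).  For `v = snoc u w` with `o (u i) = 0` only `i = last` survives, with the sign
`(-1)^j (-1)^j = 1`.
`theorem mKAP : sKAP`. -/
def sKAP : Prop := ∀ (G H : Type) [Field G] [Field H] (o : V G →ₗ[ℚ] ℚ) (l : V G →ₗ[ℚ] V H)
    (j : ℕ), ∃ κ : W G (j + 1) →ₗ[ℚ] W H j,
      (∀ v : Fin (j + 1) → V G, (∀ i, o (v i) = 0) → κ (pr G (j + 1) v) = 0) ∧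
      ∀ (u : Fin j → V G) (w : V G), (∀ i, o (u i) = 0) →
        κ (pr G (j + 1) (Fin.snoc (α := fun _ => V G) u w)) = o w • pr H j fun i => l (u i)

/-- RHO.  The residues.  PROOF.  For `a` let `l` be the map of `PL.exists_lc a` (`PL.A3`) and `o v = od v a`.  For a unit `u` at `a` with value
`c`: `o (lg u) = 0` (`hs.val`, contraposition) and `l (lg u) = lg c`; `o (E a) = 1`.  `κ_j` of `sKAP`; `ρ a 0 j = 0`, `ρ a 1 j = κ_(j+1)`,
`ρ a (q+2) j = (Submodule.mapQ _ _ (spec a) _) ⊗ κ_j`.  Finiteness: `{w | {a | ρ a k j w ≠ 0}.Finite}` is a submodule containing the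
generators `pr v`, `tm q (j+1) x (pr v)`: for `a` outside the union of the supports of the `od (v i)` all `o (v i) = 0`.
`theorem mRHO : sKAP → sRHO`. -/
def sRHO : Prop := ∀ (F : Type) [Field F] (cV : V F →ₗ[ℚ] V (RatFunc F))
    (lc : V (RatFunc F) →ₗ[ℚ] V F) (od : V (RatFunc F) →ₗ[ℚ] (F →₀ ℚ)), Spl cV lc od →
    (∀ (q : ℕ) (a : F), ∀ α ∈ R (q + 2) (RatFunc F), spec a α ∈ R (q + 2) F) →
    ∃ ρ : ∀ (_ : F) (k j : ℕ), Γ (RatFunc F) k (j + 1) →ₗ[ℚ] Γ F k j,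
      (∀ a, IsR1 a (ρ a)) ∧ ∀ k j w, {a | ρ a k j w ≠ 0}.Finite

/-- REX.  PROOF.  Existence: every `x ∈ X` is `some a` (`none ∉ X`); `r k j w` is the finitely supported function
`x ↦ ρ a k j w` (`Finsupp.ofSupportFinite`; linear by `Finsupp.ext`).  Second claim: `ρ' k j w = ev k j (r k j w) ⟨some a, ha⟩`
(composition of `r k j` with `Finsupp.lapply`).
`theorem mREX : sREX`. -/
def sREX : Prop := ∀ (F : Type) [Field F] (X : Set (P1 F)), none ∉ X →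
    ((∃ ρ : ∀ (_ : F) (k j : ℕ), Γ (RatFunc F) k (j + 1) →ₗ[ℚ] Γ F k j,
      (∀ a, IsR1 a (ρ a)) ∧ ∀ k j w, {a | ρ a k j w ≠ 0}.Finite) → ∃ r : Res F X, IsRes r) ∧
    ∀ r : Res F X, IsRes r → ∀ (a : F) (ha : some a ∈ X), ∃ ρ, IsR1 a ρ ∧
      ∀ k j w, ev k j (r k j w) ⟨some a, ha⟩ = ρ k j w

/-- RRD.  PROOF.  Let `g` be a unit at `a` with value `c`, `lg c = 0`.  (V) `ρ 1 j (wdg (lg g) μ) = 0` for all `μ ∈ W K (j+1)`: by `sGNA` in
`μ` it suffices to take `μ = pr (lg ∘ u)` (`hρ.one0`) and `μ = pr (snoc (lg ∘ u) (E a))`: `wdg_pr`, `cons g (snoc u π) = snoc (cons g u) π`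
(`Fin.cons_snoc_eq_snoc_cons`), `hρ.one`: `pr (cons (lg c) _) = 0`.  (T) if `sym (q+2) (val a x) = 0` then
`ρ (q+2) j (tm q (j+1) x λ) = 0` for all `λ` (`sGNA`, `tmL`).
First claim.  `k = 0`: `PUnit`.  `k = q + 1 ≥ 2`: by `gext` and `sGNA` take `w = tm (q+1) (j+1) x λ`, `λ = pr (lg ∘ u)` or
`pr (snoc (lg ∘ u) (E a))`, `u` units.  `d w = tm q (j+2) x (wdg (cl x) λ)`.  If `val a x = some c`, `c ≠ 0` (`x = some f`, `f` a unit): both
sides by `hρ.two`, `two0`, `hd'.three` (`cl (val a x) = lg c`).  If `val a x` is `some 0` or `none`: `sym _ (val a x) = 0`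
(`sym_zero`, `sym_none`), both sides are `0` by (T).  `k = 1`: `d w = wdg (cl1 x) (wdg (cl x) λ)`.  `x = none`: zero.  `x = some f`, value
`c ≠ 0, 1`: `f`, `1 - f` are units with values `c`, `1 - c`.  Value `1`: (V) for `g = f` after `wdg_comm`; value `0`: (V) for `g = 1 - f`
(value `1`).  Value `∞`: `g = (1-f)/f = f⁻¹ - 1` is a unit with value `-1`, `lg (1-f) = lg f + lg g`, `wdg_wdg`, `wdg_comm` and (V)
(if `f = 1` the value is `1`, so `1 - f ≠ 0` here).  The right side is `0`: `sym 2 (val a x) = 0` for values `0, ∞`; for the value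
`1` use `hd'.two`: `cl (some 1) = 0`.
Second claim: the same with `λ ∈ W K 0` (`λ = pr ![]`; use `wext`): `k ≥ 2`: `ρ (tm q 1 x (pr ![cl x]))`: `x = some f`, `f` a unit: `two0`;
otherwise (T).  `k = 1`: `ρ 1 0 (wdg (cl1 x) (wdg (cl x) λ))` by the same cases, (V) and `one0`.
`theorem mRRD : sGNA → sRRD`. -/
def sRRD : Prop := ∀ (F : Type) [Field F] (a : F)
    (ρ : ∀ k j : ℕ, Γ (RatFunc F) k (j + 1) →ₗ[ℚ] Γ F k j) (d : Dif (RatFunc F)) (d' : Dif F),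
    IsR1 a ρ → IsDif (RatFunc F) d → IsDif F d' →
      (∀ k j w, ρ k (j + 1) (d k (j + 1) w) = d' k j (ρ (k + 1) j w)) ∧
        ∀ k w, ρ k 0 (d k 0 w) = 0

/-- RCM.  PROOF.  On the generators (`sGNR`, `gext`, `tmL`); `C c` (`c ≠ 0`) and `t - b` (`b ≠ a`) are units at `a` with values `c`,
`a - b` (`PL.val_C`, `PL.val_X`, `PL.val_add`), `val a (Option.map C x) = x`; if some `u i = 0` then `lg (C 0) = 0` and everything is `0`.
For `m b`, `b ≠ a`: `snoc (lg (C u)) (lg (t - b))` is `lg` of a family of units.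
`theorem mRCM : sGNR → sRCM`. -/
def sRCM : Prop := ∀ (F : Type) [Field F] (a : F)
    (ρ : ∀ k j : ℕ, Γ (RatFunc F) k (j + 1) →ₗ[ℚ] Γ F k j)
    (c : ∀ k j : ℕ, Γ F k j →ₗ[ℚ] Γ (RatFunc F) k j)
    (m : ∀ (_ : F) (k j : ℕ), Γ F k j →ₗ[ℚ] Γ (RatFunc F) k (j + 1)),
    IsR1 a ρ → IsCst c → IsMul m →
      (∀ k j z, ρ k j (c k (j + 1) z) = 0) ∧ (∀ k j y, ρ k j (m a k j y) = y) ∧
        ∀ b, b ≠ a → ∀ k j y, ρ k j (m b k j y) = 0

/-- DCM.  PROOF.  On the generators (`sGNR`, `gext`, `tmL`): `cl (Option.map C x) = lg (C _)`, `1 - C x = C (1 - x)`, `wdg_pr`, and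
`cons` commutes with `snoc` (`Fin.cons_snoc_eq_snoc_cons`).
`theorem mDCM : sGNR → sDCM`. -/
def sDCM : Prop := ∀ (F : Type) [Field F] (d : Dif (RatFunc F)) (d' : Dif F)
    (c : ∀ k j : ℕ, Γ F k j →ₗ[ℚ] Γ (RatFunc F) k j)
    (m : ∀ (_ : F) (k j : ℕ), Γ F k j →ₗ[ℚ] Γ (RatFunc F) k (j + 1)),
    IsDif (RatFunc F) d → IsDif F d' → IsCst c → IsMul m →
      (∀ k j z, d k j (c (k + 1) j z) = c k (j + 1) (d' k j z)) ∧
        ∀ a k j y, d k (j + 1) (m a (k + 1) j y) = m a k (j + 1) (d' k j y)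

/-- DDZ.  PROOF.  `gext`: `d (tm (q+1) j x l) = tm q (j+1) x (wdg (cl x) l)`; the second `d` gives `wdg (cl x) (wdg (cl x) l) = 0`
(`wdg_wdg`), for `k = 1`: `wdg (cl1 x) (wdg (cl x) (wdg (cl x) l)) = 0`; `k = 0`: `PUnit`.
`theorem mDDZ : sDDZ`. -/
def sDDZ : Prop := ∀ (G : Type) [Field G] (d : Dif G), IsDif G d →
    ∀ k j w, d k (j + 1) (d (k + 1) j w) = 0

/-- PRS.  Injectivity of the presentation.  PROOF.  `w` with `m a k j y = w k j (c k j y)` (`sMWC`) and `ρ` at `a`: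
`c k j z = 0` implies `m a k j z = 0`, so `z = ρ (m a k j z) = 0` (`a = 0`, say).  Second claim: apply `ρ` at `b` to the sum:
`ρ (c z) = 0`, `ρ (m a y_a)` is `y_b` for `a = b` and `0` otherwise, so `y = 0`, then `z = 0` by the first claim.
`theorem mPRS : sRCM → sMWC → sPRS`. -/
def sPRS : Prop := ∀ (F : Type) [Field F]
    (c : ∀ k j : ℕ, Γ F k j →ₗ[ℚ] Γ (RatFunc F) k j)
    (m : ∀ (_ : F) (k j : ℕ), Γ F k j →ₗ[ℚ] Γ (RatFunc F) k (j + 1)),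
    (∀ a : F, ∃ ρ, IsR1 a ρ) → IsCst c → IsMul m →
      (∀ k j z, c k j z = 0 → z = 0) ∧
      ∀ (k j : ℕ) (z : Γ F k (j + 1)) (y : F →₀ Γ F k j),
        c k (j + 1) z + y.sum (fun a y => m a k j y) = 0 → z = 0 ∧ y = 0

/-- BLD.  PROOF.  `Finsupp.linearCombination ℚ (x ↦ (the linear map W G j → N of Φ x))` kills `R (q+2) G`, so it descends to
`B (q+2) G → (W G j →ₗ N)`; `TensorProduct.lift`.
`theorem mBLD : sBLD`. -/
def sBLD : Prop := ∀ (G N : Type) [Field G] [AddCommGroup N] [Module ℚ N] (q j : ℕ)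
    (Φ : P1 G → (V G [⋀^Fin j]→ₗ[ℚ] N)), Kil (q + 2) Φ →
      ∃ g : Γ G (q + 2) j →ₗ[ℚ] N, ∀ x v, g (tm q j x (pr G j v)) = Φ x v

/-- KLF.  PROOF.  For `α ∈ R (q+2) G` and every `v`: `∑ α_x f (tm q j x (pr v)) = f ((class of α) ⊗ pr v) = 0`.
`theorem mKLF : sKLF`. -/
def sKLF : Prop := ∀ (G N : Type) [Field G] [AddCommGroup N] [Module ℚ N] (q j : ℕ)
    (f : Γ G (q + 2) j →ₗ[ℚ] N),
    Kil (q + 2) fun x : P1 G => (f ∘ₗ tmL q j x).compAlternatingMap (pr G j)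

/-- ALT.  Curried forms and alternating maps.  PROOF.  Direct constructions (`Fin 2`: `PL.x1_alt` in `PL.X1`; `Fin 4`: `map_update_add'` etc. by
`fin_cases` and `simp [Function.update]`, `map_eq_zero_of_eq'` by the 12 pairs: an `Al4` map is zero if any two variables are equal,
by exchanging neighbours); backwards `mk2`, `mk4` (`Lin.lean`) with `AlternatingMap.map_update_add`.
`theorem mALT : sALT`. -/
def sALT : Prop := ∀ (U N : Type) [AddCommGroup U] [Module ℚ U] [AddCommGroup N] [Module ℚ N],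
    (∀ l : U →ₗ[ℚ] N, ∃ A : U [⋀^Fin 1]→ₗ[ℚ] N, ∀ v, A v = l (v 0)) ∧
    (∀ A : U [⋀^Fin 1]→ₗ[ℚ] N, ∃ l : U →ₗ[ℚ] N, ∀ v, l v = A ![v]) ∧
    (∀ B : U →ₗ[ℚ] U →ₗ[ℚ] N, Al2 B → ∃ A : U [⋀^Fin 2]→ₗ[ℚ] N, ∀ v, A v = B (v 0) (v 1)) ∧
    (∀ A : U [⋀^Fin 2]→ₗ[ℚ] N, ∃ B : U →ₗ[ℚ] U →ₗ[ℚ] N, Al2 B ∧ ∀ a b, B a b = A ![a, b]) ∧
    (∀ B : U →ₗ[ℚ] U →ₗ[ℚ] U →ₗ[ℚ] U →ₗ[ℚ] N, Al4 B →
      ∃ A : U [⋀^Fin 4]→ₗ[ℚ] N, ∀ v, A v = B (v 0) (v 1) (v 2) (v 3)) ∧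
    ∀ A : U [⋀^Fin 4]→ₗ[ℚ] N, ∃ B : U →ₗ[ℚ] U →ₗ[ℚ] U →ₗ[ℚ] U →ₗ[ℚ] N, Al4 B ∧
      ∀ a b c d, B a b c d = A ![a, b, c, d]

/-- The extension of functionals on `𝓑_4`. -/
def sX4 (F : Type) [Field F] : Prop := ∀ ψ : P1 (RatFunc F) → ℚ, Kil 4 ψ →
    (∀ c, ψ (cst c) = 0) → ∃ Bf : P1 (RatFunc F) → (V (RatFunc F) →ₗ[ℚ] ℚ), Kil 3 Bf ∧
      (∀ c, Bf (cst c) = 0) ∧ ∀ x, ψ x = Bf x (cl x)

/-- The statement of the theorem Y2. -/
def sY2 (F : Type) [Field F] : Prop := ∀ Ψ : P1 (RatFunc F) → (V (RatFunc F) →ₗ[ℚ] ℚ), Ps Ψ →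
    ∃ L, Ls L ∧ ∀ (x : P1 (RatFunc F)) k, Ψ x k = L x (cl x) k

/-- The statement of the theorem Y3. -/
def sY3 (F : Type) [Field F] : Prop :=
  ∀ L : P1 (RatFunc F) → (V (RatFunc F) →ₗ[ℚ] V (RatFunc F) →ₗ[ℚ] ℚ), Ls L →
    (∀ x k, L x (cl x) k = 0) → ∃ χ : F4 F, Al4 χ ∧
      (∀ (a b c : F) k, χ (lg (RatFunc.C a)) (lg (RatFunc.C b)) (lg (RatFunc.C c)) k = 0) ∧
      ∀ x k l, L x k l = χ (cl1 x) (cl x) k l

/-- The statement of the theorem Y4. -/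
def sY4 (F : Type) [Field F] : Prop := ∀ χ : F4 F, Al4 χ →
    (∀ (a b c : F) k, χ (lg (RatFunc.C a)) (lg (RatFunc.C b)) (lg (RatFunc.C c)) k = 0) →
    (∀ x k l, χ (cl1 x) (cl x) k l = 0) → χ = 0

/-- E4.  PROOF.  Otherwise there is a functional `f` on `Γ K 4 0`, zero on `II c m 4 0 = range (c 4 0)`, with `f w ≠ 0`
(`Submodule.exists_le_ker_of_notMem`).  `ψ x = f (tm 2 0 x (pr K 0 ![]))` (= the alternating map of `sKLF` at `![]`) is `Kil 4`, `0` on constants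
(`hc.two` with the empty family).  `Bf` of `sX4`; with `sALT` (`Fin 1`) and `sBLD` (`q = 1`, `j = 1`) a functional `g` on `Γ K 3 1`,
`g (tm 1 1 x (pr K 1 v)) = Bf x (v 0)`.  `g` is zero on `II c m 3 1` (on the generators of `range (c 3 1)` and `range (m a 3 0)`, `sGNR`:
`Bf (cst _) = 0`).  `f = g ∘ d 3 0` (`gext`, `wext`: `d 3 0 (tm 2 0 x (pr v)) = tm 1 1 x (pr (cons (cl x) v))`).  So `f w = 0`.
`theorem mE4 : sGNR → sBLD → sKLF → sALT → sE4`. -/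
def sE4 : Prop := ∀ (F : Type) [Field F], sX4 F → ∀ (d : Dif (RatFunc F))
    (c : ∀ k j : ℕ, Γ F k j →ₗ[ℚ] Γ (RatFunc F) k j)
    (m : ∀ (_ : F) (k j : ℕ), Γ F k j →ₗ[ℚ] Γ (RatFunc F) k (j + 1)),
    IsDif (RatFunc F) d → IsCst c → IsMul m →
      ∀ w : Γ (RatFunc F) 4 0, d 3 0 w ∈ II c m 3 1 → w ∈ II c m 4 0

/-- E3.  PROOF.  Otherwise there is a functional `f` on `Γ K 3 1`, zero on `II c m 3 1` and on the range of `d 3 0`, `f w ≠ 0`.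
`Ψ x k = f (tm 1 1 x (pr K 1 ![k]))` (`sKLF`, `sALT`).  `Ps Ψ`: `kil` by `sKLF`; `cl`: `f (d 3 0 (tm 2 0 x (pr ![]))) = 0`;
`cst`: `Ψ (cst c) (lg (C u)) = 0` (`hc.two`), `Ψ (cst c) (E a) = 0` (`hm.two`), and the `lg (C u)`, `E a` span `V K` (`hs.dec`, `hs.cV_lg`,
`PL.span_lg`).  `L` of `sY2`; `sALT` and `sBLD`: `g (tm 0 2 x (pr K 2 v)) = L x (v 0) (v 1)`, zero on `II c m 2 2`
(`L (cst _) (lg (C u)) k = 0`), `f = g ∘ d 2 1`: `d 2 1 (tm 1 1 x (pr v)) = tm 0 2 x (pr (cons (cl x) v))`.  So `f w = 0`.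
`theorem mE3 : sGNR → sBLD → sKLF → sALT → sE3`. -/
def sE3 : Prop := ∀ (F : Type) [Field F] (cV : V F →ₗ[ℚ] V (RatFunc F))
    (lc : V (RatFunc F) →ₗ[ℚ] V F) (od : V (RatFunc F) →ₗ[ℚ] (F →₀ ℚ)), Spl cV lc od →
    sY2 F → ∀ (d : Dif (RatFunc F))
    (c : ∀ k j : ℕ, Γ F k j →ₗ[ℚ] Γ (RatFunc F) k j)
    (m : ∀ (_ : F) (k j : ℕ), Γ F k j →ₗ[ℚ] Γ (RatFunc F) k (j + 1)),
    IsDif (RatFunc F) d → IsCst c → IsMul m →
      ∀ w : Γ (RatFunc F) 3 1, d 2 1 w ∈ II c m 2 2 →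
        ∃ w' : Γ (RatFunc F) 4 0, w - d 3 0 w' ∈ II c m 3 1

/-- E2.  PROOF.  As E3: `f` on `Γ K 2 2`, zero on `II c m 2 2` and on the range of `d 2 1`; `L x k l = f (tm 0 2 x (pr K 2 ![k, l]))` is `Ls`
(`L (cst c) (lg (C u)) (lg (C u')) = 0`, `L (cst c) (lg (C u)) (E a) = 0`, span), `L x (cl x) k = f (d 2 1 (tm 1 1 x (pr ![k]))) = 0`.  `χ` of
`sY3` and `sALT` (`Fin 4`): a functional `g` on `Γ K 1 3 = W K 4` with `g (pr v) = χ (v 0) (v 1) (v 2) (v 3)`, zero on `II c m 1 3`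
(generators `pr K 4 (lg C u ..)` and `pr K 4 (snoc (lg C u ..) (E a))`, `sGNR`), `f = g ∘ d 1 2`:
`d 1 2 (tm 0 2 x (pr v)) = pr (cons (cl1 x) (cons (cl x) v))`.
`theorem mE2 : sGNR → sKLF → sALT → sE2`. -/
def sE2 : Prop := ∀ (F : Type) [Field F] (cV : V F →ₗ[ℚ] V (RatFunc F))
    (lc : V (RatFunc F) →ₗ[ℚ] V F) (od : V (RatFunc F) →ₗ[ℚ] (F →₀ ℚ)), Spl cV lc od →
    sY3 F → ∀ (d : Dif (RatFunc F))
    (c : ∀ k j : ℕ, Γ F k j →ₗ[ℚ] Γ (RatFunc F) k j)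
    (m : ∀ (_ : F) (k j : ℕ), Γ F k j →ₗ[ℚ] Γ (RatFunc F) k (j + 1)),
    IsDif (RatFunc F) d → IsCst c → IsMul m →
      ∀ w : Γ (RatFunc F) 2 2, d 1 2 w ∈ II c m 1 3 →
        ∃ w' : Γ (RatFunc F) 3 1, w - d 2 1 w' ∈ II c m 2 2

/-- E1.  PROOF.  Otherwise `f` on `Γ K 1 3 = W K 4`, zero on `II c m 1 3` and on the range of `d 1 2`, `f w ≠ 0`; `χ a b c d =
f (pr K 4 ![a, b, c, d])` (`sALT`) satisfies the hypotheses of `sY4`: constants: `hc.one` with three constants and a constant,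
`hm.one` with three constants and `E a`, span (`hs.dec`); `χ (cl1 x) (cl x) k l = f (d 1 2 (tm 0 2 x (pr ![k, l]))) = 0`.  So `χ = 0`, `f = 0`
(`wext`).
`theorem mE1 : sALT → sE1`. -/
def sE1 : Prop := ∀ (F : Type) [Field F] (cV : V F →ₗ[ℚ] V (RatFunc F))
    (lc : V (RatFunc F) →ₗ[ℚ] V F) (od : V (RatFunc F) →ₗ[ℚ] (F →₀ ℚ)), Spl cV lc od →
    sY4 F → ∀ (d : Dif (RatFunc F))
    (c : ∀ k j : ℕ, Γ F k j →ₗ[ℚ] Γ (RatFunc F) k j)
    (m : ∀ (_ : F) (k j : ℕ), Γ F k j →ₗ[ℚ] Γ (RatFunc F) k (j + 1)),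
    IsDif (RatFunc F) d → IsCst c → IsMul m →
      ∀ w : Γ (RatFunc F) 1 3, ∃ w' : Γ (RatFunc F) 2 2, w - d 1 2 w' ∈ II c m 1 3

/-- The relations between all maps, used in the final arguments. -/
structure Rel {F : Type} [Field F] {X : Set (P1 F)} (d : Dif (RatFunc F)) (d' : Dif F)
    (r : Res F X) (c : ∀ k j : ℕ, Γ F k j →ₗ[ℚ] Γ (RatFunc F) k j)
    (m : ∀ (_ : F) (k j : ℕ), Γ F k j →ₗ[ℚ] Γ (RatFunc F) k (j + 1)) : Prop where
  dd : ∀ k j w, d k (j + 1) (d (k + 1) j w) = 0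
  dd' : ∀ k j w, d' k (j + 1) (d' (k + 1) j w) = 0
  dc : ∀ k j z, d k j (c (k + 1) j z) = c k (j + 1) (d' k j z)
  dm : ∀ a k j y, d k (j + 1) (m a (k + 1) j y) = m a k (j + 1) (d' k j y)
  rd : ∀ k j w (x : X), ev k (j + 1) (r k (j + 1) (d k (j + 1) w)) x =
    d' k j (ev (k + 1) j (r (k + 1) j w) x)
  rd0 : ∀ k w (x : X), ev k 0 (r k 0 (d k 0 w)) x = 0
  rc : ∀ k j z (x : X), ev k j (r k j (c k (j + 1) z)) x = 0
  rm : ∀ (a : F) (ha : some a ∈ X) k j y, ev k j (r k j (m a k j y)) ⟨some a, ha⟩ = y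
  rm0 : ∀ (a b : F) (hb : some b ∈ X), a ≠ b → ∀ k j y,
    ev k j (r k j (m a k j y)) ⟨some b, hb⟩ = 0
  ci : ∀ k j z, c k j z = 0 → z = 0
  cmi : ∀ (k j : ℕ) (z : Γ F k (j + 1)) (y : F →₀ Γ F k j),
    c k (j + 1) z + y.sum (fun a y => m a k j y) = 0 → z = 0 ∧ y = 0

/-- REL.  PROOF.  Put together `sDDZ` (for `K` and `F`), `sDCM`, `sREX` (second claim: `ev k j (r k j w) ⟨some a, ha⟩ = ρ k j w`), `sRRD`,
`sRCM`, `sPRS`.  (Every `x : X` is `⟨some a, ha⟩`.)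
`theorem mREL : sDDZ → sDCM → sREX → sRRD → sRCM → sPRS → sREL`. -/
def sREL : Prop := ∀ (F : Type) [Field F] (X : Set (P1 F)), none ∉ X →
    (∀ a : F, ∃ ρ, IsR1 a ρ) → ∀ (d : Dif (RatFunc F)) (d' : Dif F)
    (r : Res F X) (c : ∀ k j : ℕ, Γ F k j →ₗ[ℚ] Γ (RatFunc F) k j)
    (m : ∀ (_ : F) (k j : ℕ), Γ F k j →ₗ[ℚ] Γ (RatFunc F) k (j + 1)),
    IsDif (RatFunc F) d → IsDif F d' → IsRes r → IsCst c → IsMul m → Rel d d' r c m

/-- The exactness statements modulo the subcomplex `II`, weight `4`. -/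
structure Ex4 {F : Type} [Field F] (d : Dif (RatFunc F))
    (c : ∀ k j : ℕ, Γ F k j →ₗ[ℚ] Γ (RatFunc F) k j)
    (m : ∀ (_ : F) (k j : ℕ), Γ F k j →ₗ[ℚ] Γ (RatFunc F) k (j + 1)) : Prop where
  e4 : ∀ w : Γ (RatFunc F) 4 0, d 3 0 w ∈ II c m 3 1 → w ∈ II c m 4 0
  e3 : ∀ w : Γ (RatFunc F) 3 1, d 2 1 w ∈ II c m 2 2 →
    ∃ w' : Γ (RatFunc F) 4 0, w - d 3 0 w' ∈ II c m 3 1
  e2 : ∀ w : Γ (RatFunc F) 2 2, d 1 2 w ∈ II c m 1 3 →
    ∃ w' : Γ (RatFunc F) 3 1, w - d 2 1 w' ∈ II c m 2 2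
  e1 : ∀ w : Γ (RatFunc F) 1 3, ∃ w' : Γ (RatFunc F) 2 2, w - d 1 2 w' ∈ II c m 1 3

/-- IIM.  Elements of `II`.  PROOF.  `range ⊔ ⨆ range`: `Submodule.mem_sup`, `Submodule.mem_iSup_iff_exists_finsupp` (or: the set of the
`c z + ∑ m a y_a` is a submodule containing the ranges).
`theorem mIIM : sIIM`. -/
def sIIM : Prop := ∀ (F : Type) [Field F] (c : ∀ k j : ℕ, Γ F k j →ₗ[ℚ] Γ (RatFunc F) k j)
    (m : ∀ (_ : F) (k j : ℕ), Γ F k j →ₗ[ℚ] Γ (RatFunc F) k (j + 1)) (k j : ℕ)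
    (w : Γ (RatFunc F) k (j + 1)), w ∈ II c m k (j + 1) ↔
      ∃ (z : Γ F k (j + 1)) (y : F →₀ Γ F k j),
        w = c k (j + 1) z + y.sum fun a y => m a k j y

/-- QSU.  Surjectivity on cohomology.  PROOF.  Cases `(k, j) = (4,0), (3,1), (2,2), (1,3), (0,4)`.
`(4,0)`: `d 3 0 w = 0`, so `w = c z` (`e4`), `c (d' z) = d (c z) = 0`, `d' z = 0` (`ci`); `s = z`.
`(k,j)`, `1 ≤ j ≤ 3`: let `w` be a cocycle, `a` its component in `Γ K k j` and (for `j ≥ 2`) `b` its component in `ΓP`: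
`d a = 0` and `r a = d' b` (for `j = 1`: `r a = 0`).  By `e3`, `e2`, `e1` and `sIIM`: `a = c z + ∑ m_x y_x + d a'`.
`0 = d a = c (d' z) + ∑ m_x (d' y_x)`, so `d' z = 0`, `d' y_x = 0` (`cmi`).  For `x ∈ X`: `r_x a = y_x + r_x (d a') =
y_x + d' (r_x a')` (for `j = 1`: `r_x a = y_x`, by `rd0`).  `s = (z, (y_x)_(x ∉ X))` is a cocycle of `ΓS`.
`j = 1`: `y_x = 0` for `x ∈ X`; `w - io s = d a' = dΓX a'`.
`j ≥ 2`: `y_x = d' (b_x - r_x a')`, so `a'' = a' + ∑_(x ∈ X) m_x (b_x - r_x a')` (finite sum: `b - r a'` is a finitely supported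
function on `X`) has `d a'' = d a' + ∑_(x ∈ X) m_x y_x` and `r_x a'' = b_x`; so `w - io s = (d a'', r a'') = dΓX (a'', 0)` (for `j = 2`:
`dΓX a''`).
`(0,4)`: `w = (0, b)`, `a'' = ∑ m_x b_x ∈ Γ K 1 3`, `r a'' = b`, `w = dΓX (a'', 0)`, `s = 0` (the other components are in `PUnit`).
(The restriction of `y : F →₀ _` to `Co X`: `Finsupp.comapDomain` along the injection; split the sum over `F` into the points
in `X` and the others.)
`theorem mQSU : sIIM → sQSU`. -/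
def sQSU : Prop := ∀ (F : Type) [Field F] (X : Set (P1 F)), none ∉ X →
    ∀ (d : Dif (RatFunc F)) (d' : Dif F)
    (r : Res F X) (c : ∀ k j : ℕ, Γ F k j →ₗ[ℚ] Γ (RatFunc F) k j)
    (m : ∀ (_ : F) (k j : ℕ), Γ F k j →ₗ[ℚ] Γ (RatFunc F) k (j + 1)),
    Rel d d' r c m → Ex4 d c m →
      ∀ k j : ℕ, k + j = 4 → ∀ w : ΓX F X k j, Cyc d d' r k j w →
        ∃ s : ΓS X k j, CycS d' k j s ∧ Bdy d d' r k j (w - io c m k j s)

/-- QIN.  Injectivity on cohomology.  PROOF.  Cases `(4,0), (3,1), (2,2), (1,3), (0,4)`.  `(4,0)`: `c s = 0`, `s = 0` (`ci`).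
`(0,4)`: `s = dS 0` (all in `PUnit`).  Otherwise `io s = dΓX w'`; let `a'` be the component of `w'` in `Γ K (k+1) (j-1)`:
`d a' = c z + ∑_(x ∉ X) m_x y_x` is in `II c m k j` (`sIIM`), `s = (z, y)`.  By `e4`, `e3`, `e2` and `sIIM`: `a' = c z' + ∑ m_x y'_x + d a''`
(for `j = 1`: `a' = c z'`).  `d a' = c (d' z') + ∑ m_x (d' y'_x)` (`dd`), so `z = d' z'`, `y_x = d' y'_x` for `x ∉ X` (`cmi` for the difference).
So `s = dS (z', (y'_x)_(x ∉ X))` (for `j = 1`: `s = dS z'`, `y = 0`).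
`theorem mQIN : sIIM → sQIN`. -/
def sQIN : Prop := ∀ (F : Type) [Field F] (X : Set (P1 F)), none ∉ X →
    ∀ (d : Dif (RatFunc F)) (d' : Dif F)
    (r : Res F X) (c : ∀ k j : ℕ, Γ F k j →ₗ[ℚ] Γ (RatFunc F) k j)
    (m : ∀ (_ : F) (k j : ℕ), Γ F k j →ₗ[ℚ] Γ (RatFunc F) k (j + 1)),
    Rel d d' r c m → Ex4 d c m →
      ∀ k j : ℕ, k + j = 4 → ∀ s : ΓS X k j, CycS d' k j s →
        Bdy d d' r k j (io c m k j s) → BdyS d' k j s

/-- QCM.  PROOF.  Cases `j = 0, 1, j' + 2`.  `complex`: first component `dd`; second component: `j = 0`: `r (d (d a))`.. precisely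
`dΓX` of `d a` is `(d (d a), r (d a))` and `r (d a) = 0` (`rd0`); `j = 1`: `(d a, r a) ↦ (0, r (d a) - d' (r a)) = 0` (`rd`);
`j ≥ 2`: `r (d a) - d' (r a - d' b) = 0` (`rd`, `dd'`).  Equalities in `ΓP` by `Finsupp.ext` and `ev`.
`morphism`: `d (c z) = c (d' z)` (`dc`), `d (m_x y_x) = m_x (d' y_x)` (`dm`; the sum over `Finsupp.mapRange`: `Finsupp.sum_mapRange_index`), and the
residues of `c z` and of `m_x y_x`, `x ∉ X`, at the points of `X` are `0` (`rc`, `rm0`), so the second component of `dΓX (io s)` is `0`.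
`theorem mQCM : sQCM`. -/
def sQCM : Prop := ∀ (F : Type) [Field F] (X : Set (P1 F)), none ∉ X →
    ∀ (d : Dif (RatFunc F)) (d' : Dif F)
    (r : Res F X) (c : ∀ k j : ℕ, Γ F k j →ₗ[ℚ] Γ (RatFunc F) k j)
    (m : ∀ (_ : F) (k j : ℕ), Γ F k j →ₗ[ℚ] Γ (RatFunc F) k (j + 1)),
    Rel d d' r c m →
      (∀ (k j : ℕ) (w : ΓX F X (k + 2) j),
        dΓX d d' r k (j + 1) (dΓX d d' r (k + 1) j w) = 0) ∧
      ∀ (k j : ℕ) (s : ΓS X (k + 1) j),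
        io c m k (j + 1) (dS d' k j s) = dΓX d d' r k j (io c m (k + 1) j s)

end

end Pool.Agent.Helper19.HV
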