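import Pool.Agent.Helper19.HV.DefsB
import Pool.Agent.Helper91.PL.A1

/-!
# Project HV: the symbols of the functions of degree one
-/

set_option autoImplicit false

namespace Pool.Agent.Helper19.HV

noncomputable section

open PL

variable {F : Type} [Field F]

theorem X_sub_ne (a : F) : (RatFunc.X - RatFunc.C a : RatFunc F) ≠ 0 := by
  intro h
  have h1 : (algebraMap (Polynomial F) (RatFunc F)) (Polynomial.X - Polynomial.C a) = 0 := by
    rw [map_sub, RatFunc.algebraMap_X, RatFunc.algebraMap_C]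
    exact h
  exact Polynomial.X_sub_C_ne_zero a ((map_eq_zero_iff _ (RatFunc.algebraMap_injective F)).1 h1)

theorem C_ne {c : F} (hc : c ≠ 0) : (RatFunc.C c : RatFunc F) ≠ 0 :=
  (map_ne_zero (RatFunc.C : F →+* RatFunc F)).2 hc

theorem lg_div' {x y : RatFunc F} (hx : x ≠ 0) (hy : y ≠ 0) : lg (x / y) = lg x - lg y := by
  rw [div_eq_mul_inv, lg_mul hx (inv_ne_zero hy), lg_inv, sub_eq_add_neg]

theorem cl_x1 {a p : F} (h : p ≠ a) : cl (x1 a p) = E a - lg (RatFunc.C (p - a)) := by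
  have h1 : p - a ≠ 0 := sub_ne_zero.2 h
  change lg (RatFunc.C (p - a)⁻¹ * (RatFunc.X - RatFunc.C a)) = _
  rw [lg_mul (C_ne (inv_ne_zero h1)) (X_sub_ne a), map_inv₀, lg_inv]
  unfold E
  abel

theorem cl1_x1 {a p : F} (h : p ≠ a) : cl1 (x1 a p) = E p - lg (RatFunc.C (p - a)) := by
  have h1 : p - a ≠ 0 := sub_ne_zero.2 h
  have h2 := C_ne h1
  have h3 : (1 - RatFunc.C (p - a)⁻¹ * (RatFunc.X - RatFunc.C a) : RatFunc F) =
      -(RatFunc.C (p - a)⁻¹ * (RatFunc.X - RatFunc.C p)) := by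
    rw [map_inv₀]
    field_simp
    rw [map_sub]
    ring
  change lg (1 - RatFunc.C (p - a)⁻¹ * (RatFunc.X - RatFunc.C a)) = _
  rw [h3, lg_neg, lg_mul (C_ne (inv_ne_zero h1)) (X_sub_ne p), map_inv₀, lg_inv]
  unfold E
  abel

theorem cl_x2 {a b c : F} (hc : c ≠ 0) : cl (x2 a b c) = lg (RatFunc.C c) + (E a - E b) := by
  change lg (RatFunc.C c * ((RatFunc.X - RatFunc.C a) / (RatFunc.X - RatFunc.C b))) = _
  rw [lg_mul (C_ne hc) (div_ne_zero (X_sub_ne a) (X_sub_ne b)), lg_div' (X_sub_ne a) (X_sub_ne b)]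
  rfl

theorem cl1_x2_one {a b : F} (hab : a ≠ b) :
    cl1 (x2 a b 1) = lg (RatFunc.C (a - b)) - E b := by
  have h1 := X_sub_ne b
  have h2 : (1 - RatFunc.C 1 * ((RatFunc.X - RatFunc.C a) / (RatFunc.X - RatFunc.C b)) :
      RatFunc F) = RatFunc.C (a - b) / (RatFunc.X - RatFunc.C b) := by
    rw [map_one, one_mul, map_sub]
    field_simp
    ring
  change lg (1 - RatFunc.C 1 * ((RatFunc.X - RatFunc.C a) / (RatFunc.X - RatFunc.C b))) = _
  rw [h2, lg_div' (C_ne (sub_ne_zero.2 hab)) h1]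
  rfl

theorem cl1_x2 {a b p : F} (hab : a ≠ b) (ha : p ≠ a) :
    cl1 (x2 a b ((p - b) / (p - a))) =
      lg (RatFunc.C (1 - (p - b) / (p - a))) + (E p - E b) := by
  have h0 : p - a ≠ 0 := sub_ne_zero.2 ha
  have h1 := X_sub_ne b
  have h3 : (1 - (p - b) / (p - a)) ≠ 0 := by
    intro h
    field_simp at h
    exact hab (by linear_combination -h)
  have h4 : (RatFunc.C (p - a) : RatFunc F) ≠ 0 := C_ne h0
  have h2 : (1 - RatFunc.C ((p - b) / (p - a)) * ((RatFunc.X - RatFunc.C a) /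
      (RatFunc.X - RatFunc.C b)) : RatFunc F) =
      RatFunc.C (1 - (p - b) / (p - a)) * ((RatFunc.X - RatFunc.C p) /
      (RatFunc.X - RatFunc.C b)) := by
    rw [map_sub, map_div₀, map_one]
    field_simp
    rw [map_sub, map_sub]
    ring
  change lg (1 - RatFunc.C ((p - b) / (p - a)) * ((RatFunc.X - RatFunc.C a) /
      (RatFunc.X - RatFunc.C b))) = _
  rw [h2, lg_mul (C_ne h3) (div_ne_zero (X_sub_ne p) (X_sub_ne b)),
    lg_div' (X_sub_ne p) (X_sub_ne b)]
  rfl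

end

end Pool.Agent.Helper19.HV
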